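import Mathlib

set_option autoImplicit false

namespace Pool.Agent.P.MP_e0c710_co

open Finset

section Petrov

variable {ι : Type} [Fintype ι] [DecidableEq ι]

lemma sum_update_three (F : (ι → Fin 3) → ZMod 2) (i0 : ι) :
    ∑ om : ι → Fin 3, F om = ∑ om : ι → Fin 3, ∑ x : Fin 3, F (Function.update om i0 x) := by
  have h : ∑ p : (ι → Fin 3) × Fin 3, F (Function.update p.1 i0 p.2)
      = ∑ p : (ι → Fin 3) × Fin 3, F p.1 := by
    let e : (ι → Fin 3) × Fin 3 ≃ (ι → Fin 3) × Fin 3 :=
      { toFun := fun p => (Function.update p.1 i0 p.2, p.1 i0)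
        invFun := fun p => (Function.update p.1 i0 p.2, p.1 i0)
        left_inv := by intro p; simp
        right_inv := by intro p; simp }
    exact Fintype.sum_equiv e _ _ (fun p => rfl)
  rw [← Fintype.sum_prod_type', h, Fintype.sum_prod_type]
  refine Finset.sum_congr rfl (fun om _ => ?_)
  simp only [Finset.sum_const, Finset.card_univ, Fintype.card_fin, nsmul_eq_mul]
  have : ((3 : ℕ) : ZMod 2) = 1 := by decide
  rw [this, one_mul]

/-- the factor attached to the arrow from `i` to `j` -/
def gfac (cr : ι → Fin 3 → ι → Fin 3 → ZMod 2) (om : ι → Fin 3) (i j : ι) : ZMod 2 :=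
  if j = i then 1 else cr i (om i) j (om j)

lemma term_vanish (cr : ι → Fin 3 → ι → Fin 3 → ZMod 2)
    (hsym : ∀ i x j y, i ≠ j → cr i x j y = cr j y i x)
    (hsum : ∀ i j y, i ≠ j → ∑ x, cr i x j y = 0)
    (f : ι → ι) (i0 : ι) (h0 : f i0 ≠ i0) (h1 : ∀ i, f i = i0 → i = f i0) :
    ∑ om : ι → Fin 3, ∏ i, gfac cr om i (f i) = 0 := by
  rw [sum_update_three _ i0]
  refine Finset.sum_eq_zero (fun om _ => ?_)
  have key : ∀ x : Fin 3, ∏ i, gfac cr (Function.update om i0 x) i (f i)
      = cr i0 x (f i0) (om (f i0)) *
        ∏ i ∈ univ.filter (fun i => i ≠ i0 ∧ f i ≠ i0), gfac cr om i (f i) := by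
    intro x
    rw [← Finset.prod_filter_mul_prod_filter_not univ (fun i => i ≠ i0 ∧ f i ≠ i0), mul_comm]
    congr 1
    · by_cases h2 : f (f i0) = i0
      · have : univ.filter (fun i => ¬ (i ≠ i0 ∧ f i ≠ i0)) = {i0, f i0} := by
          ext i
          simp only [mem_filter, mem_univ, true_and, mem_insert, mem_singleton, not_and_or, not_not]
          constructor
          · rintro (h | h)
            · exact Or.inl h
            · exact Or.inr (h1 i h)
          · rintro (h | h)
            · exact Or.inl h
            · right; rw [h]; exact h2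
        rw [this, Finset.prod_pair h0.symm]
        simp only [gfac, h2, if_neg h0, if_neg h0.symm, Function.update_self,
          Function.update_of_ne h0]
        rw [hsym (f i0) _ i0 _ h0]
        generalize cr i0 x (f i0) (om (f i0)) = z
        revert z; decide
      · have : univ.filter (fun i => ¬ (i ≠ i0 ∧ f i ≠ i0)) = {i0} := by
          ext i
          simp only [mem_filter, mem_univ, true_and, mem_singleton, not_and_or, not_not]
          constructor
          · rintro (h | h)
            · exact h
            · exact absurd (by rw [← h1 i h]; exact h) h2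
          · intro h; exact Or.inl h
        rw [this, Finset.prod_singleton]
        simp only [gfac, if_neg h0, Function.update_self, Function.update_of_ne h0]
    · refine Finset.prod_congr rfl (fun i hi => ?_)
      simp only [mem_filter, mem_univ, true_and] at hi
      simp only [gfac, Function.update_of_ne hi.1, Function.update_of_ne hi.2]
  simp only [key]
  rw [← Finset.sum_mul, hsum i0 (f i0) _ h0.symm, zero_mul]

theorem petrov (cr : ι → Fin 3 → ι → Fin 3 → ZMod 2)
    (hsym : ∀ i x j y, i ≠ j → cr i x j y = cr j y i x)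
    (hsum : ∀ i j y, i ≠ j → ∑ x, cr i x j y = 0) :
    ∑ om : ι → Fin 3, ∏ i, ∑ j, gfac cr om i j = 1 := by
  have e1 : ∀ om : ι → Fin 3, ∏ i, ∑ j, gfac cr om i j
      = ∑ f : ι → ι, ∏ i, gfac cr om i (f i) := by
    intro om
    rw [Finset.prod_univ_sum]
    simp
  simp only [e1]
  rw [Finset.sum_comm]
  set T : (ι → ι) → ZMod 2 := fun f => ∑ om : ι → Fin 3, ∏ i, gfac cr om i (f i) with hT
  have e2 : ∑ f : ι → ι, T f = ∑ σ : Equiv.Perm ι, T σ := by
    symm
    refine Finset.sum_bij_ne_zero (fun σ _ _ => (σ : ι → ι)) (fun _ _ _ => mem_univ _)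
      (fun σ _ _ τ _ _ h => by ext x; exact congrFun h x) ?_ (fun _ _ _ => rfl)
    intro f _ hf
    have hsurj : Function.Surjective f := by
      by_contra hns
      apply hf
      rw [Function.Surjective] at hns
      push Not at hns
      obtain ⟨i0, hi0⟩ := hns
      exact term_vanish cr hsym hsum f i0 (hi0 i0) (fun i h => absurd h (hi0 i))
    have hbij : Function.Bijective f := (Finite.surjective_iff_bijective).1 hsurj
    exact ⟨Equiv.ofBijective f hbij, mem_univ _, hf, rfl⟩
  rw [e2, ← Finset.add_sum_erase _ _ (mem_univ (1 : Equiv.Perm ι))]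
  have e3 : ∑ σ ∈ univ.erase (1 : Equiv.Perm ι), T σ = 0 := by
    refine Finset.sum_involution (fun σ _ => σ⁻¹) ?_ ?_ ?_ ?_
    · intro σ _
      have : T (σ⁻¹ : Equiv.Perm ι) = T σ := by
        simp only [hT]
        refine Finset.sum_congr rfl (fun om _ => ?_)
        refine (Fintype.prod_equiv σ _ _ (fun i => ?_)).symm
        simp only [gfac, Equiv.Perm.coe_inv, Equiv.symm_apply_apply]
        by_cases h : σ i = i
        · simp [h]
        · rw [if_neg h, if_neg (Ne.symm h), hsym _ _ _ _ (Ne.symm h)]
      rw [this]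
      generalize T σ = z
      revert z; decide
    · intro σ hσ hT0 hinv
      apply hT0
      have hne : σ ≠ 1 := (mem_erase.1 hσ).1
      obtain ⟨i0, hi0⟩ : ∃ i0, σ i0 ≠ i0 := by
        by_contra hc
        push Not at hc
        exact hne (Equiv.ext hc)
      refine term_vanish cr hsym hsum σ i0 hi0 (fun i h => ?_)
      rw [← h]
      have : σ⁻¹ (σ i) = i := by simp
      rw [hinv] at this
      exact this.symm
    · intro σ hσ
      simpa using hσ
    · intro σ _
      simp
  rw [e3, add_zero]
  simp only [hT, gfac, Equiv.Perm.coe_one, id, if_true, Finset.prod_const_one, Finset.sum_const,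
    Finset.card_univ, Fintype.card_pi, Fintype.card_fin, Finset.prod_const, nsmul_eq_mul, mul_one]
  push_cast
  have : (3 : ZMod 2) = 1 := by decide
  rw [this, one_pow]

end Petrov

end Pool.Agent.P.MP_e0c710_co
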