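import Mathlib
import Pool.Agent.P.MP_e0c710_co.Parity

set_option autoImplicit false
set_option linter.unusedSectionVars false

namespace Pool.Agent.P.MP_e0c710_co

open Finset MvPolynomial

section FS

variable {ι : Type} [Fintype ι] [DecidableEq ι] {m : ℕ}

/-- the corner with exponent two -/
def cb (κ : Fin 3 × Bool) : Fin 3 := if κ.2 then κ.1 + 1 else κ.1 + 2
/-- the corner with exponent zero -/
def ca (κ : Fin 3 × Bool) : Fin 3 := if κ.2 then κ.1 + 2 else κ.1 + 1
/-- exponent of a corner -/
def ex (κ : Fin 3 × Bool) (j : Fin 3) : ℕ := (if κ.1 = j then 1 else 0) + (if cb κ = j then 2 else 0)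

/-- the graph polynomial of path plus triangles -/
noncomputable def PP (A : Type) [CommRing A] (pos : ι × Fin 3 ≃ Fin (m + 1)) :
    MvPolynomial (ι × Fin 3) A :=
  (∏ k : Fin m, (X (pos.symm k.succ) + X (pos.symm k.castSucc))) *
    ∏ i : ι, ((X (i, 0) + X (i, 1)) * (X (i, 0) + X (i, 2)) * (X (i, 1) + X (i, 2)))

/-- the endpoint chosen on a path edge -/
def gch (pos : ι × Fin 3 ≃ Fin (m + 1)) (k : Fin m) (β : Bool) : ι × Fin 3 :=
  if β then pos.symm k.succ else pos.symm k.castSucc

/-- the target exponent -/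
noncomputable def tgt (pos : ι × Fin 3 ≃ Fin (m + 1)) : ι × Fin 3 →₀ ℕ :=
  Finsupp.equivFunOnFinite.symm (fun v => if pos v = 0 then 1 else 2)

lemma PP_expand (pos : ι × Fin 3 ≃ Fin (m + 1)) :
    PP (ZMod 2) pos = ∑ κ : ι → Fin 3 × Bool, ∑ s : Fin m → Bool,
      monomial ((∑ k, Finsupp.single (gch pos k (s k)) 1) +
        ∑ i, (Finsupp.single (i, (κ i).1) 1 + Finsupp.single (i, cb (κ i)) 2)) 1 := by
  have h1 : ∀ k : Fin m, (X (pos.symm k.succ) + X (pos.symm k.castSucc) :
      MvPolynomial (ι × Fin 3) (ZMod 2)) =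
      ∑ β : Bool, monomial (Finsupp.single (gch pos k β) 1) 1 := by
    intro k
    simp [gch, X]
  have h2 : ∀ i : ι, ((X (i, 0) + X (i, 1)) * (X (i, 0) + X (i, 2)) * (X (i, 1) + X (i, 2)) :
      MvPolynomial (ι × Fin 3) (ZMod 2)) =
      ∑ κ : Fin 3 × Bool,
        monomial (Finsupp.single (i, κ.1) 1 + Finsupp.single (i, cb κ) 2) 1 := by
    intro i
    have hm : ∀ κ : Fin 3 × Bool, (monomial (Finsupp.single (i, κ.1) 1 +
        Finsupp.single (i, cb κ) 2) 1 : MvPolynomial (ι × Fin 3) (ZMod 2)) =
        X (i, κ.1) * X (i, cb κ) ^ 2 := by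
      intro κ
      rw [X_pow_eq_monomial, X, monomial_mul, one_mul]
    simp only [hm]
    simp only [Fintype.sum_prod_type, Fin.sum_univ_three, Fintype.sum_bool, cb]
    have h2' : (2 : MvPolynomial (ι × Fin 3) (ZMod 2)) = 0 := CharTwo.two_eq_zero
    simp only [if_true, Bool.false_eq_true, if_false]
    have a1 : (0 : Fin 3) + 1 = 1 := rfl
    have a2 : (0 : Fin 3) + 2 = 2 := rfl
    have a3 : (1 : Fin 3) + 1 = 2 := rfl
    have a4 : (1 : Fin 3) + 2 = 0 := rfl
    have a5 : (2 : Fin 3) + 1 = 0 := rfl
    have a6 : (2 : Fin 3) + 2 = 1 := rfl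
    rw [a1, a2, a3, a4, a5, a6]
    linear_combination (X (i, 0) * X (i, 1) * X (i, 2)) * h2'
  unfold PP
  simp only [h1, h2]
  rw [Finset.prod_univ_sum, Finset.prod_univ_sum, Finset.sum_mul_sum, Finset.sum_comm]
  simp only [Fintype.piFinset_univ]
  refine Finset.sum_congr rfl (fun κ _ => Finset.sum_congr rfl (fun s _ => ?_))
  rw [← monomial_sum_one, ← monomial_sum_one, monomial_mul, one_mul]

/-- the orientation of the path edges, extended by `true` -/
def sext (s : Fin m → Bool) (q : ℕ) : Bool :=
  if h : 0 < q ∧ q ≤ m then s ⟨q - 1, by omega⟩ else true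

lemma path_exp (pos : ι × Fin 3 ≃ Fin (m + 1)) (s : Fin m → Bool) (v : ι × Fin 3) :
    (∑ k, Finsupp.single (gch pos k (s k)) 1 : ι × Fin 3 →₀ ℕ) v + (if pos v = 0 then 1 else 0)
      = (sext s (pos v)).toNat + (!(sext s (pos v + 1))).toNat := by
  rw [Finsupp.finsetSum_apply]
  have h : ∀ k : Fin m, (Finsupp.single (gch pos k (s k)) 1 : ι × Fin 3 →₀ ℕ) v
      = (if k.val + 1 = (pos v).val then (s k).toNat else 0)
        + (if k.val = (pos v).val then (!(s k)).toNat else 0) := by
    intro k
    rw [Finsupp.single_apply]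
    unfold gch
    cases hs : s k
    · simp only [Bool.false_eq_true, if_false, Equiv.symm_apply_eq, Fin.ext_iff, Fin.val_castSucc]
      simp
    · simp only [if_true, Equiv.symm_apply_eq, Fin.ext_iff, Fin.val_succ]
      simp
  simp only [h, Finset.sum_add_distrib]
  have hv := (pos v).isLt
  have e1 : (∑ k : Fin m, if k.val + 1 = (pos v).val then (s k).toNat else 0)
      + (if pos v = 0 then 1 else 0) = (sext s (pos v)).toNat := by
    by_cases h0 : (pos v).val = 0
    · have : pos v = 0 := Fin.ext h0
      simp [sext, this]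
    · have hne : pos v ≠ 0 := fun h => h0 (by rw [h]; rfl)
      rw [if_neg hne, add_zero, Finset.sum_eq_single ⟨(pos v).val - 1, by omega⟩]
      · rw [if_pos (by simp; omega)]
        unfold sext
        rw [dif_pos (by omega)]
      · intro k _ hk
        rw [if_neg]
        intro h
        apply hk
        ext; simp; omega
      · simp
  have e2 : (∑ k : Fin m, if k.val = (pos v).val then (!(s k)).toNat else 0)
      = (!(sext s (pos v + 1))).toNat := by
    by_cases h0 : (pos v).val = m
    · rw [Finset.sum_eq_zero]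
      · unfold sext
        rw [dif_neg (by omega)]; rfl
      · intro k _
        rw [if_neg]
        have := k.isLt; omega
    · rw [Finset.sum_eq_single ⟨(pos v).val, by omega⟩]
      · rw [if_pos rfl]
        unfold sext
        rw [dif_pos (by omega)]; rfl
      · intro k _ hk
        rw [if_neg]
        intro h
        apply hk
        ext; simpa using h
      · simp
  omega

lemma tri_exp (κ : ι → Fin 3 × Bool) (v : ι × Fin 3) :
    (∑ i, (Finsupp.single (i, (κ i).1) 1 + Finsupp.single (i, cb (κ i)) 2) :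
      ι × Fin 3 →₀ ℕ) v = ex (κ v.1) v.2 := by
  rw [Finsupp.finsetSum_apply, Finset.sum_eq_single v.1]
  · obtain ⟨i, j⟩ := v
    simp [Finsupp.single_apply, ex]
  · intro i _ hi
    obtain ⟨i', j⟩ := v
    simp only at hi
    simp [hi]
  · simp

/-- marked corners -/
def mark (om : ι → Fin 3) (w : ι × Fin 3) : ZMod 2 := if w.2 = om w.1 then 0 else 1

/-- parity state before position `q` -/
def St (pos : ι × Fin 3 ≃ Fin (m + 1)) (om : ι → Fin 3) (q : ℕ) : ZMod 2 :=
  1 + ∑ w, if (pos w).val < q then mark om w else 0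

lemma St_zero (pos : ι × Fin 3 ≃ Fin (m + 1)) (om : ι → Fin 3) : St pos om 0 = 1 := by
  simp [St]

lemma St_succ (pos : ι × Fin 3 ≃ Fin (m + 1)) (om : ι → Fin 3) (v : ι × Fin 3) :
    St pos om (pos v + 1) = St pos om (pos v) + mark om v := by
  unfold St
  rw [add_assoc]
  congr 1
  have : ∀ w, (if (pos w).val < (pos v).val + 1 then mark om w else 0)
      = (if (pos w).val < (pos v).val then mark om w else 0) + (if w = v then mark om w else 0) := by
    intro w
    by_cases h : w = v
    · subst h; simp
    · have : (pos w).val ≠ (pos v).val := fun h' => h (pos.injective (Fin.ext h'))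
      rw [if_neg h, add_zero]
      by_cases h2 : (pos w).val < (pos v).val
      · rw [if_pos h2, if_pos (by omega)]
      · rw [if_neg h2, if_neg (by omega)]
  simp only [this, Finset.sum_add_distrib]
  simp

lemma St_last (pos : ι × Fin 3 ≃ Fin (m + 1)) (om : ι → Fin 3) : St pos om (m + 1) = 1 := by
  unfold St
  have : ∀ w, (if (pos w).val < m + 1 then mark om w else 0) = mark om w :=
    fun w => if_pos (pos w).isLt
  simp only [this, Fintype.sum_prod_type]
  rw [Finset.sum_eq_zero, add_zero]
  intro i _
  simp only [mark]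
  have h3 : ∀ x : Fin 3, (∑ y : Fin 3, if y = x then (0 : ZMod 2) else 1) = 0 := by decide
  exact h3 _

lemma inner_sum (pos : ι × Fin 3 ≃ Fin (m + 1)) (κ : ι → Fin 3 × Bool) :
    (∑ s : Fin m → Bool, if (∑ k, Finsupp.single (gch pos k (s k)) 1) +
        (∑ i, (Finsupp.single (i, (κ i).1) 1 + Finsupp.single (i, cb (κ i)) 2)) = tgt pos
        then (1 : ZMod 2) else 0)
      = ∏ i, (St pos (fun i => (κ i).1) (pos (i, ca (κ i))) *
          (1 + St pos (fun i => (κ i).1) (pos (i, cb (κ i))))) := by
  set om : ι → Fin 3 := fun i => (κ i).1 with hom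
  have hcond : ∀ s : Fin m → Bool, ((∑ k, Finsupp.single (gch pos k (s k)) 1) +
        (∑ i, (Finsupp.single (i, (κ i).1) 1 + Finsupp.single (i, cb (κ i)) 2)) = tgt pos) ↔
        ∀ v, (sext s (pos v)).toNat + (!(sext s (pos v + 1))).toNat + ex (κ v.1) v.2 = 2 := by
    intro s
    rw [Finsupp.ext_iff]
    refine forall_congr' (fun v => ?_)
    rw [Finsupp.add_apply, tri_exp, ← path_exp]
    simp only [tgt, Finsupp.coe_equivFunOnFinite_symm]
    split_ifs <;> omega
  simp only [hcond]
  let s0 : Fin m → Bool := fun k => decide (St pos om (k.val + 1) = 1)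
  have hs0 : ∀ q, q ≤ m + 1 → sext s0 q = decide (St pos om q = 1) := by
    intro q hq
    unfold sext
    by_cases h : 0 < q ∧ q ≤ m
    · rw [dif_pos h]
      simp only [s0]
      rw [show q - 1 + 1 = q by omega]
    · rw [dif_neg h]
      have : q = 0 ∨ q = m + 1 := by omega
      rcases this with h | h <;> subst h
      · simp [St_zero]
      · simp [St_last]
  have hloc : ∀ (κ0 : Fin 3 × Bool) (j : Fin 3) (x y : Bool),
      x.toNat + (!y).toNat + ex κ0 j = 2 → ∀ z : ZMod 2, x = decide (z = 1) →
      y = decide (z + (if j = κ0.1 then 0 else 1) = 1) := by decide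
  have huniq : ∀ s : Fin m → Bool,
      (∀ v, (sext s (pos v)).toNat + (!(sext s (pos v + 1))).toNat + ex (κ v.1) v.2 = 2) →
      s = s0 := by
    intro s hs
    have : ∀ q, q ≤ m + 1 → sext s q = decide (St pos om q = 1) := by
      intro q
      induction q with
      | zero => intro _; simp [sext, St_zero]
      | succ q ih =>
        intro hq
        have hv : (pos (pos.symm ⟨q, by omega⟩)).val = q := by simp
        have h1 := hs (pos.symm ⟨q, by omega⟩)
        have h2 := St_succ pos om (pos.symm ⟨q, by omega⟩)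
        rw [hv] at h1 h2
        rw [h2]
        exact hloc _ _ _ _ h1 _ (ih (by omega))
    funext k
    have h1 := this (k.val + 1) (by omega)
    have h2 : sext s (k.val + 1) = s k := by
      unfold sext
      rw [dif_pos (by omega)]; rfl
    rw [← h2, h1]
  rw [Finset.sum_eq_single s0]
  · have hiff : (∀ v, (sext s0 (pos v)).toNat + (!(sext s0 (pos v + 1))).toNat
        + ex (κ v.1) v.2 = 2) ↔
        ∀ i, St pos om (pos (i, ca (κ i))) = 1 ∧ St pos om (pos (i, cb (κ i))) = 0 := by
      have hv : ∀ v, ((sext s0 (pos v)).toNat + (!(sext s0 (pos v + 1))).toNat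
          + ex (κ v.1) v.2 = 2) ↔ ((v.2 = ca (κ v.1) → St pos om (pos v) = 1) ∧
            (v.2 = cb (κ v.1) → St pos om (pos v) = 0)) := by
        intro v
        have := (pos v).isLt
        rw [hs0 _ (by omega), hs0 _ (by omega), St_succ]
        simp only [mark, hom]
        generalize St pos (fun i => (κ i).1) (pos v) = z
        generalize κ v.1 = κ0
        generalize v.2 = j
        revert z κ0 j; decide
      simp only [hv]
      constructor
      · intro h i
        exact ⟨(h (i, ca (κ i))).1 rfl, (h (i, cb (κ i))).2 rfl⟩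
      · rintro h ⟨i, j⟩
        constructor
        · intro hj; simp only at hj; subst hj; exact (h i).1
        · intro hj; simp only at hj; subst hj; exact (h i).2
    simp only [hiff]
    split_ifs with h
    · symm
      refine Finset.prod_eq_one (fun i _ => ?_)
      rw [(h i).1, (h i).2]; rfl
    · symm
      rw [not_forall] at h
      obtain ⟨i, hi⟩ := h
      refine Finset.prod_eq_zero (mem_univ i) ?_
      revert hi
      generalize St pos om (pos (i, ca (κ i))) = z
      generalize St pos om (pos (i, cb (κ i))) = z'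
      revert z z'; decide
  · intro s _ hs
    rw [if_neg]
    intro h
    exact hs (huniq s h)
  · simp

/-- crossing parity of two chords -/
def crs (pos : ι × Fin 3 ≃ Fin (m + 1)) (i : ι) (x : Fin 3) (j : ι) (y : Fin 3) : ZMod 2 :=
  ∑ p : Fin 3, ∑ q : Fin 3,
    if p ≠ x ∧ q ≠ y ∧ (pos (j, q)).val < (pos (i, p)).val then 1 else 0

lemma coeff_PP (pos : ι × Fin 3 ≃ Fin (m + 1)) : coeff (tgt pos) (PP (ZMod 2) pos) = 1 := by
  rw [PP_expand, coeff_sum]
  simp only [coeff_sum, coeff_monomial, inner_sum]
  have e1 : ∑ κ : ι → Fin 3 × Bool, ∏ i, (St pos (fun i => (κ i).1) (pos (i, ca (κ i))) *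
          (1 + St pos (fun i => (κ i).1) (pos (i, cb (κ i)))))
      = ∑ om : ι → Fin 3, ∑ o : ι → Bool, ∏ i, (St pos om (pos (i, ca (om i, o i))) *
          (1 + St pos om (pos (i, cb (om i, o i))))) := by
    rw [← Fintype.sum_prod_type']
    exact Fintype.sum_equiv (Equiv.arrowProdEquivProdArrow _ _ _) _ _ (fun κ => rfl)
  rw [e1]
  refine Eq.trans ?_ (petrov (crs pos) ?_ ?_)
  · refine Finset.sum_congr rfl (fun om _ => ?_)
    have e2 : ∑ o : ι → Bool, ∏ i, (St pos om (pos (i, ca (om i, o i))) *
          (1 + St pos om (pos (i, cb (om i, o i)))))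
        = ∏ i, ∑ β : Bool, (St pos om (pos (i, ca (om i, β))) *
          (1 + St pos om (pos (i, cb (om i, β))))) := by
      rw [Finset.prod_univ_sum, Fintype.piFinset_univ]
    rw [e2]
    refine Finset.prod_congr rfl (fun i _ => ?_)
    have e3 : ∑ β : Bool, (St pos om (pos (i, ca (om i, β))) *
          (1 + St pos om (pos (i, cb (om i, β)))))
        = St pos om (pos (i, om i + 1)) + St pos om (pos (i, om i + 2)) := by
      simp only [Fintype.sum_bool, ca, cb, if_true, Bool.false_eq_true, if_false]
      generalize St pos om (pos (i, om i + 1)) = z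
      generalize St pos om (pos (i, om i + 2)) = z'
      revert z z'; decide
    rw [e3]
    unfold St
    have e4 : ∀ A B : ZMod 2, 1 + A + (1 + B) = A + B := by decide
    rw [e4, ← Finset.sum_add_distrib, Fintype.sum_prod_type]
    refine Finset.sum_congr rfl (fun j _ => ?_)
    have e5 : ∑ q : Fin 3, ((if (pos (j, q)).val < (pos (i, om i + 1)).val then mark om (j, q) else 0)
        + (if (pos (j, q)).val < (pos (i, om i + 2)).val then mark om (j, q) else 0))
        = crs pos i (om i) j (om j) := by
      unfold crs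
      rw [Finset.sum_comm]
      refine Finset.sum_congr rfl (fun q _ => ?_)
      simp only [mark]
      have : ∀ (x : Fin 3) (P : Fin 3 → Prop) [DecidablePred P] (Q : Prop) [Decidable Q],
          ((if P (x + 1) then (if Q then (0 : ZMod 2) else 1) else 0)
            + (if P (x + 2) then (if Q then (0 : ZMod 2) else 1) else 0))
          = ∑ p : Fin 3, if p ≠ x ∧ ¬ Q ∧ P p then 1 else 0 := by
        intro x P _ Q _
        rw [Fin.sum_univ_three]
        fin_cases x <;> by_cases hQ : Q <;> simp [hQ, add_comm]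
      exact this (om i) (fun p => (pos (j, q)).val < (pos (i, p)).val) (q = om j)
    rw [e5]
    unfold gfac
    split_ifs with h
    · subst h
      unfold crs
      have hinj : ∀ p q : Fin 3, p ≠ q → (pos (j, p)).val ≠ (pos (j, q)).val := by
        intro p q hpq h
        exact hpq (by simpa using pos.injective (Fin.ext h))
      have h01 := hinj 0 1 (by decide)
      have h02 := hinj 0 2 (by decide)
      have h12 := hinj 1 2 (by decide)
      generalize om j = x
      simp only [Fin.sum_univ_three]
      fin_cases x <;> simp <;> split_ifs <;> first | rfl | omega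
    · rfl
  · intro i x j y hij
    unfold crs
    rw [Finset.sum_comm (f := fun p q => if p ≠ y ∧ q ≠ x ∧
      (pos (i, q)).val < (pos (j, p)).val then (1 : ZMod 2) else 0)]
    have h4 : ∑ p : Fin 3, ∑ q : Fin 3, (if p ≠ x ∧ q ≠ y then (1 : ZMod 2) else 0) = 0 := by
      revert x y; decide
    have : ∀ A B : ZMod 2, A + B = 0 → A = B := by decide
    apply this
    refine Eq.trans ?_ h4
    rw [← Finset.sum_add_distrib]
    refine Finset.sum_congr rfl (fun p _ => ?_)
    rw [← Finset.sum_add_distrib]
    refine Finset.sum_congr rfl (fun q _ => ?_)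
    have hne : (pos (j, q)).val ≠ (pos (i, p)).val := by
      intro h
      have := pos.injective (Fin.ext h)
      simp only [Prod.mk.injEq] at this
      exact hij this.1.symm
    by_cases h1 : p = x
    · simp [h1]
    by_cases h2 : q = y
    · simp [h2]
    rcases lt_or_gt_of_ne hne with h | h
    · have h' : ¬ (pos (i, p)).val < (pos (j, q)).val := by omega
      rw [if_pos ⟨h1, h2, h⟩, if_neg (fun hh => h' hh.2.2), if_pos ⟨h1, h2⟩, add_zero]
    · have h' : ¬ (pos (j, q)).val < (pos (i, p)).val := by omega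
      rw [if_neg (fun hh => h' hh.2.2), if_pos ⟨h2, h1, h⟩, if_pos ⟨h1, h2⟩, zero_add]
  · intro i j y _
    unfold crs
    rw [Finset.sum_comm]
    refine Finset.sum_eq_zero (fun p _ => ?_)
    rw [Finset.sum_comm]
    refine Finset.sum_eq_zero (fun q _ => ?_)
    by_cases h : q ≠ y ∧ (pos (j, q)).val < (pos (i, p)).val
    · have h3 : ∀ p : Fin 3, (∑ x : Fin 3, if p ≠ x then (1 : ZMod 2) else 0) = 0 := by decide
      refine Eq.trans ?_ (h3 p)
      refine Finset.sum_congr rfl (fun x _ => ?_)
      by_cases hx : p = x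
      · simp [hx]
      · rw [if_pos ⟨hx, h⟩, if_pos hx]
    · refine Finset.sum_eq_zero (fun x _ => ?_)
      rw [if_neg (fun hh => h hh.2)]

theorem path_triangles (pos : ι × Fin 3 ≃ Fin (m + 1)) :
    ∃ col : ι × Fin 3 → Fin 3, (∀ i j k, j ≠ k → col (i, j) ≠ col (i, k)) ∧
      ∀ u v, (pos u).val + 1 = (pos v).val → col u ≠ col v := by
  classical
  let R := Polynomial (ZMod 2)
  have hmap : PP R pos = MvPolynomial.map (algebraMap (ZMod 2) R) (PP (ZMod 2) pos) := by
    simp [PP]
  have hc : coeff (tgt pos) (PP R pos) ≠ 0 := by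
    rw [hmap, coeff_map, coeff_PP]; simp
  have hhom : (PP R pos).IsHomogeneous (∑ _k : Fin m, 1 + ∑ _i : ι, (1 + 1 + 1)) := by
    unfold PP
    refine IsHomogeneous.mul (IsHomogeneous.prod _ _ _ (fun k _ => ?_))
      (IsHomogeneous.prod _ _ _ (fun i _ => ?_))
    · exact (isHomogeneous_X _ _).add (isHomogeneous_X _ _)
    · exact (((isHomogeneous_X _ _).add (isHomogeneous_X _ _)).mul
        ((isHomogeneous_X _ _).add (isHomogeneous_X _ _))).mul
        ((isHomogeneous_X _ _).add (isHomogeneous_X _ _))
  have hdeg : (PP R pos).totalDegree = (tgt pos).degree := by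
    have hne : PP R pos ≠ 0 := fun h => hc (by rw [h]; rfl)
    rw [hhom.totalDegree hne]
    by_contra hd
    exact hc (hhom.coeff_eq_zero (fun h => hd h.symm))
  let S : Finset R := {0, 1, Polynomial.X}
  have hS : S.card = 3 := by
    refine Finset.card_eq_three.2 ⟨0, 1, Polynomial.X, zero_ne_one, Polynomial.X_ne_zero.symm,
      ?_, rfl⟩
    intro h
    have := congrArg Polynomial.natDegree h
    simp at this
  obtain ⟨x, hx, hev⟩ := combinatorial_nullstellensatz_exists_eval_nonzero (PP R pos) (tgt pos)
    hc hdeg (fun _ => S) (by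
      intro v
      simp only [tgt, Finsupp.coe_equivFunOnFinite_symm, hS]
      split_ifs <;> omega)
  let e : S ≃ Fin 3 := Finset.equivFinOfCardEq hS
  have hne : ∀ u v, x u + x v ≠ 0 → e ⟨x u, hx u⟩ ≠ e ⟨x v, hx v⟩ := by
    intro u v h h'
    apply h
    have : x u = x v := congrArg Subtype.val (e.injective h')
    rw [this]; exact CharTwo.add_self_eq_zero _
  unfold PP at hev
  simp only [map_mul, map_prod, map_add, eval_X] at hev
  rw [mul_ne_zero_iff, Finset.prod_ne_zero_iff, Finset.prod_ne_zero_iff] at hev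
  refine ⟨fun v => e ⟨x v, hx v⟩, ?_, ?_⟩
  · intro i j k hjk
    have hh := hev.2 i (mem_univ _)
    rw [mul_ne_zero_iff, mul_ne_zero_iff] at hh
    obtain ⟨⟨h1, h2⟩, h3⟩ := hh
    have g1 := hne _ _ h1
    have g2 := hne _ _ h2
    have g3 := hne _ _ h3
    fin_cases j <;> fin_cases k <;>
      first
        | exact absurd rfl hjk
        | exact g1
        | exact g2
        | exact g3
        | exact g1.symm
        | exact g2.symm
        | exact g3.symm
  · intro u v huv
    have hv := (pos v).isLt
    have h := hev.1 ⟨(pos u).val, by omega⟩ (mem_univ _)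
    have e1 : pos.symm (Fin.succ (⟨(pos u).val, by omega⟩ : Fin m)) = v := by
      rw [Equiv.symm_apply_eq]; ext; simpa using huv
    have e2 : pos.symm (Fin.castSucc (⟨(pos u).val, by omega⟩ : Fin m)) = u := by
      rw [Equiv.symm_apply_eq]; ext; simp
    rw [e1, e2] at h
    exact (hne _ _ h).symm

end FS

end Pool.Agent.P.MP_e0c710_co
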