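import Mathlib
import Pool.Agent.P.MP_e0c710_co.FS

set_option autoImplicit false
set_option linter.unusedSectionVars false

namespace Pool.Agent.P.MP_e0c710_co

open Finset

/-- every class of `f` has at most three elements -/
def Le3 {V L : Type} (f : V → L) : Prop :=
  ∀ x y z w, f y = f x → f z = f x → f w = f x →
    x = y ∨ x = z ∨ x = w ∨ y = z ∨ y = w ∨ z = w

/-- every class of `f` has exactly three elements -/
def Tri {V L : Type} (f : V → L) : Prop :=
  Le3 f ∧ ∀ x, ∃ y z, f y = f x ∧ f z = f x ∧ y ≠ x ∧ z ≠ x ∧ y ≠ z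

lemma le3_iff {V L : Type} [Fintype V] [DecidableEq V] [DecidableEq L] (f : V → L) :
    Le3 f ↔ ∀ x, (univ.filter (fun y => f y = f x)).card ≤ 3 := by
  constructor
  · intro h x
    by_contra hc
    obtain ⟨p, hp, q, hq, r, hr, s, hs, h1, h2, h3, h4, h5, h6⟩ :=
      Finset.three_lt_card.1 (not_le.1 hc)
    simp only [mem_filter, mem_univ, true_and] at hp hq hr hs
    rcases h p q r s (hq.trans hp.symm) (hr.trans hp.symm) (hs.trans hp.symm) with
      e | e | e | e | e | e <;> contradiction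
  · intro h x y z w hy hz hw
    by_contra hc
    push Not at hc
    obtain ⟨h1, h2, h3, h4, h5, h6⟩ := hc
    have : 3 < (univ.filter (fun y => f y = f x)).card :=
      Finset.three_lt_card.2 ⟨x, by simp, y, by simp [hy], z, by simp [hz], w, by simp [hw],
        h1, h2, h3, h4, h5, h6⟩
    exact absurd (h x) (by omega)

lemma perm_closed {V : Type} [Finite V] (f : Equiv.Perm V) (Q : V → Prop)
    (hQ : ∀ w, Q w → Q (f w)) {x y : V} (hx : Q x) (h : f.SameCycle x y) : Q y := by
  obtain ⟨n, -, rfl⟩ := h.exists_pow_eq'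
  clear h
  induction n with
  | zero => simpa using hx
  | succ n ih => rw [pow_succ', Equiv.Perm.mul_apply]; exact hQ _ ih

lemma two_invol {U : Type} [Finite U] (σ τ : Equiv.Perm U) (hσ : σ * σ = 1) (hτ : τ * τ = 1)
    (fσ : ∀ x, σ x ≠ x) (fτ : ∀ x, τ x ≠ x) :
    ∃ φ : U → Bool, ∀ x, φ (σ x) ≠ φ x ∧ φ (τ x) ≠ φ x := by
  classical
  have := Fintype.ofFinite U
  set ρ := σ * τ with hρ
  have h1 : ρ * σ * ρ = σ := by
    rw [hρ]
    calc σ * τ * σ * (σ * τ) = σ * τ * (σ * σ) * τ := by group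
      _ = σ * (τ * τ) := by rw [hσ]; group
      _ = σ := by rw [hτ, mul_one]
  have h2 : ∀ j : ℕ, ρ ^ j * σ * ρ ^ j = σ := by
    intro j
    induction j with
    | zero => simp
    | succ j ih =>
      calc ρ ^ (j + 1) * σ * ρ ^ (j + 1) = ρ ^ j * (ρ * σ * ρ) * ρ ^ j := by
            nth_rewrite 1 [pow_succ]
            rw [pow_succ']; simp only [mul_assoc]
        _ = σ := by rw [h1, ih]
  have hns : ∀ x, ¬ ρ.SameCycle x (σ x) := by
    intro x hx
    obtain ⟨k, -, hk⟩ := hx.exists_pow_eq'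
    obtain ⟨j, hj | hj⟩ := Nat.even_or_odd' k
    · have e : (ρ ^ j) ((ρ ^ j) x) = (ρ ^ j) (σ ((ρ ^ j) x)) := by
        rw [← Equiv.Perm.mul_apply, ← pow_add, ← two_mul, ← hj, hk]
        conv_lhs => rw [← h2 j]
        rfl
      exact fσ _ ((ρ ^ j).injective e).symm
    · have e : (ρ ^ j) (σ (τ ((ρ ^ j) x))) = (ρ ^ j) (σ ((ρ ^ j) x)) := by
        have e1 : (ρ ^ j) (σ (τ ((ρ ^ j) x))) = (ρ ^ k) x := by
          rw [hj, two_mul, add_right_comm, pow_add, pow_succ]
          rfl
        rw [e1, hk]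
        conv_lhs => rw [← h2 j]
        rfl
      exact fτ _ (σ.injective ((ρ ^ j).injective e))
  let sd := Equiv.Perm.SameCycle.setoid ρ
  let mm : U → Fin (Fintype.card U) := fun x => Fintype.equivFin U (Quotient.mk sd x).out
  have hm : ∀ x y, mm x = mm y ↔ ρ.SameCycle x y := by
    intro x y
    simp only [mm, EmbeddingLike.apply_eq_iff_eq, Quotient.out_inj, Quotient.eq]
    rfl
  have hσσ : ∀ x, σ (σ x) = x := fun x => by rw [← Equiv.Perm.mul_apply, hσ]; rfl
  have hττ : ∀ x, τ (τ x) = x := fun x => by rw [← Equiv.Perm.mul_apply, hτ]; rfl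
  refine ⟨fun x => decide (mm x < mm (σ x)), fun x => ?_⟩
  have hne : mm x ≠ mm (σ x) := fun h => hns x ((hm _ _).1 h)
  have e1 : mm (τ x) = mm (σ x) := by
    rw [hm]
    exact ⟨1, by simp [hρ, hττ]⟩
  have e2 : mm (σ (τ x)) = mm x := by
    rw [eq_comm, hm]
    exact ⟨1, by simp [hρ]⟩
  simp only [hσσ, e1, e2, ne_eq, decide_eq_decide]
  rcases lt_or_gt_of_ne hne with h | h
  · simp [h, not_lt.2 h.le]
  · simp [h, not_lt.2 h.le]

/-- a matching -/
def Mat {V : Type} (M : V → V → Prop) : Prop :=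
  (∀ x y, M x y → M y x) ∧ (∀ x, ¬ M x x) ∧ ∀ x y z, M x y → M x z → y = z

lemma Mat.invol {V : Type} {M : V → V → Prop} (h : Mat M) :
    ∃ σ : Equiv.Perm (V × Bool), σ * σ = 1 ∧ (∀ p, σ p ≠ p) ∧
      ∀ x y e, M x y → σ (x, e) = (y, e) := by
  classical
  let s : V × Bool → V × Bool := fun p =>
    if hp : ∃ y, M p.1 y then (hp.choose, p.2) else (p.1, !p.2)
  have hs : ∀ x y e, M x y → s (x, e) = (y, e) := by
    intro x y e hxy
    have hp : ∃ y, M x y := ⟨y, hxy⟩
    simp only [s, dif_pos hp]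
    rw [h.2.2 x _ y hp.choose_spec hxy]
  have hs' : ∀ x e, (¬ ∃ y, M x y) → s (x, e) = (x, !e) := by
    intro x e hx
    simp only [s, dif_neg hx]
  have hinv : Function.Involutive s := by
    rintro ⟨x, e⟩
    by_cases hx : ∃ y, M x y
    · obtain ⟨y, hy⟩ := hx
      rw [hs x y e hy, hs y x e (h.1 _ _ hy)]
    · rw [hs' x e hx, hs' x _ hx]; simp
  refine ⟨hinv.toPerm s, ?_, ?_, hs⟩
  · ext1 p; exact hinv p
  · rintro ⟨x, e⟩
    show s (x, e) ≠ (x, e)
    by_cases hx : ∃ y, M x y
    · obtain ⟨y, hy⟩ := hx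
      rw [hs x y e hy]
      intro he
      have : y = x := congrArg Prod.fst he
      exact h.2.1 x (this ▸ hy)
    · rw [hs' x e hx]; simp

theorem two_match {V : Type} [Finite V] {M N : V → V → Prop} (hM : Mat M) (hN : Mat N) :
    ∃ φ : V → Bool, ∀ x y, M x y ∨ N x y → φ x ≠ φ y := by
  obtain ⟨σ, h1, h2, h3⟩ := hM.invol
  obtain ⟨τ, k1, k2, k3⟩ := hN.invol
  obtain ⟨φ, hφ⟩ := two_invol σ τ h1 k1 h2 k2
  refine ⟨fun x => φ (x, false), fun x y h => ?_⟩
  rcases h with h | h
  · have := (hφ (x, false)).1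
    rw [h3 x y _ h] at this
    exact this.symm
  · have := (hφ (x, false)).2
    rw [k3 x y _ h] at this
    exact this.symm

theorem lin_order {V : Type} [DecidableEq V] (E : V → V → Prop) (hsym : ∀ x y, E x y → E y x)
    (hirr : ∀ x, ¬ E x x) (W : Finset V)
    (hdeg : ∀ x ∈ W, ∀ y ∈ W, ∀ z ∈ W, ∀ w ∈ W, E x y → E x z → E x w → y = z ∨ y = w ∨ z = w)
    (hdgn : ∀ T ⊆ W, T.Nonempty → ∃ v ∈ T, ∀ x ∈ T, ∀ y ∈ T, E v x → E v y → x = y) (n : ℕ) :
    ∀ T ⊆ W, T.card = n → ∃ pos : V → ℕ, Set.InjOn pos T ∧ (∀ v ∈ T, pos v < n) ∧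
      ∀ u ∈ T, ∀ v ∈ T, E u v → pos u + 1 = pos v ∨ pos v + 1 = pos u := by
  classical
  induction n with
  | zero =>
    intro T _ hT
    rw [card_eq_zero] at hT
    subst hT
    exact ⟨fun _ => 0, by simp, by simp, by simp⟩
  | succ n ih =>
    intro T hTW hT
    obtain ⟨v, hv, hv1⟩ := hdgn T hTW (card_pos.1 (by omega))
    obtain ⟨p, hp1, hp2, hp3⟩ := ih (T.erase v) ((erase_subset _ _).trans hTW)
      (by rw [card_erase_of_mem hv]; omega)
    have key : ∀ k ≤ n, (∀ x ∈ T.erase v, ∀ y ∈ T.erase v, E x y → p x + 1 = p y → p y ≠ k) →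
        (∀ u ∈ T.erase v, E v u → p u = k ∨ p u + 1 = k) →
        ∃ pos : V → ℕ, Set.InjOn pos T ∧ (∀ v ∈ T, pos v < n + 1) ∧
          ∀ u ∈ T, ∀ v ∈ T, E u v → pos u + 1 = pos v ∨ pos v + 1 = pos u := by
      intro k hk h1 h2
      refine ⟨fun x => if x = v then k else if k ≤ p x then p x + 1 else p x, ?_, ?_, ?_⟩
      · intro x hx y hy hxy
        by_cases hxv : x = v <;> by_cases hyv : y = v
        · rw [hxv, hyv]
        · simp only [if_pos hxv, if_neg hyv] at hxy
          split_ifs at hxy <;> omega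
        · simp only [if_neg hxv, if_pos hyv] at hxy
          split_ifs at hxy <;> omega
        · simp only [if_neg hxv, if_neg hyv] at hxy
          apply hp1 (mem_erase.2 ⟨hxv, hx⟩) (mem_erase.2 ⟨hyv, hy⟩)
          split_ifs at hxy <;> omega
      · intro x hx
        by_cases hxv : x = v
        · simp only [if_pos hxv]; omega
        · simp only [if_neg hxv]
          have := hp2 x (mem_erase.2 ⟨hxv, hx⟩)
          split_ifs <;> omega
      · intro x hx y hy hxy
        by_cases hxv : x = v <;> by_cases hyv : y = v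
        · rw [hxv, hyv] at hxy; exact absurd hxy (hirr _)
        · simp only [if_pos hxv, if_neg hyv]
          have := h2 y (mem_erase.2 ⟨hyv, hy⟩) (hxv ▸ hxy)
          split_ifs <;> omega
        · simp only [if_neg hxv, if_pos hyv]
          have := h2 x (mem_erase.2 ⟨hxv, hx⟩) (hsym _ _ (hyv ▸ hxy))
          split_ifs <;> omega
        · simp only [if_neg hxv, if_neg hyv]
          have hx' := mem_erase.2 ⟨hxv, hx⟩
          have hy' := mem_erase.2 ⟨hyv, hy⟩
          have a1 := hp3 x hx' y hy' hxy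
          have a2 := h1 x hx' y hy' hxy
          have a3 := h1 y hy' x hx' (hsym _ _ hxy)
          split_ifs <;> omega
    by_cases hu : ∃ u ∈ T.erase v, E v u
    · obtain ⟨u, hu, hvu⟩ := hu
      have huT := mem_of_mem_erase hu
      have huniq : ∀ x ∈ T.erase v, E v x → x = u :=
        fun x hx hvx => hv1 x (mem_of_mem_erase hx) u huT hvx hvu
      have hu2 : ∀ x ∈ T.erase v, ∀ y ∈ T.erase v, E u x → E u y → x = y := by
        intro x hx y hy h1 h2
        rcases hdeg u (hTW huT) v (hTW hv) x (hTW (mem_of_mem_erase hx)) y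
          (hTW (mem_of_mem_erase hy)) (hsym _ _ hvu) h1 h2 with e | e | e
        · exact absurd e.symm (ne_of_mem_erase hx)
        · exact absurd e.symm (ne_of_mem_erase hy)
        · exact e
      by_cases hw : ∃ w ∈ T.erase v, E u w ∧ p u + 1 = p w
      · obtain ⟨w, hw, huw, hpw⟩ := hw
        refine key (p u) (hp2 u hu).le ?_ (fun x hx hvx => Or.inl (by rw [huniq x hx hvx]))
        intro x hx y hy hxy hp he
        have : y = u := hp1 hy hu he
        subst this
        have := hu2 x hx w hw (hsym _ _ hxy) huw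
        subst this
        omega
      · refine key (p u + 1) (hp2 u hu) ?_ (fun x hx hvx => Or.inr (by rw [huniq x hx hvx]))
        intro x hx y hy hxy hp he
        have : x = u := hp1 hx hu (by omega)
        subst this
        exact hw ⟨y, hy, hxy, hp⟩
    · refine key n le_rfl (fun x _ y hy _ _ => (hp2 y hy).ne) ?_
      intro u hu' hvu
      exact absurd ⟨u, hu', hvu⟩ hu

lemma exists_idx {V L : Type} [Fintype V] [DecidableEq V] [DecidableEq L] (f : V → L) :
    ∃ idx : V → ℕ, (∀ v, idx v < (univ.filter (fun y => f y = f v)).card) ∧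
      (∀ u v, f u = f v → idx u = idx v → u = v) ∧
      ∀ v k, k < (univ.filter (fun y => f y = f v)).card → ∃ u, f u = f v ∧ idx u = k := by
  let F : L → Finset V := fun l => univ.filter (fun y => f y = l)
  let g : L → V → ℕ := fun l v => if h : v ∈ F l then ((F l).equivFin ⟨v, h⟩).val else 0
  have hF : ∀ v l, f v = l → v ∈ F l := fun v l h => by simp [F, h]
  refine ⟨fun v => g (f v) v, ?_, ?_, ?_⟩
  · intro v
    simp only [g, dif_pos (hF v _ rfl)]
    exact Fin.isLt _
  · intro u v huv h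
    simp only [huv, g, dif_pos (hF u _ huv), dif_pos (hF v _ rfl)] at h
    have := (F (f v)).equivFin.injective (Fin.ext h)
    exact congrArg Subtype.val this
  · intro v k hk
    let u := (F (f v)).equivFin.symm ⟨k, hk⟩
    have hu : f u = f v := (mem_filter.1 u.2).2
    refine ⟨u, hu, ?_⟩
    simp only [hu, g, dif_pos u.2]
    simp [u]

theorem three_col {V L : Type} [Fintype V] [DecidableEq V] (c : V → L) (hc : Le3 c)
    (E : V → V → Prop) (hsym : ∀ x y, E x y → E y x) (hirr : ∀ x, ¬ E x x) (W : Finset V)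
    (hdeg : ∀ x ∈ W, ∀ y ∈ W, ∀ z ∈ W, ∀ w ∈ W, E x y → E x z → E x w → y = z ∨ y = w ∨ z = w)
    (hdgn : ∀ T ⊆ W, T.Nonempty → ∃ v ∈ T, ∀ x ∈ T, ∀ y ∈ T, E v x → E v y → x = y) :
    ∃ col : V → Fin 3, ∀ u ∈ W, ∀ v ∈ W, u ≠ v → (E u v ∨ c u = c v) → col u ≠ col v := by
  classical
  rcases W.eq_empty_or_nonempty with rfl | ⟨v0, hv0⟩
  · exact ⟨fun _ => 0, by simp⟩
  have : Nonempty V := ⟨v0⟩
  obtain ⟨p, hp1, hp2, hp3⟩ := lin_order E hsym hirr W hdeg hdgn _ W subset_rfl rfl
  obtain ⟨idx, hi1, hi2, -⟩ := exists_idx c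
  have hi3 : ∀ v, idx v < 3 := fun v => lt_of_lt_of_le (hi1 v) ((le3_iff c).1 hc v)
  let rep : V → V := fun v => Function.invFun c (c v)
  have hrep : ∀ v, c (rep v) = c v := fun v => Function.invFun_eq ⟨v, rfl⟩
  let e : V → V × Fin 3 := fun v => (rep v, ⟨idx v, hi3 v⟩)
  have he : Function.Injective e := by
    intro u v h
    simp only [e, Prod.mk.injEq, Fin.mk.injEq] at h
    exact hi2 u v (by rw [← hrep u, h.1, hrep]) h.2
  obtain ⟨m, hm⟩ : ∃ m, Fintype.card (V × Fin 3) = m + 1 :=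
    Nat.exists_eq_succ_of_ne_zero Fintype.card_ne_zero
  have hWm : W.card ≤ m + 1 := by
    rw [← hm]
    have := card_le_univ W
    simp only [Fintype.card_prod, Fintype.card_fin]
    omega
  let q : V × Fin 3 → ℕ := fun x => p (Function.invFun e x)
  have hq : ∀ v, q (e v) = p v := fun v => by
    simp only [q, Function.leftInverse_invFun he v]
  obtain ⟨g, hg⟩ := Finset.exists_equiv_extend_of_card_eq (t := range (m + 1))
    (s := W.image e) (f := q) (by rw [hm, card_range]) (by
      intro k hk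
      simp only [mem_image] at hk
      obtain ⟨x, ⟨v, hv, rfl⟩, rfl⟩ := hk
      rw [hq, mem_range]
      exact lt_of_lt_of_le (hp2 v hv) hWm) (by
      intro x hx y hy hxy
      simp only [coe_image, Set.mem_image, mem_coe] at hx hy
      obtain ⟨u, hu, rfl⟩ := hx
      obtain ⟨v, hv, rfl⟩ := hy
      rw [hq, hq] at hxy
      rw [hp1 hu hv hxy])
  let r : (range (m + 1) : Finset ℕ) ≃ Fin (m + 1) :=
    { toFun := fun k => ⟨k.1, mem_range.1 k.2⟩
      invFun := fun k => ⟨k.1, mem_range.2 k.2⟩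
      left_inv := fun _ => rfl
      right_inv := fun _ => rfl }
  obtain ⟨col, h1, h2⟩ := path_triangles (g.trans r)
  have hpos : ∀ v ∈ W, ((g.trans r) (e v)).val = p v := by
    intro v hv
    rw [← hq, ← hg (e v) (mem_image_of_mem _ hv)]
    rfl
  refine ⟨fun v => col (e v), fun u hu v hv huv h => ?_⟩
  rcases h with h | h
  · rcases hp3 u hu v hv h with h | h
    · exact h2 _ _ (by rw [hpos u hu, hpos v hv, h])
    · exact (h2 _ _ (by rw [hpos u hu, hpos v hv, h])).symm
  · have hr : rep u = rep v := by simp only [rep, h]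
    simp only [e, hr]
    refine h1 _ _ _ (fun hh => huv (hi2 u v h ?_))
    simpa using hh

lemma exists_kernel {V I : Type} [DecidableEq V] [DecidableEq I] (W : Finset V) (E : Finset I)
    (inc : I → V → Prop) [∀ e, DecidablePred (inc e)] (h : E.card < W.card) :
    ∃ w : V → ℚ, (∃ v ∈ W, w v ≠ 0) ∧ ∀ e ∈ E, ∑ v ∈ W.filter (inc e), w v = 0 := by
  let Φ : (W → ℚ) →ₗ[ℚ] (E → ℚ) :=
    { toFun := fun w e => ∑ v : W, if inc e v then w v else 0
      map_add' := by
        intro x y; funext e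
        simp only [Pi.add_apply, ← Finset.sum_add_distrib]
        refine Finset.sum_congr rfl (fun v _ => ?_)
        split_ifs <;> simp
      map_smul' := by
        intro k x; funext e
        simp only [Pi.smul_apply, smul_eq_mul, RingHom.id_apply, Finset.mul_sum]
        refine Finset.sum_congr rfl (fun v _ => ?_)
        split_ifs <;> simp }
  have hk : LinearMap.ker Φ ≠ ⊥ := LinearMap.ker_ne_bot_of_finrank_lt (by simpa using h)
  obtain ⟨x, hx, hx0⟩ := Submodule.exists_mem_ne_zero_of_ne_bot hk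
  refine ⟨fun v => if hv : v ∈ W then x ⟨v, hv⟩ else 0, ?_, ?_⟩
  · obtain ⟨v, hv⟩ := Function.ne_iff.1 hx0
    exact ⟨v, v.2, by simpa using hv⟩
  · intro e he
    have := congrFun (LinearMap.mem_ker.1 hx) ⟨e, he⟩
    simp only [Φ, LinearMap.coe_mk, AddHom.coe_mk, Pi.zero_apply] at this
    rw [Finset.sum_filter, ← Finset.sum_coe_sort W]
    simpa using this

lemma full_count {V L : Type} [DecidableEq V] [DecidableEq L] (f : V → L) (W : Finset V)
    (E : Finset L) (hE : ∀ l ∈ E, (W.filter (fun v => f v = l)).card = 3) :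
    3 * E.card = (W.filter (fun v => f v ∈ E)).card := by
  rw [card_eq_sum_card_fiberwise (f := f) (t := E) (s := W.filter (fun v => f v ∈ E))
    (fun v hv => (mem_filter.1 (mem_coe.1 hv)).2), mul_comm, ← smul_eq_mul, ← Finset.sum_const]
  refine Finset.sum_congr rfl (fun l hl => ?_)
  rw [← hE l hl, filter_filter]
  congr 1
  ext v
  simp only [mem_filter, and_congr_right_iff, iff_and_self]
  rintro - rfl
  exact hl

lemma seymour_aux {V L : Type} [DecidableEq V] [DecidableEq L] (a b c : V → L) (W : Finset V)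
    (v0 : V) (hv0 : v0 ∈ W) : ∃ w : V → ℚ, (∃ v ∈ W, w v ≠ 0) ∧
      (∀ l, l ≠ a v0 → (W.filter (fun v => a v = l)).card = 3 →
        ∑ v ∈ W.filter (fun v => a v = l), w v = 0) ∧
      (∀ l, (W.filter (fun v => b v = l)).card = 3 → ∑ v ∈ W.filter (fun v => b v = l), w v = 0) ∧
      (∀ l, (W.filter (fun v => c v = l)).card = 3 → ∑ v ∈ W.filter (fun v => c v = l), w v = 0) := by
  let full : (V → L) → Finset L := fun f =>
    (W.image f).filter (fun l => (W.filter (fun v => f v = l)).card = 3)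
  have hfull : ∀ f l, (W.filter (fun v => f v = l)).card = 3 → l ∈ full f := by
    intro f l h
    obtain ⟨v, hv⟩ : (W.filter (fun v => f v = l)).Nonempty := card_pos.1 (by omega)
    exact mem_filter.2 ⟨mem_image.2 ⟨v, (mem_filter.1 hv).1, (mem_filter.1 hv).2⟩, h⟩
  have hle : ∀ f, 3 * (full f).card ≤ W.card := by
    intro f
    rw [full_count f W _ (fun l hl => (mem_filter.1 hl).2)]
    exact card_filter_le _ _
  have hlt : 3 * ((full a).erase (a v0)).card < W.card := by
    rw [full_count a W _ (fun l hl => (mem_filter.1 (mem_of_mem_erase hl)).2)]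
    exact card_lt_card (filter_ssubset.2 ⟨v0, hv0, by simp⟩)
  classical
  obtain ⟨w, hw0, hw⟩ := exists_kernel W
    (((full a).erase (a v0)).disjSum ((full b).disjSum (full c)))
    (fun e v => Sum.elim (fun l => a v = l) (Sum.elim (fun l => b v = l) (fun l => c v = l)) e)
    (by
      simp only [card_disjSum]
      have := hle b
      have := hle c
      omega)
  refine ⟨w, hw0, fun l h1 h2 => ?_, fun l h => ?_, fun l h => ?_⟩
  · have := hw (Sum.inl l) (by simp [h1, hfull a l h2])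
    convert this
    exact Iff.rfl
  · have := hw (Sum.inr (Sum.inl l)) (by simp [hfull b l h])
    convert this
    exact Iff.rfl
  · have := hw (Sum.inr (Sum.inr l)) (by simp [hfull c l h])
    convert this
    exact Iff.rfl

lemma seymour_vec {V L : Type} [DecidableEq V] [DecidableEq L] (a b c : V → L) (W : Finset V)
    (hW : W.Nonempty) : ∃ w : V → ℚ, (∃ v ∈ W, w v ≠ 0) ∧
      (∀ l, (W.filter (fun v => a v = l)).card = 3 → ∑ v ∈ W.filter (fun v => a v = l), w v = 0) ∧
      (∀ l, (W.filter (fun v => b v = l)).card = 3 → ∑ v ∈ W.filter (fun v => b v = l), w v = 0) ∧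
      (∀ l, (W.filter (fun v => c v = l)).card = 3 → ∑ v ∈ W.filter (fun v => c v = l), w v = 0) := by
  by_cases h1 : ∃ v ∈ W, (W.filter (fun u => a u = a v)).card ≠ 3
  · obtain ⟨v, hv, h⟩ := h1
    obtain ⟨w, w0, wa, wb, wc⟩ := seymour_aux a b c W v hv
    exact ⟨w, w0, fun l hl => wa l (fun e => h (e ▸ hl)) hl, wb, wc⟩
  by_cases h2 : ∃ v ∈ W, (W.filter (fun u => b u = b v)).card ≠ 3
  · obtain ⟨v, hv, h⟩ := h2
    obtain ⟨w, w0, wb, wa, wc⟩ := seymour_aux b a c W v hv
    exact ⟨w, w0, wa, fun l hl => wb l (fun e => h (e ▸ hl)) hl, wc⟩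
  push Not at h1 h2
  obtain ⟨v0, hv0⟩ := hW
  obtain ⟨w, w0, wa, wb, wc⟩ := seymour_aux a b c W v0 hv0
  refine ⟨w, w0, fun l hl => ?_, wb, wc⟩
  by_cases e : l = a v0
  · have t1 : ∑ v ∈ W, w v = 0 := by
      rw [← Finset.sum_fiberwise_of_maps_to (g := b) (t := W.image b)
        (fun v hv => mem_image_of_mem _ hv)]
      refine Finset.sum_eq_zero (fun k hk => ?_)
      obtain ⟨v, hv, rfl⟩ := mem_image.1 hk
      exact wb _ (h2 v hv)
    rw [← Finset.sum_fiberwise_of_maps_to (g := a) (t := W.image a)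
        (fun v hv => mem_image_of_mem _ hv), Finset.sum_eq_single l] at t1
    · exact t1
    · intro k hk hkl
      obtain ⟨v, hv, rfl⟩ := mem_image.1 hk
      exact wa _ (e ▸ hkl) (h1 v hv)
    · intro h
      exact absurd (e ▸ mem_image_of_mem _ hv0) h
  · exact wa l e hl

/-- no class of `f` inside `W` is monochromatic with three elements -/
def Split {V L : Type} (f : V → L) (W : Finset V) (T : V → Bool) : Prop :=
  ∀ x ∈ W, ∀ y ∈ W, ∀ z ∈ W, f y = f x → f z = f x → x ≠ y → x ≠ z → y ≠ z →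
    ¬ (T y = T x ∧ T z = T x)

lemma split_step {V L : Type} [DecidableEq V] [DecidableEq L] (f : V → L) (hf : Le3 f)
    (W : Finset V) (w : V → ℚ) (T : V → Bool)
    (hw : ∀ l, (W.filter (fun v => f v = l)).card = 3 → ∑ v ∈ W.filter (fun v => f v = l), w v = 0)
    (hT : Split f (W.filter (fun v => w v = 0)) T) :
    Split f W (fun v => if w v = 0 then T v else decide (0 < w v)) := by
  intro x hx y hy z hz e1 e2 n1 n2 n3
  have hF : W.filter (fun v => f v = f x) = {x, y, z} := by
    ext v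
    simp only [mem_filter, mem_insert, mem_singleton]
    constructor
    · rintro ⟨-, h⟩
      rcases hf x y z v e1 e2 h with e | e | e | e | e | e <;> simp_all
    · rintro (rfl | rfl | rfl) <;> simp [*]
  have hs := hw (f x) (by rw [hF]; exact card_eq_three.2 ⟨x, y, z, n1, n2, n3, rfl⟩)
  rw [hF, sum_insert (by simp [n1, n2]), sum_pair n3] at hs
  by_cases h0 : w x = 0 ∧ w y = 0 ∧ w z = 0
  · simp only [h0, if_true]
    exact hT x (mem_filter.2 ⟨hx, h0.1⟩) y (mem_filter.2 ⟨hy, h0.2.1⟩) z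
      (mem_filter.2 ⟨hz, h0.2.2⟩) e1 e2 n1 n2 n3
  · rintro ⟨k1, k2⟩
    have key : ∀ p q, 0 < w p → w q < 0 → (if w p = 0 then T p else decide (0 < w p)) ≠
        (if w q = 0 then T q else decide (0 < w q)) := by
      intro p q hp hq
      rw [if_neg hp.ne', if_neg hq.ne]
      simp [hp, not_lt.2 hq.le]
    have k3 := k1.trans k2.symm
    rcases lt_trichotomy (w x) 0 with a1 | a1 | a1 <;>
    rcases lt_trichotomy (w y) 0 with a2 | a2 | a2 <;>
    rcases lt_trichotomy (w z) 0 with a3 | a3 | a3 <;>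
    first
      | (exfalso; linarith)
      | exact h0 ⟨a1, a2, a3⟩
      | exact key _ _ a1 a2 k1.symm
      | exact key _ _ a2 a1 k1
      | exact key _ _ a1 a3 k2.symm
      | exact key _ _ a3 a1 k2
      | exact key _ _ a2 a3 k3
      | exact key _ _ a3 a2 k3.symm

theorem seymour {V L : Type} [DecidableEq V] (a b c : V → L) (ha : Le3 a) (hb : Le3 b)
    (hc : Le3 c) (n : ℕ) : ∀ W : Finset V, W.card = n →
      ∃ T : V → Bool, Split a W T ∧ Split b W T ∧ Split c W T := by
  classical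
  induction n using Nat.strong_induction_on with
  | _ n ih =>
  intro W hW
  rcases W.eq_empty_or_nonempty with rfl | hne
  · exact ⟨fun _ => true, by simp [Split], by simp [Split], by simp [Split]⟩
  obtain ⟨w, ⟨v, hv, hv0⟩, wa, wb, wc⟩ := seymour_vec a b c W hne
  obtain ⟨T, ta, tb, tc⟩ := ih _ (hW ▸ card_lt_card (filter_ssubset.2 ⟨v, hv, hv0⟩))
    (W.filter (fun v => w v = 0)) rfl
  exact ⟨_, split_step a ha W w T wa ta, split_step b hb W w T wb tb, split_step c hc W w T wc tc⟩

end Pool.Agent.P.MP_e0c710_co
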