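import Mathlib
import Pool.Agent.P.MP_e0c710_co.Basic

set_option autoImplicit false
set_option linter.unusedSectionVars false

namespace Pool.Agent.P.MP_e0c710_co

open Finset

variable {V L : Type} [Fintype V] [DecidableEq V]

/-- `S` meets every class of `f` -/
def Cover (f : V → L) (S : Finset V) : Prop := ∀ v, ∃ s ∈ S, f s = f v

/-- adjacency in the first two colours -/
def Adj (a b : V → L) (x y : V) : Prop := x ≠ y ∧ (a x = a y ∨ b x = b y)

/-- the first two colours induce a matching on `S` -/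
def MAB (a b : V → L) (S : Finset V) : Prop :=
  ∀ x ∈ S, ∀ y ∈ S, ∀ z ∈ S, Adj a b x y → Adj a b x z → y = z

/-- the third colour induces a matching on `S` -/
def MC (c : V → L) (S : Finset V) : Prop :=
  ∀ x ∈ S, ∀ y ∈ S, ∀ z ∈ S, c y = c x → c z = c x → x = y ∨ x = z ∨ y = z

/-- admissible sets -/
structure Adm (a b c : V → L) (S : Finset V) : Prop where
  ca : Cover a S
  cb : Cover b S
  ab : MAB a b S
  mc : MC c S

/-- unions of alternating cycles -/
def Closed (a b : V → L) (Z : Finset V) : Prop :=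
  ∀ v ∈ Z, (∃ u ∈ Z, u ≠ v ∧ a u = a v) ∧ (∃ u ∈ Z, u ≠ v ∧ b u = b v)

open Classical in
/-- number of closed sets avoiding `T` -/
noncomputable def NN (a b : V → L) (T : Finset V) : ℕ :=
  (univ.filter (fun Z : Finset V => Closed a b Z ∧ Disjoint Z T)).card

lemma Adj.symm {a b : V → L} {x y : V} (h : Adj a b x y) : Adj a b y x :=
  ⟨h.1.symm, h.2.imp Eq.symm Eq.symm⟩

lemma Adj.swap {a b : V → L} {x y : V} (h : Adj a b x y) : Adj b a x y := ⟨h.1, h.2.symm⟩

lemma Adm.swap {a b c : V → L} {S : Finset V} (h : Adm a b c S) : Adm b a c S :=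
  ⟨h.cb, h.ca, fun x hx y hy z hz h1 h2 => h.ab x hx y hy z hz h1.swap h2.swap, h.mc⟩

lemma Closed.swap {a b : V → L} {Z : Finset V} (h : Closed a b Z) : Closed b a Z :=
  fun v hv => (h v hv).symm

lemma NN_le {a b : V → L} {T T' : Finset V}
    (h : ∀ Z, Closed a b Z → Disjoint Z T → Disjoint Z T') : NN a b T ≤ NN a b T' := by
  classical
  unfold NN
  refine card_le_card (fun Z hZ => ?_)
  simp only [mem_filter, mem_univ, true_and] at hZ ⊢
  exact ⟨hZ.1, h Z hZ.1 hZ.2⟩

lemma NN_pos (a b : V → L) (T : Finset V) : 0 < NN a b T := by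
  classical
  unfold NN
  exact card_pos.2 ⟨∅, by simp [Closed]⟩

lemma NN_swap (a b : V → L) (T : Finset V) : NN b a T = NN a b T := by
  classical
  unfold NN
  congr 1
  ext Z
  simp only [mem_filter, mem_univ, true_and]
  exact ⟨fun h => ⟨h.1.swap, h.2⟩, fun h => ⟨h.1.swap, h.2⟩⟩

/-- the mate outside `S` and the mate inside `S` -/
structure Side (f : V → L) (S : Finset V) (A s : V → V) : Prop where
  le3 : Le3 f
  inv : ∀ v, A (A v) = v
  lab : ∀ v, f (A v) = f v
  nS : ∀ v, A v ≠ v → v ∉ S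
  eq : ∀ u v, v ∉ S → u ∉ S → u ≠ v → f u = f v → A v = u
  sS : ∀ v, s v ∈ S
  sl : ∀ v, f (s v) = f v

lemma exists_side {f : V → L} {S : Finset V} (hf : Le3 f) (hS : Cover f S) :
    ∃ A s : V → V, Side f S A s := by
  classical
  choose s hs1 hs2 using hS
  let A : V → V := fun v =>
    if h : v ∉ S ∧ ∃ u, u ∉ S ∧ u ≠ v ∧ f u = f v then h.2.choose else v
  have heq : ∀ u v, v ∉ S → u ∉ S → u ≠ v → f u = f v → A v = u := by
    intro u v hv hu huv hl
    have h : v ∉ S ∧ ∃ u, u ∉ S ∧ u ≠ v ∧ f u = f v := ⟨hv, u, hu, huv, hl⟩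
    obtain ⟨h1, h2, h3⟩ := h.2.choose_spec
    simp only [A, dif_pos h]
    rcases hf v u h.2.choose (s v) hl h3 (hs2 v) with e | e | e | e | e | e
    · exact absurd e.symm huv
    · exact absurd e.symm h2
    · exact absurd (e ▸ hs1 v) hv
    · exact e.symm
    · exact absurd (e ▸ hs1 v) hu
    · exact absurd (e ▸ hs1 v) h1
  have hA : ∀ v, A v = v ∨ (v ∉ S ∧ A v ∉ S ∧ A v ≠ v ∧ f (A v) = f v) := by
    intro v
    by_cases h : v ∉ S ∧ ∃ u, u ∉ S ∧ u ≠ v ∧ f u = f v
    · right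
      simp only [A, dif_pos h]
      exact ⟨h.1, h.2.choose_spec⟩
    · left
      simp only [A, dif_neg h]
  refine ⟨A, s, hf, fun v => ?_, fun v => ?_, fun v hv => ?_, heq, hs1, hs2⟩
  · rcases hA v with h | ⟨h1, h2, h3, h4⟩
    · rw [h, h]
    · exact heq _ _ h2 h1 h3.symm h4.symm
  · rcases hA v with h | ⟨h1, h2, h3, h4⟩
    · rw [h]
    · exact h4
  · rcases hA v with h | ⟨h1, h2, h3, h4⟩
    · exact absurd h hv
    · exact h1

namespace Side

variable {f : V → L} {S : Finset V} {A s : V → V} (h : Side f S A s)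
include h

lemma ne' {v : V} (hv : A v ≠ v) : A (A v) ≠ A v := by rw [h.inv]; exact hv.symm

lemma nS' {v : V} (hv : A v ≠ v) : A v ∉ S := h.nS _ (h.ne' hv)

lemma fib {v u : V} (hv : A v ≠ v) (hu : f u = f v) : u = v ∨ u = A v ∨ u = s v := by
  rcases h.le3 v (A v) (s v) u (h.lab v) (h.sl v) hu with e | e | e | e | e | e
  · exact absurd e.symm hv
  · exact absurd (e ▸ h.sS v) (h.nS v hv)
  · exact Or.inl e.symm
  · exact absurd (e ▸ h.sS v) (h.nS' hv)
  · exact Or.inr (Or.inl e.symm)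
  · exact Or.inr (Or.inr e.symm)

lemma fibS {v u : V} (hv : A v ≠ v) (hu : f u = f v) (huS : u ∈ S) : u = s v := by
  rcases h.fib hv hu with e | e | e
  · exact absurd (e ▸ huS) (h.nS v hv)
  · exact absurd (e ▸ huS) (h.nS' hv)
  · exact e

lemma fibR {v u : V} (hv : A v ≠ v) (hu : f u = f v) (huS : u ∉ S) : u = v ∨ u = A v := by
  rcases h.fib hv hu with e | e | e
  · exact Or.inl e
  · exact Or.inr e
  · exact absurd (e ▸ h.sS v) huS

lemma s_A {v : V} (hv : A v ≠ v) : s (A v) = s v :=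
  h.fibS hv ((h.sl _).trans (h.lab _)) (h.sS _)

lemma s_inj {v u : V} (hv : A v ≠ v) (huS : u ∉ S) (e : s u = s v) : u = v ∨ u = A v :=
  h.fibR hv (by rw [← h.sl u, e, h.sl]) huS

lemma A_inj {u v : V} (e : A u = A v) : u = v := by rw [← h.inv u, e, h.inv]

lemma step {Z : Finset V} {w : V} (hZ : ∃ u ∈ Z, u ≠ w ∧ f u = f w) (hw : A w ≠ w)
    (hs : s w ∉ Z) : A w ∈ Z := by
  obtain ⟨u, hu, h1, h2⟩ := hZ
  rcases h.fib hw h2 with e | e | e
  · exact absurd e h1
  · exact e ▸ hu
  · exact absurd (e ▸ hu) hs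

lemma step' {Z : Finset V} {w : V} (hZ : ∃ u ∈ Z, u ≠ s w ∧ f u = f (s w)) (hw : A w ≠ w)
    (hs : w ∉ Z) : A w ∈ Z := by
  obtain ⟨u, hu, h1, h2⟩ := hZ
  rcases h.fib hw (h2.trans (h.sl w)) with e | e | e
  · exact absurd (e ▸ hu) hs
  · exact e ▸ hu
  · exact absurd e h1

lemma inZ {Z : Finset V} {w : V} (hd : Disjoint Z S) (hw : w ∈ Z)
    (hZ : ∃ u ∈ Z, u ≠ w ∧ f u = f w) : A w ∈ Z ∧ A w ≠ w := by
  obtain ⟨u, hu, h1, h2⟩ := hZ
  have := h.eq u w (disjoint_left.1 hd hw) (disjoint_left.1 hd hu) h1 h2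
  rw [this]
  exact ⟨hu, h1⟩

end Side

/-- orbit under two maps -/
inductive Reach (A B : V → V) (y : V) : V → Prop
  | refl : Reach A B y y
  | a {z : V} : Reach A B y z → Reach A B y (A z)
  | b {z : V} : Reach A B y z → Reach A B y (B z)

lemma Reach.trans {A B : V → V} {x y z : V} (h1 : Reach A B x y) (h2 : Reach A B y z) :
    Reach A B x z := by
  induction h2 with
  | refl => exact h1
  | a _ ih => exact ih.a
  | b _ ih => exact ih.b

lemma Reach.swap {A B : V → V} {x y : V} (h : Reach A B x y) : Reach B A x y := by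
  induction h with
  | refl => exact Reach.refl
  | a _ ih => exact ih.b
  | b _ ih => exact ih.a

lemma Reach.symm' {A B : V → V} (hA : ∀ v, A (A v) = v) (hB : ∀ v, B (B v) = v) {x y : V}
    (h : Reach A B x y) : Reach A B y x := by
  induction h with
  | refl => exact Reach.refl
  | @a z _ ih =>
    have : Reach A B (A z) (A (A z)) := Reach.refl.a
    rw [hA] at this
    exact this.trans ih
  | @b z _ ih =>
    have : Reach A B (B z) (B (B z)) := Reach.refl.b
    rw [hB] at this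
    exact this.trans ih

/-- the vertex lies on an alternating cycle -/
def Cyc (A B : V → V) (y : V) : Prop := ∀ z, Reach A B y z → A z ≠ z ∧ B z ≠ z

lemma Cyc.swap {A B : V → V} {y : V} (h : Cyc A B y) : Cyc B A y :=
  fun z hz => (h z hz.swap).symm

lemma Cyc.of {A B : V → V} {y z : V} (h : Cyc A B y) (hz : Reach A B y z) : Cyc A B z :=
  fun w hw => h w (hz.trans hw)

lemma Cyc.a {A B : V → V} {y : V} (h : Cyc A B y) : A y ≠ y := (h y Reach.refl).1

lemma Cyc.b {A B : V → V} {y : V} (h : Cyc A B y) : B y ≠ y := (h y Reach.refl).2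

section count

variable {a b : V → L} {S : Finset V} {A B sA sB : V → V}

lemma closed_reach (hA : Side a S A sA) (hB : Side b S B sB) {Z : Finset V} (hZ : Closed a b Z)
    (hd : Disjoint Z S) {v z : V} (hv : v ∈ Z) (hz : Reach A B v z) : z ∈ Z := by
  induction hz with
  | refl => exact hv
  | a _ ih => exact (hA.inZ hd ih (hZ _ ih).1).1
  | b _ ih => exact (hB.inZ hd ih (hZ _ ih).2).1

lemma closed_cyc (hA : Side a S A sA) (hB : Side b S B sB) {Z : Finset V} (hZ : Closed a b Z)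
    (hd : Disjoint Z S) {v : V} (hv : v ∈ Z) : Cyc A B v := by
  intro z hz
  have := closed_reach hA hB hZ hd hv hz
  exact ⟨(hA.inZ hd this (hZ _ this).1).2, (hB.inZ hd this (hZ _ this).2).2⟩

lemma NN_split (a b : V → L) (T : Finset V) (v : V) :
    ∃ F : Finset (Finset V), (∀ Z, Z ∈ F ↔ Closed a b Z ∧ Disjoint Z T ∧ v ∈ Z) ∧
      NN a b T = F.card + NN a b (insert v T) := by
  classical
  refine ⟨(univ.filter (fun Z : Finset V => Closed a b Z ∧ Disjoint Z T)).filter
    (fun Z => v ∈ Z), by simp [and_assoc], ?_⟩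
  unfold NN
  rw [← card_filter_add_card_filter_not (fun Z : Finset V => v ∈ Z)]
  congr 2
  ext Z
  simp only [mem_filter, mem_univ, true_and, disjoint_insert_right]
  tauto

lemma half_le (hA : Side a S A sA) (hB : Side b S B sB) {T : Finset V} (hST : S ⊆ T) {v : V}
    (hv : Cyc A B v) (hT : ∀ t ∈ T, t ∈ S ∨ ¬ Reach A B v t) :
    2 * NN a b (insert v T) ≤ NN a b T := by
  classical
  obtain ⟨F, hF, e⟩ := NN_split a b T v
  let O := univ.filter (fun z => Reach A B v z)
  have hO : ∀ z, z ∈ O ↔ Reach A B v z := by simp [O]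
  have hdis : ∀ Z, Closed a b Z → Disjoint Z (insert v T) → Disjoint Z O := by
    intro Z h1 h2
    rw [disjoint_insert_right] at h2
    refine disjoint_left.2 (fun z hz hzO => h2.1 ?_)
    exact closed_reach hA hB h1 (h2.2.mono_right hST) hz
      (((hO z).1 hzO).symm' hA.inv hB.inv)
  have : NN a b (insert v T) ≤ F.card := by
    unfold NN
    refine card_le_card_of_injOn (fun Z => Z ∪ O) ?_ ?_
    · intro Z hZ
      simp only [coe_filter, mem_univ, true_and, Set.mem_ofPred_eq] at hZ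
      refine mem_coe.2 ((hF _).2 ⟨?_, ?_, mem_union_right _ ((hO v).2 Reach.refl)⟩)
      · intro u hu
        rcases mem_union.1 hu with hu | hu
        · obtain ⟨⟨x, x1, x2⟩, ⟨y, y1, y2⟩⟩ := hZ.1 u hu
          exact ⟨⟨x, mem_union_left _ x1, x2⟩, ⟨y, mem_union_left _ y1, y2⟩⟩
        · have hu := (hO u).1 hu
          exact ⟨⟨A u, mem_union_right _ ((hO _).2 hu.a), (hv u hu).1, hA.lab u⟩,
            ⟨B u, mem_union_right _ ((hO _).2 hu.b), (hv u hu).2, hB.lab u⟩⟩
      · rw [disjoint_union_left]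
        refine ⟨(disjoint_insert_right.1 hZ.2).2, disjoint_left.2 (fun z hz hzT => ?_)⟩
        have hz := (hO z).1 hz
        rcases hT z hzT with h | h
        · exact hA.nS z (hv z hz).1 h
        · exact h hz
    · intro Z hZ Z' hZ' e
      simp only [coe_filter, mem_univ, true_and, Set.mem_ofPred_eq] at hZ hZ'
      have e' : Z ∪ O = Z' ∪ O := e
      rw [← union_sdiff_cancel_right (hdis Z hZ.1 hZ.2), e',
        union_sdiff_cancel_right (hdis Z' hZ'.1 hZ'.2)]
  omega

lemma le_double (ha : Le3 a) (hb : Le3 b) (ca : Cover a S) (cb : Cover b S) (v : V) :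
    NN a b S ≤ 2 * NN a b (insert v S) := by
  classical
  obtain ⟨A, sA, hA⟩ := exists_side ha ca
  obtain ⟨B, sB, hB⟩ := exists_side hb cb
  obtain ⟨F, hF, e⟩ := NN_split a b S v
  let O := univ.filter (fun z => Reach A B v z)
  have hO : ∀ z, z ∈ O ↔ Reach A B v z := by simp [O]
  have hsub : ∀ Z ∈ F, O ⊆ Z := by
    intro Z hZ z hz
    obtain ⟨h1, h2, h3⟩ := (hF Z).1 hZ
    exact closed_reach hA hB h1 h2 h3 ((hO z).1 hz)
  have : F.card ≤ NN a b (insert v S) := by
    unfold NN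
    refine card_le_card_of_injOn (fun Z => Z \ O) ?_ ?_
    · intro Z hZ
      obtain ⟨h1, h2, h3⟩ := (hF Z).1 hZ
      simp only [coe_filter, mem_univ, true_and, Set.mem_ofPred_eq]
      constructor
      · intro u hu
        obtain ⟨huZ, huO⟩ := mem_sdiff.1 hu
        have k1 := hA.inZ h2 huZ (h1 u huZ).1
        have k2 := hB.inZ h2 huZ (h1 u huZ).2
        refine ⟨⟨A u, mem_sdiff.2 ⟨k1.1, fun h => huO ?_⟩, k1.2, hA.lab u⟩,
          ⟨B u, mem_sdiff.2 ⟨k2.1, fun h => huO ?_⟩, k2.2, hB.lab u⟩⟩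
        · have := ((hO _).1 h).a
          rw [hA.inv] at this
          exact (hO _).2 this
        · have := ((hO _).1 h).b
          rw [hB.inv] at this
          exact (hO _).2 this
      · rw [disjoint_insert_right]
        exact ⟨fun h => (mem_sdiff.1 h).2 ((hO v).2 Reach.refl), h2.mono_left sdiff_subset⟩
    · intro Z hZ Z' hZ' e
      have e' : Z \ O = Z' \ O := e
      rw [← sdiff_union_of_subset (hsub Z hZ), e', sdiff_union_of_subset (hsub Z' hZ')]
  omega

end count

lemma exists_adm {a b c : V → L} (ha : Tri a) (hb : Tri b) (hc : Le3 c) :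
    ∃ S, Adm a b c S := by
  classical
  obtain ⟨T, ta, tb, tc⟩ := seymour a b c ha.1 hb.1 hc _ univ rfl
  have hcov : ∀ f : V → L, Tri f → Split f univ T → Cover f (univ.filter (fun v => T v = true)) := by
    intro f hf hs v
    obtain ⟨y, z, e1, e2, n1, n2, n3⟩ := hf.2 v
    have := hs v (mem_univ _) y (mem_univ _) z (mem_univ _) e1 e2 n1.symm n2.symm n3
    cases hv : T v
    · cases hy : T y
      · cases hz : T z
        · simp [hv, hy, hz] at this
        · exact ⟨z, by simp [hz], e2⟩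
      · exact ⟨y, by simp [hy], e1⟩
    · exact ⟨v, by simp [hv], rfl⟩
  obtain ⟨S, hS, hmin⟩ := exists_min_image
    ((univ.filter (fun v => T v = true)).powerset.filter (fun S => Cover a S ∧ Cover b S))
    card ⟨_, mem_filter.2 ⟨mem_powerset_self _, hcov a ha ta, hcov b hb tb⟩⟩
  obtain ⟨hsub, ca, cb⟩ := mem_filter.1 hS
  have hT : ∀ x ∈ S, T x = true := fun x hx => (mem_filter.1 (mem_powerset.1 hsub hx)).2
  have hsp : ∀ f : V → L, Split f univ T → MC f S := by
    intro f hs x hx y hy z hz e1 e2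
    by_contra hc
    push Not at hc
    exact hs x (mem_univ _) y (mem_univ _) z (mem_univ _) e1 e2 hc.1 hc.2.1 hc.2.2
      ⟨by rw [hT x hx, hT y hy], by rw [hT x hx, hT z hz]⟩
  have hrem : ∀ x ∈ S, ∀ y ∈ S, ∀ z ∈ S, x ≠ y → x ≠ z → a x = a y → b x = b z → False := by
    intro x hx y hy z hz n1 n2 e1 e2
    have hcv : ∀ (f : V → L) (y : V), y ∈ S → x ≠ y → f x = f y → Cover f S →
        Cover f (S.erase x) := by
      intro f y hy n e hc v
      obtain ⟨s, hs, hv⟩ := hc v
      by_cases h : s = x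
      · exact ⟨y, mem_erase.2 ⟨n.symm, hy⟩, by rw [← e, ← h, hv]⟩
      · exact ⟨s, mem_erase.2 ⟨h, hs⟩, hv⟩
    have := hmin (S.erase x) (mem_filter.2 ⟨mem_powerset.2
      ((erase_subset _ _).trans (mem_powerset.1 hsub)), hcv a y hy n1 e1 ca, hcv b z hz n2 e2 cb⟩)
    have h2 := card_erase_lt_of_mem hx
    omega
  refine ⟨S, ca, cb, ?_, hsp c tc⟩
  rintro x hx y hy z hz ⟨n1, e1 | e1⟩ ⟨n2, e2 | e2⟩
  · rcases hsp a ta x hx y hy z hz e1.symm e2.symm with e | e | e <;> simp_all
  · exact (hrem x hx y hy z hz n1 n2 e1 e2).elim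
  · exact (hrem x hx z hz y hy n2 n1 e2 e1).elim
  · rcases hsp b tb x hx y hy z hz e1.symm e2.symm with e | e | e <;> simp_all

end Pool.Agent.P.MP_e0c710_co
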