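import Mathlib
import Pool.Agent.P.MP_e0c710_co.Count

set_option autoImplicit false
set_option linter.unusedSectionVars false

namespace Pool.Agent.P.MP_e0c710_co

open Finset

variable {V L : Type} [Fintype V] [DecidableEq V]

/-- edges inside `S` -/
def HS (a b c : V → L) (S : Finset V) (u v : V) : Prop :=
  u ∈ S ∧ v ∈ S ∧ (Adj a b u v ∨ (u ≠ v ∧ c u = c v))

/-- connected inside `S` -/
def Conn (a b c : V → L) (S : Finset V) : V → V → Prop := Relation.ReflTransGen (HS a b c S)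

lemma HS.symm {a b c : V → L} {S : Finset V} {u v : V} (h : HS a b c S u v) : HS a b c S v u :=
  ⟨h.2.1, h.1, h.2.2.imp Adj.symm (fun k => ⟨k.1.symm, k.2.symm⟩)⟩

lemma Conn.symm {a b c : V → L} {S : Finset V} {u v : V} (h : Conn a b c S u v) :
    Conn a b c S v u := by
  induction h with
  | refl => exact Relation.ReflTransGen.refl
  | tail _ k ih => exact Relation.ReflTransGen.head k.symm ih

lemma Conn.mem {a b c : V → L} {S : Finset V} {u v : V} (h : Conn a b c S u v) (hu : u ∈ S) :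
    v ∈ S := by
  induction h with
  | refl => exact hu
  | tail _ k _ => exact k.2.1

lemma Conn.par {a b c : V → L} {S : Finset V} {φ ψ : V → Bool}
    (hφ : ∀ u v, HS a b c S u v → φ u ≠ φ v) (hψ : ∀ u v, HS a b c S u v → ψ u ≠ ψ v)
    {u v : V} (h : Conn a b c S u v) : φ u = φ v ↔ ψ u = ψ v := by
  induction h with
  | refl => simp
  | tail _ k ih =>
    have h1 := hφ _ _ k
    have h2 := hψ _ _ k
    have key : ∀ x y z x' y' z' : Bool, (x = y ↔ x' = y') → y ≠ z → y' ≠ z' →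
        (x = z ↔ x' = z') := by decide
    exact key _ _ _ _ _ _ ih h1 h2

lemma mat_ab {a b : V → L} {S : Finset V} (h : MAB a b S) :
    Mat (fun u v => u ∈ S ∧ v ∈ S ∧ Adj a b u v) :=
  ⟨fun _ _ k => ⟨k.2.1, k.1, k.2.2.symm⟩, fun _ k => k.2.2.1 rfl,
    fun x y z k k' => h x k.1 y k.2.1 z k'.2.1 k.2.2 k'.2.2⟩

lemma mat_c {c : V → L} {S : Finset V} (h : MC c S) :
    Mat (fun u v => u ∈ S ∧ v ∈ S ∧ u ≠ v ∧ c u = c v) := by
  refine ⟨fun _ _ k => ⟨k.2.1, k.1, k.2.2.1.symm, k.2.2.2.symm⟩, fun _ k => k.2.2.1 rfl, ?_⟩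
  intro x y z k k'
  have := h x k.1 y k.2.1 z k'.2.1 k.2.2.2.symm k'.2.2.2.symm
  grind

lemma Mat.union {M N : V → V → Prop} (hM : Mat M) (hN : Mat N)
    (h : ∀ u v w, M u v → N u w → False) : Mat (fun u v => M u v ∨ N u v) := by
  refine ⟨fun x y k => k.imp (hM.1 x y) (hN.1 x y), fun x k => k.elim (hM.2.1 x) (hN.2.1 x), ?_⟩
  rintro x y z (k | k) (k' | k')
  · exact hM.2.2 x y z k k'
  · exact (h _ _ _ k k').elim
  · exact (h _ _ _ k' k).elim
  · exact hN.2.2 x y z k k'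

lemma mat_pair {p q : V} (h : p ≠ q) : Mat (fun u v => (u = p ∧ v = q) ∨ (u = q ∧ v = p)) := by
  refine ⟨?_, ?_, ?_⟩ <;> grind

lemma conn_ports {a b c : V → L} {S : Finset V} (hab : MAB a b S) (hc : MC c S) {φ : V → Bool}
    (hφ : ∀ u v, HS a b c S u v → φ u ≠ φ v) {p q : V} (hp : ∀ z ∈ S, ¬ Adj a b p z)
    (hq : ∀ z ∈ S, ¬ Adj a b q z) (e : φ p = φ q) (h : Conn a b c S p q) : p = q := by
  by_contra n
  obtain ⟨ψ, hψ⟩ := two_match ((mat_ab hab).union (mat_pair n) (by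
    rintro u v w k (⟨rfl, -⟩ | ⟨rfl, -⟩)
    · exact hp v k.2.1 k.2.2
    · exact hq v k.2.1 k.2.2)) (mat_c hc)
  have hψ' : ∀ u v, HS a b c S u v → ψ u ≠ ψ v := by
    rintro u v ⟨h1, h2, h3 | h3⟩
    · exact hψ u v (Or.inl (Or.inl ⟨h1, h2, h3⟩))
    · exact hψ u v (Or.inr ⟨h1, h2, h3⟩)
  exact hψ p q (Or.inl (Or.inr (Or.inl ⟨rfl, rfl⟩))) ((h.par hφ hψ').1 e)

lemma conn_end {a b c : V → L} {S : Finset V} (hab : MAB a b S) (hc : MC c S) {φ : V → Bool}
    (hφ : ∀ u v, HS a b c S u v → φ u ≠ φ v) {p e d : V} (hpS : p ∈ S) (hd : d ∉ S)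
    (hp : ∀ z ∈ S, ¬ Adj a b p z) (he : ∀ z ∈ S, c e = c z → e = z) (h : Conn a b c S p e) :
    φ p = φ e := by
  have heS := h.mem hpS
  have n1 : p ≠ d := fun k => hd (k ▸ hpS)
  have n2 : e ≠ d := fun k => hd (k ▸ heS)
  obtain ⟨ψ, hψ⟩ := two_match ((mat_ab hab).union (mat_pair n1) (by
    rintro u v w k (⟨rfl, -⟩ | ⟨rfl, -⟩)
    · exact hp v k.2.1 k.2.2
    · exact hd k.1)) ((mat_c hc).union (mat_pair n2) (by
    rintro u v w k (⟨rfl, -⟩ | ⟨rfl, -⟩)
    · exact k.2.2.1 (he v k.2.1 k.2.2.2)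
    · exact hd k.1))
  have hψ' : ∀ u v, HS a b c S u v → ψ u ≠ ψ v := by
    rintro u v ⟨h1, h2, h3 | h3⟩
    · exact hψ u v (Or.inl (Or.inl ⟨h1, h2, h3⟩))
    · exact hψ u v (Or.inr (Or.inl ⟨h1, h2, h3⟩))
  have k1 := hψ p d (Or.inl (Or.inr (Or.inl ⟨rfl, rfl⟩)))
  have k2 := hψ e d (Or.inr (Or.inr (Or.inl ⟨rfl, rfl⟩)))
  have key : ∀ x y z : Bool, x ≠ z → y ≠ z → x = y := by decide
  exact (h.par hφ hψ').2 (key _ _ _ k1 k2)

theorem hinge {a b c : V → L} {S X : Finset V} (hab : MAB a b S) (hc : MC c (S ∪ X))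
    (hX : ∀ y ∈ X, y ∉ S) (p : Bool → V → V) {φ : V → Bool}
    (hφ : ∀ u v, HS a b c S u v → φ u ≠ φ v)
    (hpS : ∀ i, ∀ y ∈ X, p i y ∈ S) (hpK : ∀ i, ∀ y ∈ X, ∀ z ∈ S, ¬ Adj a b (p i y) z)
    (hp0 : ∀ i, ∀ y ∈ X, φ (p i y) = false)
    (hinj : ∀ i j, ∀ y ∈ X, ∀ y' ∈ X, p i y = p j y' → i = j ∧ y = y') (n : ℕ) :
    ∀ Y ⊆ X, Y.card = n → ∃ ψ : V → Bool, (∀ u v, HS a b c S u v → ψ u ≠ ψ v) ∧
      (∀ y ∈ Y, ∀ m ∈ S ∪ Y, m ≠ y → c m = c y → ψ m ≠ ψ y) ∧
      ∀ i, ∀ y ∈ Y, ψ (p i y) ≠ ψ y := by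
  classical
  have hcS : MC c S := fun x hx y hy z hz =>
    hc x (mem_union_left _ hx) y (mem_union_left _ hy) z (mem_union_left _ hz)
  have F1 : ∀ i j, ∀ y ∈ X, ∀ y' ∈ X, Conn a b c S (p i y) (p j y') → i = j ∧ y = y' :=
    fun i j y hy y' hy' h => hinj i j y hy y' hy' (conn_ports hab hcS hφ (hpK i y hy)
      (hpK j y' hy') (by rw [hp0 i y hy, hp0 j y' hy']) h)
  induction n with
  | zero =>
    intro Y _ hY
    rw [card_eq_zero] at hY
    subst hY
    exact ⟨φ, hφ, by simp, by simp⟩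
  | succ n ih =>
  intro Y hYX hY
  by_cases hch : ∃ y ∈ Y, ∀ y' ∈ Y, ∀ e ∈ S, c e = c y' → ∀ i, ¬ Conn a b c S (p i y) e
  · obtain ⟨y, hy, hch⟩ := hch
    have hyX := hYX hy
    obtain ⟨ψ, h1, h2, h3⟩ := ih (Y.erase y) ((erase_subset _ _).trans hYX)
      (by rw [card_erase_of_mem hy]; omega)
    obtain ⟨k, hk⟩ : ∃ k : Bool, ∀ m ∈ S ∪ Y, m ≠ y → c m = c y → ψ m ≠ k := by
      by_cases hm : ∃ m ∈ S ∪ Y, m ≠ y ∧ c m = c y
      · obtain ⟨m, hm, n1, e1⟩ := hm
        refine ⟨!ψ m, fun m' hm' n2 e2 => ?_⟩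
        have hsub : S ∪ Y ⊆ S ∪ X := union_subset_union_right hYX
        have := hc y (mem_union_right _ hyX) m (hsub hm) m' (hsub hm') e1 e2
        grind
      · exact ⟨false, fun m hm' n e => absurd ⟨m, hm', n, e⟩ hm⟩
    let ψ' : V → Bool := fun v => if v = y then k else
      if Conn a b c S (p true y) v then xor (ψ v) (ψ (p true y) == k) else
      if Conn a b c S (p false y) v then xor (ψ v) (ψ (p false y) == k) else ψ v
    have hy' : ψ' y = k := by simp [ψ']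
    have hsame : ∀ v, v ≠ y → (∀ i, ¬ Conn a b c S (p i y) v) → ψ' v = ψ v := by
      intro v n h
      simp only [ψ', if_neg n, if_neg (h true), if_neg (h false)]
    have hY' : ∀ v ∈ Y, v ≠ y → ψ' v = ψ v :=
      fun v hv n => hsame v n (fun i h => hX v (hYX hv) (h.mem (hpS i y hyX)))
    have hm : ∀ y' ∈ Y, ∀ m ∈ S ∪ Y, m ≠ y → c m = c y' → ψ' m = ψ m := by
      intro y' hy' m hm n e
      rcases mem_union.1 hm with hm | hm
      · exact hsame m n (hch y' hy' m hm e)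
      · exact hY' m hm n
    refine ⟨ψ', ?_, ?_, ?_⟩
    · intro u v huv
      have n1 : u ≠ y := fun e => hX y hyX (e ▸ huv.1)
      have n2 : v ≠ y := fun e => hX y hyX (e ▸ huv.2.1)
      have hi : ∀ i, Conn a b c S (p i y) u ↔ Conn a b c S (p i y) v :=
        fun i => ⟨fun h => Relation.ReflTransGen.tail h huv,
          fun h => Relation.ReflTransGen.tail h huv.symm⟩
      have := h1 u v huv
      have key : ∀ x y z : Bool, x ≠ y → xor x z ≠ xor y z := by decide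
      simp only [ψ', if_neg n1, if_neg n2, hi]
      split_ifs
      · exact key _ _ _ this
      · exact key _ _ _ this
      · exact this
    · intro y' hy'' m hmm n e
      by_cases k1 : y' = y
      · subst k1
        rw [hy', hm y' hy m hmm n e]
        exact hk m hmm n e
      · by_cases k2 : m = y
        · subst k2
          rw [hy', hY' y' hy'' k1]
          exact (hk y' (mem_union_right _ hy'') k1 e.symm).symm
        · rw [hY' y' hy'' k1, hm y' hy'' m hmm k2 e]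
          refine h2 y' (mem_erase.2 ⟨k1, hy''⟩) m ?_ n e
          rcases mem_union.1 hmm with k | k
          · exact mem_union_left _ k
          · exact mem_union_right _ (mem_erase.2 ⟨k2, k⟩)
    · intro i y' hy''
      have n1 : p i y' ≠ y := fun e => hX y hyX (e ▸ hpS i y' (hYX hy''))
      by_cases k1 : y' = y
      · subst k1
        rw [hy']
        have r : Conn a b c S (p i y') (p i y') := Relation.ReflTransGen.refl
        have key : ∀ x z : Bool, xor x (x == z) ≠ z := by decide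
        cases i
        · have : ¬ Conn a b c S (p true y') (p false y') :=
            fun h => by simpa using (F1 _ _ _ hyX _ hyX h).1
          simp only [ψ', if_neg n1, if_neg this, if_pos r]
          exact key _ _
        · simp only [ψ', if_neg n1, if_pos r]
          exact key _ _
      · rw [hY' y' hy'' k1, hsame _ n1 (fun j h => k1 (F1 _ _ _ hyX _ (hYX hy'') h).2.symm)]
        exact h3 i y' (mem_erase.2 ⟨k1, hy''⟩)
  · push Not at hch
    choose! ch h1 e h2 h3 i h4 using hch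
    have huniq : ∀ y ∈ Y, ∀ e ∈ S, c e = c y → ∀ m ∈ S ∪ Y, m ≠ y → c m = c y → m = e := by
      intro y hy e he k m hm n k'
      have hsub : S ∪ Y ⊆ S ∪ X := union_subset_union_right hYX
      have := hc y (mem_union_right _ (hYX hy)) m (hsub hm) e (mem_union_left _ he) k' k
      have := hX y (hYX hy)
      grind
    have hsurj : Set.SurjOn ch Y Y := by
      refine Finset.surjOn_of_injOn_of_card_le ch h1 ?_ le_rfl
      intro y hy y' hy' k
      have n : e y ≠ ch y := fun k' => hX _ (hYX (h1 y hy)) (k' ▸ h2 y hy)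
      have := huniq _ (h1 y hy) (e y') (h2 y' hy') (by rw [h3 y' hy', k]) (e y)
        (mem_union_left _ (h2 y hy)) n (h3 y hy)
      have k1 := h4 y hy
      rw [this] at k1
      exact (F1 _ _ _ (hYX hy) _ (hYX hy')
        (Relation.ReflTransGen.trans k1 (h4 y' hy').symm)).2
    refine ⟨fun v => if v ∈ Y then true else φ v, ?_, ?_, ?_⟩
    · intro u v huv
      simp only [if_neg (fun h => hX u (hYX h) huv.1), if_neg (fun h => hX v (hYX h) huv.2.1)]
      exact hφ u v huv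
    · intro y hy m hm n k
      obtain ⟨z, hz, rfl⟩ := hsurj hy
      obtain rfl := huniq _ hy (e z) (h2 z hz) (h3 z hz) m hm n k
      have := conn_end hab hcS hφ (hpS _ z (hYX hz)) (hX _ (hYX hy)) (hpK _ z (hYX hz))
        (fun w hw k' => (huniq _ hy (e z) (h2 z hz) k w (mem_union_left _ hw)
          (fun k'' => hX _ (hYX hy) (k'' ▸ hw)) (k'.symm.trans k)).symm) (h4 z hz)
      rw [hp0 _ z (hYX hz)] at this
      simp only [if_neg (fun h => hX _ (hYX h) (h2 z hz)), if_pos hy, ← this]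
      simp
    · intro j y hy
      simp only [if_neg (fun h => hX _ (hYX h) (hpS j y (hYX hy))), if_pos hy, hp0 j y (hYX hy)]
      simp

end Pool.Agent.P.MP_e0c710_co
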