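import Mathlib
import Pool.Agent.P.MP_e0c710_co.Count

set_option autoImplicit false
set_option linter.unusedSectionVars false

namespace Pool.Agent.P.MP_e0c710_co

open Finset

/-- an optimal admissible set with its mate maps -/
structure Cfg (V L : Type) [Fintype V] [DecidableEq V] where
  a : V → L
  b : V → L
  c : V → L
  S : Finset V
  A : V → V
  B : V → V
  sA : V → V
  sB : V → V
  x : V → Bool
  hA : Side a S A sA
  hB : Side b S B sB
  hc : Le3 c
  adm : Adm a b c S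
  min : ∀ S', Adm a b c S' → NN a b S ≤ NN a b S' ∧ (NN a b S' = NN a b S → S.card ≤ S'.card)
  xA : ∀ v, A v ≠ v → x (A v) ≠ x v
  xB : ∀ v, B v ≠ v → x (B v) ≠ x v

variable {V L : Type} [Fintype V] [DecidableEq V]

lemma exists_cfg {a b c : V → L} (ha : Tri a) (hb : Tri b) (hc : Le3 c) :
    ∃ C : Cfg V L, C.a = a ∧ C.b = b ∧ C.c = c := by
  classical
  obtain ⟨S0, hS0⟩ := exists_adm ha hb hc
  obtain ⟨S1, hS1, h1⟩ := exists_min_image (univ.filter (fun S => Adm a b c S)) (NN a b)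
    ⟨S0, by simpa using hS0⟩
  obtain ⟨S, hS, h2⟩ := exists_min_image
    (univ.filter (fun S => Adm a b c S ∧ NN a b S = NN a b S1)) card ⟨S1, by simpa using hS1⟩
  simp only [mem_filter, mem_univ, true_and] at hS h1 h2
  obtain ⟨A, sA, hA⟩ := exists_side ha.1 hS.1.ca
  obtain ⟨B, sB, hB⟩ := exists_side hb.1 hS.1.cb
  have hm : ∀ A : V → V, (∀ v, A (A v) = v) → Mat (fun u v => A u = v ∧ u ≠ v) := by
    intro A hA
    refine ⟨?_, by simp, ?_⟩
    · rintro u v ⟨rfl, h⟩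
      exact ⟨hA u, h.symm⟩
    · rintro u v w ⟨rfl, -⟩ ⟨rfl, -⟩
      rfl
  obtain ⟨x, hx⟩ := two_match (hm A hA.inv) (hm B hB.inv)
  refine ⟨⟨a, b, c, S, A, B, sA, sB, x, hA, hB, hc, hS.1, fun S' h => ⟨?_, fun e => ?_⟩,
    fun v hv => (hx v _ (Or.inl ⟨rfl, hv.symm⟩)).symm,
    fun v hv => (hx v _ (Or.inr ⟨rfl, hv.symm⟩)).symm⟩, rfl, rfl, rfl⟩
  · rw [hS.2]; exact h1 S' h
  · exact h2 S' ⟨h, e.trans hS.2⟩

namespace Cfg

variable (C : Cfg V L)

/-- exchange the first two colours -/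
def swap : Cfg V L where
  a := C.b
  b := C.a
  c := C.c
  S := C.S
  A := C.B
  B := C.A
  sA := C.sB
  sB := C.sA
  x := C.x
  hA := C.hB
  hB := C.hA
  hc := C.hc
  adm := C.adm.swap
  min := fun S' h => by
    rw [NN_swap C.a C.b, NN_swap C.a C.b]; exact C.min S' h.swap
  xA := C.xB
  xB := C.xA

/-- reachability -/
abbrev R (y z : V) : Prop := Reach C.A C.B y z

/-- on a cycle -/
abbrev Cy (y : V) : Prop := Cyc C.A C.B y

/-- two mates of the third colour in `S` -/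
def T2 (y : V) : Prop := ∃ e ∈ C.S, ∃ e' ∈ C.S, e ≠ e' ∧ C.c e = C.c y ∧ C.c e' = C.c y

/-- no neighbour in `S` in the first two colours -/
def K (s : V) : Prop := ∀ z ∈ C.S, ¬ Adj C.a C.b s z

/-- a pair of the third colour completed in `S` -/
def F2' (u v : V) : Prop := C.c u = C.c v ∧ ∃ e ∈ C.S, C.c e = C.c u

/-- a pair of the third colour completed in `S` by a vertex other than the port -/
def F2 (u v : V) : Prop := C.c u = C.c v ∧ ∃ e ∈ C.S, e ≠ C.sA u ∧ C.c e = C.c u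

variable {C}

lemma R_symm {y z : V} (h : C.R y z) : C.R z y := h.symm' C.hA.inv C.hB.inv

lemma K_swap {s : V} : C.swap.K s ↔ C.K s :=
  ⟨fun h z hz e => h z hz e.swap, fun h z hz e => h z hz e.swap⟩

lemma F2.weak {u v : V} (h : C.F2 u v) : C.F2' u v :=
  let ⟨h1, e, he, _, h2⟩ := h; ⟨h1, e, he, h2⟩

lemma F2'.symm {u v : V} (h : C.F2' u v) : C.F2' v u :=
  let ⟨h1, e, he, h2⟩ := h; ⟨h1.symm, e, he, h2.trans h1⟩

lemma nS {y : V} (h : C.Cy y) : y ∉ C.S := C.hA.nS y h.a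

lemma cyA {y : V} (h : C.Cy y) : C.Cy (C.A y) := h.of Reach.refl.a

lemma cyB {y : V} (h : C.Cy y) : C.Cy (C.B y) := h.of Reach.refl.b

lemma xA' {y : V} (h : C.Cy y) : C.x (C.A y) = !C.x y := by
  have := C.xA y h.a
  revert this; cases C.x (C.A y) <;> cases C.x y <;> simp

lemma xB' {y : V} (h : C.Cy y) : C.x (C.B y) = !C.x y := xA' (C := C.swap) h.swap

lemma rot {y z : V} (hy : C.Cy y) (hz : C.R y z) (hx : C.x z = C.x y) (Q : V → Prop) (h0 : Q y)
    (hQ : ∀ w, C.R y w → C.x w = C.x y → Q w → Q (C.B (C.A w))) : Q z := by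
  let ρ : Equiv.Perm V :=
    (Function.Involutive.toPerm C.B C.hB.inv) * (Function.Involutive.toPerm C.A C.hA.inv)
  have hρ : ∀ w, ρ w = C.B (C.A w) := fun w => rfl
  have key : ∀ z, C.R y z → ρ.SameCycle y z ∨ ρ.SameCycle y (C.A z) := by
    intro z hz
    induction hz with
    | refl => exact Or.inl (Equiv.Perm.SameCycle.refl _ _)
    | a _ ih =>
      rcases ih with ih | ih
      · right; rw [C.hA.inv]; exact ih
      · exact Or.inl ih
    | @b w _ ih =>
      rcases ih with ih | ih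
      · right
        rw [← Equiv.Perm.sameCycle_apply_right, hρ, C.hA.inv, C.hB.inv]
        exact ih
      · left
        have := Equiv.Perm.sameCycle_apply_right.2 ih
        rwa [hρ, C.hA.inv] at this
  have cl : ∀ z, ρ.SameCycle y z → C.R y z ∧ C.x z = C.x y ∧ Q z := by
    intro z hz
    refine perm_closed ρ (fun w => C.R y w ∧ C.x w = C.x y ∧ Q w) ?_ ⟨Reach.refl, rfl, h0⟩ hz
    rintro w ⟨h1, h2, h3⟩
    refine ⟨h1.a.b, ?_, hQ w h1 h2 h3⟩
    rw [hρ, xB' (cyA (hy.of h1)), xA' (hy.of h1), Bool.not_not, h2]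
  rcases key z hz with h | h
  · exact (cl z h).2.2
  · have := (cl _ h).2.1
    rw [xA' (hy.of hz), hx] at this
    simp at this

lemma adj_cyc {y u : V} (hy : C.Cy y) (h : Adj C.a C.b y u) :
    u = C.A y ∨ u = C.B y ∨ u = C.sA y ∨ u = C.sB y := by
  rcases h.2 with e | e
  · rcases C.hA.fib hy.a e.symm with e | e | e
    · exact absurd e.symm h.1
    · exact Or.inl e
    · exact Or.inr (Or.inr (Or.inl e))
  · rcases C.hB.fib hy.b e.symm with e | e | e
    · exact absurd e.symm h.1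
    · exact Or.inr (Or.inl e)
    · exact Or.inr (Or.inr (Or.inr e))

lemma cover_move {f : V → L} {S S' : Finset V} (hS : Cover f S)
    (h : ∀ s ∈ S, s ∉ S' → ∃ u ∈ S', f u = f s) : Cover f S' := by
  intro v
  obtain ⟨s, hs, e⟩ := hS v
  by_cases h' : s ∈ S'
  · exact ⟨s, h', e⟩
  · obtain ⟨u, hu, e'⟩ := h s hs h'
    exact ⟨u, hu, e'.trans e⟩

lemma mab_move {S' : Finset V}
    (h1 : ∀ y ∈ S', y ∉ C.S → ∀ u ∈ S', ∀ z ∈ S', Adj C.a C.b y u → Adj C.a C.b y z → u = z)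
    (h2 : ∀ y ∈ S', y ∉ C.S → ∀ s ∈ S', s ∈ C.S → Adj C.a C.b y s →
      ∀ z ∈ S', Adj C.a C.b s z → z = y) : MAB C.a C.b S' := by
  intro u hu v hv w hw e1 e2
  by_cases k1 : u ∈ C.S
  · by_cases k2 : v ∈ C.S
    · by_cases k3 : w ∈ C.S
      · exact C.adm.ab u k1 v k2 w k3 e1 e2
      · exact h2 w hw k3 u hu k1 e2.symm v hv e1
    · exact (h2 v hv k2 u hu k1 e1.symm w hw e2).symm
  · exact h1 u hu k1 v hv w hw e1 e2

lemma mc_move {S' : Finset V} (h1 : ∀ y ∈ S', y ∉ C.S → ¬ C.T2 y)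
    (h2 : ∀ y ∈ S', ∀ r ∈ S', ∀ e ∈ S', y ∉ C.S → r ∉ C.S → y ≠ r → e ≠ y → e ≠ r →
      C.c y = C.c r → C.c e = C.c y → False) : MC C.c S' := by
  intro u hu v hv w hw e1 e2
  by_contra hc
  push Not at hc
  obtain ⟨n1, n2, n3⟩ := hc
  by_cases k1 : u ∈ C.S <;> by_cases k2 : v ∈ C.S <;> by_cases k3 : w ∈ C.S
  · rcases C.adm.mc u k1 v k2 w k3 e1 e2 with e | e | e <;> contradiction
  · exact h1 w hw k3 ⟨u, k1, v, k2, n1, e2.symm, e1.trans e2.symm⟩
  · exact h1 v hv k2 ⟨u, k1, w, k3, n2, e1.symm, e2.trans e1.symm⟩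
  · exact h2 v hv w hw u hu k2 k3 n3 n1 n2 (e1.trans e2.symm) e1.symm
  · exact h1 u hu k1 ⟨v, k2, w, k3, n3, e1, e2⟩
  · exact h2 u hu w hw v hv k1 k3 n2 n1.symm n3 e2.symm e1
  · exact h2 u hu v hv w hw k1 k2 n1 n2.symm n3.symm e1.symm e2
  · exact h2 u hu v hv w hw k1 k2 n1 n2.symm n3.symm e1.symm e2

lemma half {y : V} (hy : C.Cy y) : 2 * NN C.a C.b (insert y C.S) ≤ NN C.a C.b C.S :=
  half_le C.hA C.hB subset_rfl hy (fun _ h => Or.inl h)

lemma not_better {S' : Finset V} (h : Adm C.a C.b C.c S') {y : V} (hy : C.Cy y)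
    (hZ : ∀ Z, Closed C.a C.b Z → Disjoint Z S' → Disjoint Z (insert y C.S)) : False := by
  have h1 := NN_le hZ
  have h2 := half hy
  have h3 := (C.min S' h).1
  have h4 := NN_pos C.a C.b C.S
  omega

lemma walk {Z : Finset V} (hZ : Closed C.a C.b Z) {y : V} (hy : C.Cy y) (hyZ : y ∉ Z)
    (h1 : ∀ w, C.R y w → C.x w = C.x y → w ∈ Z → C.sB w ∉ Z)
    (h2 : ∀ w, C.R y w → C.x w ≠ C.x y → w ∈ Z → C.sA w ∉ Z) : C.B y ∉ Z := by
  intro hB
  have hs : ∀ w, C.R y w → C.x w ≠ C.x y → w ∈ Z → C.A w ∈ Z :=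
    fun w k1 k2 k3 => C.hA.step (hZ w k3).1 (hy w k1).1 (h2 w k1 k2 k3)
  have hx : C.x (C.B y) ≠ C.x y := C.xB y hy.b
  have : C.A y ∈ Z := by
    refine rot (cyB hy) ((R_symm Reach.refl.b).a) (by rw [xA' hy, xB' hy]) (fun w => w ∈ Z) hB ?_
    intro w k1 k2 k3
    have k1' : C.R y w := Reach.refl.b.trans k1
    have k4 := hs w k1' (k2 ▸ hx) k3
    refine C.hB.step (hZ _ k4).2 (hy _ k1'.a).2 (h1 _ k1'.a ?_ k4)
    rw [xA' (hy.of k1'), k2, xB' hy, Bool.not_not]
  have := hs _ Reach.refl.a (C.xA y hy.a) this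
  rw [C.hA.inv] at this
  exact hyZ this

lemma d1_ne {y : V} (hy : C.Cy y) (ht : ¬ C.T2 y) : C.sA y ≠ C.sB y := by
  intro e
  have a1 := nS (cyA hy)
  have a2 := nS (cyB hy)
  have a3 := hy.a
  have a4 := hy.b
  refine not_better (S' := insert y C.S) ⟨?_, ?_, ?_, ?_⟩ hy (fun Z _ h => h)
  · exact cover_move C.adm.ca (fun s hs h => absurd (mem_insert_of_mem hs) h)
  · exact cover_move C.adm.cb (fun s hs h => absurd (mem_insert_of_mem hs) h)
  · refine mab_move ?_ ?_
    · intro y' hy' hn u hu z hz e1 e2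
      obtain rfl : y' = y := by simpa [hn] using hy'
      have := adj_cyc hy e1
      have := adj_cyc hy e2
      grind
    · intro y' hy' hn s hs hsS e1 z hz e2
      obtain rfl : y' = y := by simpa [hn] using hy'
      have k := adj_cyc hy e1
      have hs : s = C.sA y' := by grind
      subst hs
      rcases e2.2 with k | k
      · have := C.hA.fib hy.a (k.symm.trans (C.hA.sl _))
        have := e2.1
        grind
      · rw [e] at k
        have := C.hB.fib hy.b (k.symm.trans (C.hB.sl _))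
        have := e2.1
        grind
  · refine mc_move ?_ ?_
    · intro y' hy' hn
      obtain rfl : y' = y := by simpa [hn] using hy'
      exact ht
    · intro u hu v hv w _ h1 h2 h3
      grind

lemma notK_A {y : V} (hy : C.Cy y) (h : ¬ C.K (C.sA y)) :
    ∃ s' ∈ C.S, s' ≠ C.sA y ∧ C.b s' = C.b (C.sA y) ∧
      ∀ w, C.B w ≠ w → C.sB w ≠ C.sA y := by
  unfold K at h
  push Not at h
  obtain ⟨s', hs', n, e | e⟩ := h
  · exact absurd (C.hA.fibS hy.a (e.symm.trans (C.hA.sl _)) hs').symm n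
  · refine ⟨s', hs', n.symm, e.symm, fun w hw k => n ?_⟩
    rw [← k] at e ⊢
    exact (C.hB.fibS hw (e.symm.trans (C.hB.sl _)) hs').symm

lemma d1_one {y : V} (hy : C.Cy y) (ht : ¬ C.T2 y) (h1 : ¬ C.K (C.sB y)) (h2 : C.K (C.sA y)) :
    False := by
  obtain ⟨t', ht', n, e, hB⟩ := notK_A (C := C.swap) hy.swap (by rwa [K_swap])
  change t' ≠ C.sB y at n
  change C.a t' = C.a (C.sB y) at e
  change ∀ w, C.A w ≠ w → C.sA w ≠ C.sB y at hB
  change t' ∈ C.S at ht'
  have a0 := nS hy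
  have a1 := nS (cyA hy)
  have a2 := nS (cyB hy)
  have a3 := hy.a
  have a4 := hy.b
  have a5 := C.hB.sS y
  refine not_better (S' := insert y (C.S.erase (C.sB y))) ⟨?_, ?_, ?_, ?_⟩ hy ?_
  · refine cover_move C.adm.ca (fun s hs h => ⟨t', by simp [n, ht'], ?_⟩)
    obtain rfl : s = C.sB y := by grind
    exact e
  · refine cover_move C.adm.cb (fun s hs h => ⟨y, by simp, ?_⟩)
    obtain rfl : s = C.sB y := by grind
    exact (C.hB.sl y).symm
  · refine mab_move ?_ ?_
    · intro y' hy' hn u hu z hz e1 e2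
      obtain rfl : y' = y := by grind
      have := adj_cyc hy e1
      have := adj_cyc hy e2
      grind
    · intro y' hy' hn s hs hsS e1 z hz e2
      obtain rfl : y' = y := by grind
      have k := adj_cyc hy e1
      obtain rfl : s = C.sA y' := by grind
      by_contra hc
      exact h2 z (by grind) e2
  · refine mc_move ?_ ?_
    · intro y' hy' hn
      obtain rfl : y' = y := by grind
      exact ht
    · intro u hu v hv w _ h1 h2 h3
      grind
  · intro Z hZ hd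
    have hd' : ∀ v ∈ Z, v ≠ y ∧ (v ∈ C.S → v = C.sB y) := by
      intro v hv
      have := disjoint_left.1 hd hv
      grind
    have hyZ : y ∉ Z := fun h => (hd' y h).1 rfl
    have k : C.B y ∉ Z := by
      refine walk hZ hy hyZ ?_ ?_
      · intro w k1 k2 k3 k4
        rcases C.hB.s_inj hy.b (nS (hy.of k1)) ((hd' _ k4).2 (C.hB.sS w)) with k | k
        · exact hyZ (k ▸ k3)
        · exact C.xB y hy.b (k ▸ k2)
      · intro w k1 _ _ k4
        exact hB w (hy w k1).1 ((hd' _ k4).2 (C.hA.sS w))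
    refine disjoint_left.2 (fun v hv hv' => ?_)
    obtain rfl : v = C.sB y := by have := hd' v hv; grind
    exact k (C.hB.step' (hZ _ hv).2 hy.b hyZ)

lemma d1_two {y : V} (hy : C.Cy y) (ht : ¬ C.T2 y) (h1 : ¬ C.K (C.sB y))
    (h2 : ¬ C.K (C.sA y)) : False := by
  obtain ⟨t', ht', n, e, hB⟩ := notK_A (C := C.swap) hy.swap (by rwa [K_swap])
  change t' ≠ C.sB y at n
  change C.a t' = C.a (C.sB y) at e
  change ∀ w, C.A w ≠ w → C.sA w ≠ C.sB y at hB
  change t' ∈ C.S at ht'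
  obtain ⟨s', hs', n', e', -⟩ := notK_A hy h2
  have hne := d1_ne hy ht
  have a0 := nS hy
  have a1 := nS (cyA hy)
  have a2 := nS (cyB hy)
  have a3 := hy.a
  have a4 := hy.b
  have a5 := C.hB.sS y
  have a6 := C.hA.sS y
  have n1 : t' ≠ C.sA y := by
    intro k
    rw [k, C.hA.sl] at e
    exact hne (C.hA.fibS hy.a e.symm a5).symm
  have n2 : s' ≠ C.sB y := by
    intro k
    rw [k, C.hB.sl] at e'
    exact hne (C.hB.fibS hy.b e'.symm a6)
  have hadm : Adm C.a C.b C.c (insert y ((C.S.erase (C.sA y)).erase (C.sB y))) := by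
    refine ⟨?_, ?_, ?_, ?_⟩
    · refine cover_move C.adm.ca (fun s hs h => ?_)
      obtain rfl | rfl : s = C.sA y ∨ s = C.sB y := by grind
      · exact ⟨y, by simp, (C.hA.sl y).symm⟩
      · exact ⟨t', by simp [n, n1, ht'], e⟩
    · refine cover_move C.adm.cb (fun s hs h => ?_)
      obtain rfl | rfl : s = C.sA y ∨ s = C.sB y := by grind
      · exact ⟨s', by simp [n', n2, hs'], e'⟩
      · exact ⟨y, by simp, (C.hB.sl y).symm⟩
    · refine mab_move ?_ ?_
      · intro y' hy' hn u hu z hz e1 e2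
        obtain rfl : y' = y := by grind
        have := adj_cyc hy e1
        grind
      · intro y' hy' hn s hs hsS e1 z hz e2
        obtain rfl : y' = y := by grind
        have k := adj_cyc hy e1
        grind
    · refine mc_move ?_ ?_
      · intro y' hy' hn
        obtain rfl : y' = y := by grind
        exact ht
      · intro u hu v hv w _ h1 h2 h3
        grind
  have c1 := le_double C.hA.le3 C.hB.le3 hadm.ca hadm.cb (C.sA y)
  have c2 : NN C.a C.b (insert (C.sA y) (insert y ((C.S.erase (C.sA y)).erase (C.sB y))))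
      ≤ NN C.a C.b (insert y C.S) := by
    refine NN_le (fun Z hZ hd => ?_)
    have hd' : ∀ v ∈ Z, v ≠ y ∧ (v ∈ C.S → v = C.sB y) := by
      intro v hv
      have := disjoint_left.1 hd hv
      grind
    have hyZ : y ∉ Z := fun h => (hd' y h).1 rfl
    have k : C.B y ∉ Z := by
      refine walk hZ hy hyZ ?_ ?_
      · intro w k1 k2 k3 k4
        rcases C.hB.s_inj hy.b (nS (hy.of k1)) ((hd' _ k4).2 (C.hB.sS w)) with k | k
        · exact hyZ (k ▸ k3)
        · exact C.xB y hy.b (k ▸ k2)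
      · intro w k1 _ _ k4
        exact hB w (hy w k1).1 ((hd' _ k4).2 (C.hA.sS w))
    refine disjoint_left.2 (fun v hv hv' => ?_)
    obtain rfl : v = C.sB y := by have := hd' v hv; grind
    exact k (C.hB.step' (hZ _ hv).2 hy.b hyZ)
  have c3 := half hy
  obtain ⟨c4, c5⟩ := C.min _ hadm
  have c6 := c5 (by omega)
  rw [card_insert_of_notMem (by simp [a0]), card_erase_of_mem (by simp [a5, hne.symm]),
    card_erase_of_mem a6] at c6
  have c7 : 1 < C.S.card := one_lt_card.2 ⟨_, a5, _, a6, hne.symm⟩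
  omega

lemma KA {y : V} (hy : C.Cy y) (ht : ¬ C.T2 y) : C.K (C.sA y) := by
  by_contra h
  by_cases h' : C.K (C.sB y)
  · exact d1_one (C := C.swap) hy.swap ht (by rwa [K_swap]) (by rwa [K_swap])
  · exact d1_two hy ht h' h

lemma KB {y : V} (hy : C.Cy y) (ht : ¬ C.T2 y) : C.K (C.sB y) :=
  K_swap.1 (KA (C := C.swap) hy.swap ht)

end Cfg

end Pool.Agent.P.MP_e0c710_co
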