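import Mathlib
import Pool.Agent.P.MP_e0c710_co.Moves

set_option autoImplicit false
set_option linter.unusedSectionVars false

namespace Pool.Agent.P.MP_e0c710_co

open Finset

variable {V L : Type} [Fintype V] [DecidableEq V]

namespace Cfg

variable {C : Cfg V L}

/-- two cycle vertices sharing a port are distinct and not adjacent -/
lemma share {y r : V} (hy : C.Cy y) (hr : C.Cy r) (ty : ¬ C.T2 y) (tr : ¬ C.T2 r)
    (e : C.sA y = C.sB r) :
    y ≠ r ∧ r ≠ C.A y ∧ r ≠ C.B y ∧ y ≠ C.A r ∧ y ≠ C.B r := by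
  have d1 := d1_ne hy ty
  have d2 := d1_ne hr tr
  have k1 := C.hA.s_A hy.a
  have k2 := C.hB.s_A hy.b
  have k3 := C.hA.s_A hr.a
  have k4 := C.hB.s_A hr.b
  grind

lemma zm {y r : V} (hy : C.Cy y) (hr : C.Cy r) (ty : ¬ C.T2 y) (tr : ¬ C.T2 r)
    (e : C.sA y = C.sB r) (h4 : C.sB y ≠ C.sA r) (h2 : ¬ C.F2 y r)
    (hx : ¬ (C.R y r ∧ C.x y = C.x r)) : False := by
  obtain ⟨n1, n2, n3, n4, n5⟩ := share hy hr ty tr e
  have d1 := d1_ne hy ty
  have d2 := d1_ne hr tr
  have a0 := nS hy
  have a1 := nS (cyA hy)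
  have a2 := nS (cyB hy)
  have a3 := hy.a
  have a4 := hy.b
  have a5 := C.hB.sS y
  have a6 := C.hA.sS y
  have b0 := nS hr
  have b1 := nS (cyA hr)
  have b2 := nS (cyB hr)
  have b3 := hr.a
  have b4 := hr.b
  have b5 := C.hA.sS r
  refine not_better (S' := insert y (insert r (C.S.erase (C.sA y)))) ⟨?_, ?_, ?_, ?_⟩ hy ?_
  · refine cover_move C.adm.ca (fun s hs h => ⟨y, by simp, ?_⟩)
    obtain rfl : s = C.sA y := by grind
    exact (C.hA.sl y).symm
  · refine cover_move C.adm.cb (fun s hs h => ⟨r, by simp, ?_⟩)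
    obtain rfl : s = C.sB r := by grind
    exact (C.hB.sl r).symm
  · refine mab_move ?_ ?_
    · intro y' hy' hn u hu z hz e1 e2
      obtain rfl | rfl : y' = y ∨ y' = r := by grind
      · have := adj_cyc hy e1
        have := adj_cyc hy e2
        grind
      · have := adj_cyc hr e1
        have := adj_cyc hr e2
        grind
    · intro y' hy' hn s hs hsS e1 z hz e2
      obtain rfl | rfl : y' = y ∨ y' = r := by grind
      · have k := adj_cyc hy e1
        obtain rfl : s = C.sB y' := by grind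
        by_contra hc
        by_cases hz' : z = r
        · subst hz'
          have := adj_cyc hr e2.symm
          grind
        · exact KB hy ty z (by grind) e2
      · have k := adj_cyc hr e1
        obtain rfl : s = C.sA y' := by grind
        by_contra hc
        by_cases hz' : z = y
        · subst hz'
          have := adj_cyc hy e2.symm
          grind
        · exact KA hr tr z (by grind) e2
  · refine mc_move ?_ ?_
    · intro y' hy' hn
      obtain rfl | rfl : y' = y ∨ y' = r := by grind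
      · exact ty
      · exact tr
    · intro u hu v hv w hw k1 k2 k3 k4 k5 k6 k7
      exact h2 ⟨by grind, w, by grind, by grind, by grind⟩
  · intro Z hZ hd
    have hd' : ∀ v ∈ Z, v ≠ y ∧ v ≠ r ∧ (v ∈ C.S → v = C.sA y) := by
      intro v hv
      have := disjoint_left.1 hd hv
      grind
    have hyZ : y ∉ Z := fun h => (hd' y h).1 rfl
    have k : C.A y ∉ Z := by
      refine walk (C := C.swap) hZ.swap hy.swap hyZ ?_ ?_
      · intro w k1 k2 k3 k4
        rcases C.hA.s_inj hy.a (nS (hy.of k1.swap)) ((hd' _ k4).2.2 (C.hA.sS w)) with k | k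
        · exact hyZ (k ▸ k3)
        · exact C.xA y hy.a (k ▸ k2)
      · intro w k1 k2 k3 k4
        have k1' : C.R y w := k1.swap
        change C.x w ≠ C.x y at k2
        rcases C.hB.s_inj hr.b (nS (hy.of k1')) (((hd' _ k4).2.2 (C.hB.sS w)).trans e) with k | k
        · exact (hd' _ k3).2.1 k
        · subst k
          refine hx ⟨?_, ?_⟩
          · have := k1'.b
            rwa [C.hB.inv] at this
          · rw [xB' hr] at k2
            revert k2; cases C.x r <;> cases C.x y <;> simp
    refine disjoint_left.2 (fun v hv hv' => ?_)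
    obtain rfl : v = C.sA y := by have := hd' v hv; grind
    exact k (C.hA.step' (hZ _ hv).1 hy.a hyZ)

lemma mm {y r : V} (hy : C.Cy y) (hr : C.Cy r) (ty : ¬ C.T2 y) (tr : ¬ C.T2 r)
    (e : C.sA y = C.sB r) (h4 : C.sB y = C.sA r) (h2 : ¬ C.F2 y r) (hx : ¬ C.R y r) : False := by
  obtain ⟨n1, n2, n3, n4, n5⟩ := share hy hr ty tr e
  have d1 := d1_ne hy ty
  have a0 := nS hy
  have a1 := nS (cyA hy)
  have a2 := nS (cyB hy)
  have a3 := hy.a
  have a4 := hy.b
  have a5 := C.hB.sS y
  have a6 := C.hA.sS y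
  have b0 := nS hr
  have b1 := nS (cyA hr)
  have b2 := nS (cyB hr)
  have b3 := hr.a
  have b4 := hr.b
  have hadm : Adm C.a C.b C.c (insert y (insert r ((C.S.erase (C.sA y)).erase (C.sB y)))) := by
    refine ⟨?_, ?_, ?_, ?_⟩
    · refine cover_move C.adm.ca (fun s hs h => ?_)
      obtain rfl | rfl : s = C.sA y ∨ s = C.sA r := by grind
      · exact ⟨y, by simp, (C.hA.sl y).symm⟩
      · exact ⟨r, by simp, (C.hA.sl r).symm⟩
    · refine cover_move C.adm.cb (fun s hs h => ?_)
      obtain rfl | rfl : s = C.sB r ∨ s = C.sB y := by grind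
      · exact ⟨r, by simp, (C.hB.sl r).symm⟩
      · exact ⟨y, by simp, (C.hB.sl y).symm⟩
    · refine mab_move ?_ ?_
      · intro y' hy' hn u hu z hz e1 e2
        obtain rfl | rfl : y' = y ∨ y' = r := by grind
        · have := adj_cyc hy e1
          grind
        · have := adj_cyc hr e1
          grind
      · intro y' hy' hn s hs hsS e1 z hz e2
        obtain rfl | rfl : y' = y ∨ y' = r := by grind
        · have := adj_cyc hy e1
          grind
        · have := adj_cyc hr e1
          grind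
    · refine mc_move ?_ ?_
      · intro y' hy' hn
        obtain rfl | rfl : y' = y ∨ y' = r := by grind
        · exact ty
        · exact tr
      · intro u hu v hv w hw k1 k2 k3 k4 k5 k6 k7
        exact h2 ⟨by grind, w, by grind, by grind, by grind⟩
  have c1 := le_double C.hA.le3 C.hB.le3 hadm.ca hadm.cb (C.sA y)
  have c2 : NN C.a C.b (insert (C.sA y)
      (insert y (insert r ((C.S.erase (C.sA y)).erase (C.sB y)))))
      ≤ NN C.a C.b (insert y (insert r C.S)) := by
    refine NN_le (fun Z hZ hd => ?_)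
    have hd' : ∀ v ∈ Z, v ≠ y ∧ v ≠ r ∧ (v ∈ C.S → v = C.sB y) := by
      intro v hv
      have := disjoint_left.1 hd hv
      grind
    have hyZ : y ∉ Z := fun h => (hd' y h).1 rfl
    have k : C.B y ∉ Z := by
      refine walk hZ hy hyZ ?_ ?_
      · intro w k1 k2 k3 k4
        rcases C.hB.s_inj hy.b (nS (hy.of k1)) ((hd' _ k4).2.2 (C.hB.sS w)) with k | k
        · exact hyZ (k ▸ k3)
        · exact C.xB y hy.b (k ▸ k2)
      · intro w k1 _ _ k4
        rcases C.hA.s_inj hr.a (nS (hy.of k1)) (((hd' _ k4).2.2 (C.hA.sS w)).trans h4) with k | k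
        · exact hx (k ▸ k1)
        · subst k
          have := k1.a
          rw [C.hA.inv] at this
          exact hx this
    refine disjoint_left.2 (fun v hv hv' => ?_)
    obtain rfl : v = C.sB y := by have := hd' v hv; grind
    exact k (C.hB.step' (hZ _ hv).2 hy.b hyZ)
  have c3 := half hr
  have c4 : 2 * NN C.a C.b (insert y (insert r C.S)) ≤ NN C.a C.b (insert r C.S) := by
    refine half_le C.hA C.hB (subset_insert _ _) hy (fun t ht => ?_)
    rcases mem_insert.1 ht with rfl | ht
    · exact Or.inr hx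
    · exact Or.inl ht
  have c5 := (C.min _ hadm).1
  have c6 := NN_pos C.a C.b C.S
  omega

variable (C) in
/-- a long cycle none of whose vertices has two mates of the third colour in `S` -/
def Bad (y : V) : Prop := C.Cy y ∧ ∀ z, C.R y z → ¬ C.T2 z ∧ C.A z ≠ C.B z

lemma Bad.of {y z : V} (h : C.Bad y) (hz : C.R y z) : C.Bad z :=
  ⟨h.1.of hz, fun w hw => h.2 w (hz.trans hw)⟩

lemma Bad.swap {y : V} (h : C.Bad y) : C.swap.Bad y :=
  ⟨h.1.swap, fun z hz => ⟨(h.2 z hz.swap).1, (h.2 z hz.swap).2.symm⟩⟩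

lemma Bad.t2 {y : V} (h : C.Bad y) : ¬ C.T2 y := (h.2 y Reach.refl).1

lemma Bad.ne {y : V} (h : C.Bad y) : C.A y ≠ C.B y := (h.2 y Reach.refl).2

lemma Bad.a {y : V} (h : C.Bad y) : C.Bad (C.A y) := h.of Reach.refl.a

lemma Bad.b {y : V} (h : C.Bad y) : C.Bad (C.B y) := h.of Reach.refl.b

lemma privacy {y r : V} (hy : C.Bad y) (hr : C.Bad r) (e : C.sA y = C.sB r) : C.R y r := by
  by_contra hx
  have key : ∀ r, C.Bad r → C.sA y = C.sB r → ¬ C.R y r → C.F2 y r := by
    intro r hr e hx
    by_contra h2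
    by_cases h4 : C.sB y = C.sA r
    · exact mm hy.1 hr.1 hy.t2 hr.t2 e h4 h2 hx
    · exact zm hy.1 hr.1 hy.t2 hr.t2 e h4 h2 (fun h => hx h.1)
  have hx' : ¬ C.R y (C.B r) := by
    intro h
    have := h.b
    rw [C.hB.inv] at this
    exact hx this
  obtain ⟨k1, s, hs, -, k2⟩ := key r hr e hx
  obtain ⟨k3, -⟩ := key _ hr.b (e.trans (C.hB.s_A hr.1.b).symm) hx'
  have a0 := nS hy.1
  have b0 := nS hr.1
  have b1 := nS hr.b.1
  have b2 := hr.1.b
  rcases C.hc y r (C.B r) s k1.symm k3.symm k2 with k | k | k | k | k | k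
  · exact hx (k ▸ Reach.refl)
  · exact hx' (k ▸ Reach.refl)
  all_goals grind

variable (C) in
/-- a port joining two vertices of the same cycle -/
def Chord (y r : V) : Prop := C.Bad y ∧ C.R y r ∧ C.sA y = C.sB r ∧ C.x y ≠ C.x r

lemma Chord.bad {y r : V} (h : C.Chord y r) : C.Bad r := h.1.of h.2.1

lemma Chord.swap {y r : V} (h : C.Chord y r) : C.swap.Chord r y :=
  ⟨h.bad.swap, (R_symm h.2.1).swap, h.2.2.1.symm, h.2.2.2.symm⟩

lemma Chord.alt {y r : V} (h : C.Chord y r) : C.F2 y r ∨ C.sB y = C.sA r := by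
  by_contra hc
  push Not at hc
  exact zm h.1.1 h.bad.1 h.1.t2 h.bad.t2 h.2.2.1 hc.2 hc.1 (fun k => h.2.2.2 k.2)

lemma Chord.step {y r : V} (h : C.Chord y r) : C.Chord (C.A y) (C.B r) := by
  refine ⟨h.1.a, ((R_symm Reach.refl.a).trans h.2.1).b, ?_, ?_⟩
  · rw [C.hA.s_A h.1.1.a, C.hB.s_A h.bad.1.b, h.2.2.1]
  · rw [xA' h.1.1, xB' h.bad.1]
    simpa using h.2.2.2

lemma Chord.rev {y r : V} (h : C.Chord y r) (h4 : C.sB y = C.sA r) : C.Chord r y :=
  ⟨h.bad, R_symm h.2.1, h4.symm, h.2.2.2.symm⟩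

lemma tm {y r : V} (h : C.Chord y r) (h4 : C.sB y = C.sA r)
    (hn : C.sA (C.B r) ≠ C.sB (C.A r)) :
    (C.c y = C.c (C.A r) ∧ C.c y = C.c (C.B r)) ∨ C.F2' y (C.A r) ∨ C.F2' y (C.B r) ∨
      C.F2' (C.A r) (C.B r) := by
  by_contra hc
  push Not at hc
  obtain ⟨f1, f2, f3, f4⟩ := hc
  have hy := h.1
  have hr := h.bad
  have e := h.2.2.1
  have hp := hr.a
  have hq := hr.b
  have e1 : C.sA (C.A r) = C.sA r := C.hA.s_A hr.1.a
  have e2 : C.sB (C.B r) = C.sB r := C.hB.s_A hr.1.b
  have e3 : C.A (C.A r) = r := C.hA.inv r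
  have e4 : C.B (C.B r) = r := C.hB.inv r
  obtain ⟨n1, n2, n3, n4, n5⟩ := share hy.1 hr.1 hy.t2 hr.t2 e
  obtain ⟨-, m2, m3, m4, -⟩ := share hy.1 hq.1 hy.t2 hq.t2 (e.trans e2.symm)
  obtain ⟨-, l2, l3, l4, l5⟩ := share hp.1 hy.1 hp.t2 hy.t2 (e1.trans h4.symm)
  have d1 := d1_ne hy.1 hy.t2
  have d2 := d1_ne hp.1 hp.t2
  have d3 := d1_ne hq.1 hq.t2
  have a0 := nS hy.1
  have a1 := nS hy.a.1
  have a2 := nS hy.b.1
  have a3 := hy.1.a
  have a4 := hy.1.b
  have a5 := C.hB.sS y
  have a6 := C.hA.sS y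
  have b0 := nS hr.1
  have b1 := nS hp.1
  have b2 := nS hq.1
  have b3 := hr.1.a
  have b4 := hr.1.b
  have b5 := hr.ne
  have p1 := nS hp.b.1
  have p2 := hp.1.b
  have p3 := C.hB.sS (C.A r)
  have q1 := nS hq.a.1
  have q2 := hq.1.a
  have q3 := C.hA.sS (C.B r)
  have p4 : C.B (C.A r) ≠ C.B r := fun k => b3 (C.hB.A_inj k)
  have q4 : C.A (C.B r) ≠ C.A r := fun k => b4 (C.hA.A_inj k)
  have p5 : C.sB (C.A r) ≠ C.sB r := by
    intro k
    rcases C.hB.s_inj hr.1.b b1 k with k | k
    · exact b3 k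
    · exact b5 k
  have q5 : C.sA (C.B r) ≠ C.sA r := by
    intro k
    rcases C.hA.s_inj hr.1.a b2 k with k | k
    · exact b4 k
    · exact b5 k.symm
  refine not_better (S' := insert y (insert (C.A r) (insert (C.B r)
    ((C.S.erase (C.sA y)).erase (C.sB y))))) ⟨?_, ?_, ?_, ?_⟩ hy.1 ?_
  · refine cover_move C.adm.ca (fun s hs h => ?_)
    obtain rfl | rfl : s = C.sA y ∨ s = C.sA r := by grind
    · exact ⟨y, by simp, (C.hA.sl y).symm⟩
    · exact ⟨C.A r, by simp, (C.hA.lab r).trans (C.hA.sl r).symm⟩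
  · refine cover_move C.adm.cb (fun s hs h => ?_)
    obtain rfl | rfl : s = C.sB r ∨ s = C.sB y := by grind
    · exact ⟨C.B r, by simp, (C.hB.lab r).trans (C.hB.sl r).symm⟩
    · exact ⟨y, by simp, (C.hB.sl y).symm⟩
  · refine mab_move ?_ ?_
    · intro y' hy' hn u hu z hz k1 k2
      obtain rfl | rfl | rfl : y' = y ∨ y' = C.A r ∨ y' = C.B r := by grind
      · have := adj_cyc hy.1 k1
        grind
      · have := adj_cyc hp.1 k1
        have := adj_cyc hp.1 k2
        grind
      · have := adj_cyc hq.1 k1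
        have := adj_cyc hq.1 k2
        grind
    · intro y' hy' hn s hs hsS k1 z hz k2
      obtain rfl | rfl | rfl : y' = y ∨ y' = C.A r ∨ y' = C.B r := by grind
      · have := adj_cyc hy.1 k1
        grind
      · have k := adj_cyc hp.1 k1
        obtain rfl : s = C.sB (C.A r) := by grind
        by_contra hc
        by_cases hz' : z = y
        · subst hz'
          have := adj_cyc hy.1 k2.symm
          grind
        by_cases hz'' : z = C.B r
        · subst hz''
          have := adj_cyc hq.1 k2.symm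
          grind
        · exact KB hp.1 hp.t2 z (by grind) k2
      · have k := adj_cyc hq.1 k1
        obtain rfl : s = C.sA (C.B r) := by grind
        by_contra hc
        by_cases hz' : z = y
        · subst hz'
          have := adj_cyc hy.1 k2.symm
          grind
        by_cases hz'' : z = C.A r
        · subst hz''
          have := adj_cyc hp.1 k2.symm
          grind
        · exact KA hq.1 hq.t2 z (by grind) k2
  · refine mc_move ?_ ?_
    · intro y' hy' hn
      obtain rfl | rfl | rfl : y' = y ∨ y' = C.A r ∨ y' = C.B r := by grind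
      · exact hy.t2
      · exact hp.t2
      · exact hq.t2
    · intro u hu v hv w hw k1 k2 k3 k4 k5 k6 k7
      by_cases hwS : w ∈ C.S
      · have g : C.F2' u v := ⟨k6, w, hwS, k7⟩
        have g' := g.symm
        grind
      · grind
  · intro Z hZ hd
    have hd' : ∀ v ∈ Z, v ≠ y ∧ v ≠ C.A r ∧ v ≠ C.B r ∧
        (v ∈ C.S → v = C.sA y ∨ v = C.sB y) := by
      intro v hv
      have := disjoint_left.1 hd hv
      grind
    have hyZ : y ∉ Z := fun h => (hd' y h).1 rfl
    have hpZ : C.A r ∉ Z := fun h => (hd' _ h).2.1 rfl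
    have hqZ : C.B r ∉ Z := fun h => (hd' _ h).2.2.1 rfl
    have hx := h.2.2.2
    have x1 := xA' hy.1
    have x2 := xB' hy.1
    have x3 := xA' hr.1
    have x4 := xB' hr.1
    have k : C.A y ∉ Z := by
      intro hA
      have : C.A r ∈ Z ∨ C.A r = y := by
        refine rot hy.1 h.2.1.a (by grind) (fun w => w ∈ Z ∨ w = y) (Or.inr rfl) ?_
        intro w k1 k2 k3
        have hw := hy.of k1
        have x5 := xA' hw.1
        have k4 : C.A w ∈ Z := by
          rcases k3 with k3 | rfl
          · refine C.hA.step (hZ w k3).1 hw.1.a (fun k => ?_)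
            rcases (hd' _ k).2.2.2 (C.hA.sS w) with k | k
            · have := C.hA.s_inj hy.1.a (nS hw.1) k
              grind
            · have := C.hA.s_inj hr.1.a (nS hw.1) (k.trans h4)
              grind
          · exact hA
        by_cases k5 : C.A w = C.B y
        · right; rw [k5, C.hB.inv]
        · left
          refine C.hB.step (hZ _ k4).2 hw.a.1.b (fun k => ?_)
          rcases (hd' _ k).2.2.2 (C.hB.sS _) with k | k
          · rcases C.hB.s_inj hr.1.b (nS hw.a.1) (k.trans e) with k | k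
            · have k6 : w = C.A r := by rw [← k, C.hA.inv]
              grind
            · grind
          · have := C.hB.s_inj hy.1.b (nS hw.a.1) k
            grind
      grind
    have ks : C.sA y ∉ Z := fun hv => k (C.hA.step' (hZ _ hv).1 hy.1.a hyZ)
    have kr : r ∉ Z := fun hv => hqZ (C.hB.step (hZ _ hv).2 hr.1.b (e ▸ ks))
    have kt : C.sB y ∉ Z := by
      intro hv
      rw [h4] at hv
      exact hpZ (C.hA.step' (hZ _ hv).1 hr.1.a kr)
    refine disjoint_left.2 (fun v hv hv' => ?_)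
    have := hd' v hv
    grind

end Cfg

end Pool.Agent.P.MP_e0c710_co
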