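import Mathlib
import Pool.Agent.P.MP_e0c710_co.Moves2

set_option autoImplicit false
set_option linter.unusedSectionVars false

namespace Pool.Agent.P.MP_e0c710_co

open Finset

variable {V L : Type} [Fintype V] [DecidableEq V]

/-- three classes of `a` which are also three classes of `b`, crossing each other -/
def Grid (a b : V → L) : Prop :=
  ∃ (g : Fin 3 → Fin 3 → V) (la lb : Fin 3 → L), Function.Injective la ∧ Function.Injective lb ∧
    ∀ i j, a (g i j) = la i ∧ b (g i j) = lb j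

namespace Cfg

variable {C : Cfg V L}

variable (C) in
/-- a four-cycle that can be coloured last -/
def H6 (y r : V) : Prop :=
  C.Bad y ∧ C.R y r ∧ C.sA y = C.sB r ∧ C.F2' y r ∧ C.F2' (C.A y) (C.B r)

lemma non_mob {y r : V} (h : C.Chord y r) (h2 : C.F2' y r) (h4 : C.sB y ≠ C.sA r)
    (h4' : C.sB (C.A y) = C.sA (C.B r)) : C.F2' (C.A y) (C.A (C.B r)) := by
  have hy := h.1
  have hr := h.bad
  obtain ⟨f1, e, he, f2⟩ := h2
  have hx := h.2.2.2
  have x1 := xA' hy.1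
  have x2 := xB' hr.1
  have x3 := xA' hr.b.1
  have x4 := xB' hr.b.a.1
  have a0 := nS hy.1
  have b0 := nS hr.1
  have hfib : ∀ u, u ∉ C.S → C.c u = C.c r → u = y ∨ u = r := by
    intro u hu k
    have := C.hc y r e u f1.symm f2 (k.trans f1.symm)
    grind
  have hn : C.sA (C.B (C.B r)) ≠ C.sB (C.A (C.B r)) := by
    rw [C.hB.inv]
    intro k
    have hch : C.Chord r (C.B (C.A (C.B r))) :=
      ⟨hr, Reach.refl.b.a.b, by rw [C.hB.s_A hr.b.a.1.b]; exact k, by grind⟩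
    have key : C.B (C.A (C.B r)) = y := by
      rcases hch.alt with k2 | k2
      · have := hfib _ (nS hch.bad.1) k2.1.symm
        grind
      · have := C.hA.s_inj hy.1.a (nS hch.bad.1) (k2.symm.trans h.2.2.1.symm)
        grind
    apply h4
    rw [k, ← key, C.hB.s_A hr.b.a.1.b]
  have t := tm h.step h4' hn
  rw [C.hB.inv] at t
  have n1 := hfib _ (nS hy.a.1)
  have n2 := hfib _ (nS hr.b.a.1)
  have n3 := (share hy.1 hr.1 hy.t2 hr.t2 h.2.2.1).2.1
  have n4 := hy.1.a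
  have n5 : C.A (C.B r) ≠ r := fun k => hr.ne (by rw [← C.hA.inv (C.B r), k])
  rcases t with t | t | t | t
  · have := t.2; grind
  · exact t
  · have := t.1; grind
  · have := t.1; grind

lemma h6_of {y r : V} (h : C.Chord y r) (h2 : C.F2' y r) (h4 : C.sB y ≠ C.sA r)
    (h4' : C.sB (C.A y) = C.sA (C.B r)) : C.H6 (C.B r) (C.B (C.A y)) := by
  have k1 := non_mob h h2 h4 h4'
  have k2 : C.F2' (C.B r) (C.B (C.A y)) :=
    non_mob (C := C.swap) h.swap h2.symm h4.symm h4'.symm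
  refine ⟨h.bad.b, ((R_symm h.2.1.b).a).b, ?_, k2, ?_⟩
  · rw [C.hB.s_A h.1.a.1.b, h4']
  · rw [C.hB.inv]; exact k1.symm

lemma chord_f4 {y r : V} (h : C.Chord y r) (hn : ∀ u v, C.R y u → ¬ C.H6 u v) :
    C.sB y = C.sA r := by
  by_contra h4
  have h2 := (h.alt.resolve_right h4).weak
  rcases h.step.alt with k | k
  · exact hn y r Reach.refl ⟨h.1, h.2.1, h.2.2.1, h2, k.weak⟩
  · exact hn _ _ h.2.1.b (h6_of h h2 h4 k)

lemma Chord.uniq {y r r' : V} (h : C.Chord y r) (h' : C.Chord y r') : r' = r := by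
  have k := C.hB.s_inj h.bad.1.b (nS h'.bad.1) (h'.2.2.1.symm.trans h.2.2.1)
  have x1 := xB' h.bad.1
  have x2 := h.2.2.2
  have x3 := h'.2.2.2
  grind

lemma window {y0 : V} (hy : C.Bad y0) (t t' : V → V)
    (h1 : ∀ z, C.R y0 z → C.R y0 (t z) ∧ C.R y0 (t' z) ∧ C.x (t z) = C.x z ∧
      t (t' z) = z ∧ t' (t z) = z ∧ t' (t' z) = C.B (C.A z) ∧
      t z ≠ z ∧ t' z ≠ z ∧ t z ≠ t' z ∧ t (t z) ≠ t' z)
    (h2 : ∀ z, C.R y0 z → (C.c z = C.c (t z) ∧ C.c z = C.c (t' z)) ∨ C.F2' z (t z) ∨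
      C.F2' z (t' z) ∨ C.F2' (t z) (t' z)) : False := by
  have hS : ∀ z, C.R y0 z → z ∉ C.S := fun z hz => nS (hy.of hz).1
  have hfib : ∀ u v w, u ∉ C.S → v ∉ C.S → w ∉ C.S → u ≠ v → C.F2' u v → C.c w = C.c u →
      w = u ∨ w = v := by
    rintro u v w hu hv hw n ⟨f1, e, he, f2⟩ k
    have := C.hc u v e w f1.symm f2 k
    grind
  have hE : ∀ z, C.R y0 z → ¬ C.F2' (t z) (t' z) := by
    intro z hz hE
    obtain ⟨r1, r2, x1, i1, i2, i3, n1, n2, n3, n4⟩ := h1 z hz
    obtain ⟨r3, -, -, -, j2, j3, m1, -, -, m4⟩ := h1 _ r1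
    obtain ⟨-, r4, -, l1, -, l3, -, o2, o3, o4⟩ := h1 _ r2
    obtain ⟨-, -, -, -, -, q3, -⟩ := h1 _ r4
    have f := fun w hw => hfib _ _ w (hS _ r1) (hS _ r2) hw n3 hE
    have f1 := f z (hS z hz)
    have f2 := f _ (hS _ r3)
    have f3 := f _ (hS _ r4)
    have e1 : C.F2' (t (t z)) z := by
      rcases h2 _ r1 with k | k | k | k
      · have := k.2; grind
      · have := k.1; grind
      · have := k.1; grind
      · rwa [i2] at k
    have e2 : C.c (t' (t' z)) = C.c z := by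
      have := hE.1
      rcases h2 _ r2 with k | k | k | k
      · have := k.1; grind
      · have := k.1; grind
      · have := k.1; grind
      · rw [i1] at k; exact k.1.symm
    have n5 : t (t z) ≠ z := by grind
    have e3 := hfib _ _ _ (hS _ r3) (hS z hz) (hS _ r4) n5 e1 (e2.trans e1.1.symm)
    have e4 : t' (t' z) = t (t z) := by grind
    have : t z = z ∨ t z = t (t z) := by
      refine rot (hy.of hz).1 ((R_symm hz).trans r1) x1 (fun w => w = z ∨ w = t (t z))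
        (Or.inl rfl) ?_
      rintro w - - (rfl | rfl)
      · right; rw [← i3, e4]
      · left
        obtain ⟨-, -, -, -, -, s3, -⟩ := h1 _ r3
        rw [← s3, j2, i2]
    grind
  have hT : ∀ z, C.R y0 z → ¬ (C.c z = C.c (t z) ∧ C.c z = C.c (t' z)) := by
    rintro z hz ⟨k1, k2⟩
    obtain ⟨r1, r2, x1, i1, i2, i3, n1, n2, n3, n4⟩ := h1 z hz
    obtain ⟨r3, -, -, -, j2, j3, m1, -, -, m4⟩ := h1 _ r1
    have f : ∀ w, C.c w = C.c z → w = z ∨ w = t z ∨ w = t' z := by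
      intro w hw
      have := C.hc z (t z) (t' z) w k1.symm k2.symm hw
      grind
    have s1 := hS z hz
    have s2 := hS _ r1
    have s3 := hS _ r2
    rcases h2 _ r1 with k | k | k | k
    · have := f (t (t z)) (k.1.symm.trans k1.symm)
      grind
    · obtain ⟨-, e, he, k⟩ := k
      have := f e (k.trans k1.symm)
      grind
    · obtain ⟨-, e, he, k⟩ := k
      have := f e (k.trans k1.symm)
      grind
    · exact hE _ r1 k
  have hD : ∀ z, C.R y0 z → (C.F2' z (t z) ↔ ¬ C.F2' (t' z) (t (t' z))) := by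
    intro z hz
    obtain ⟨r1, r2, x1, i1, i2, i3, n1, n2, n3, n4⟩ := h1 z hz
    rw [i1]
    constructor
    · intro k k'
      have := hfib _ _ _ (hS z hz) (hS _ r1) (hS _ r2) n1.symm k k'.1
      grind
    · intro k
      rcases h2 z hz with k' | k' | k' | k'
      · exact absurd k' (hT z hz)
      · exact k'
      · exact absurd k'.symm k
      · exact absurd k' (hE z hz)
  obtain ⟨r1, r2, x1, i1, i2, i3, n1, n2, n3, n4⟩ := h1 y0 Reach.refl
  have : C.F2' (t y0) (t (t y0)) ↔ C.F2' y0 (t y0) := by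
    refine rot hy.1 r1 x1 (fun w => C.F2' w (t w) ↔ C.F2' y0 (t y0)) Iff.rfl ?_
    intro w hw _ k
    obtain ⟨-, s2, -, -, -, s3, -⟩ := h1 w hw
    have k1 := hD w hw
    have k2 := hD _ s2
    rw [← s3, ← k]
    tauto
  have k := hD _ r1
  rw [i2] at k
  tauto

lemma mobius {y0 r0 : V} (h0 : C.Chord y0 r0) (hn : ∀ u v, C.R y0 u → ¬ C.H6 u v) :
    Grid C.a C.b := by
  classical
  have hy := h0.1
  have f4 : ∀ z r, C.R y0 z → C.Chord z r → C.sB z = C.sA r :=
    fun z r hz h => chord_f4 h (fun u v hu => hn u v (hz.trans hu))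
  have hex : ∀ z, C.R y0 z → ∃ r, C.Chord z r := by
    intro z hz
    induction hz with
    | refl => exact ⟨r0, h0⟩
    | a _ ih => obtain ⟨r, h⟩ := ih; exact ⟨_, h.step⟩
    | @b w hw ih =>
      obtain ⟨r, h⟩ := ih
      have h1 := (h.rev (f4 w r hw h)).step
      exact ⟨_, h1.rev (f4 _ _ (hw.trans h.2.1).a h1)⟩
  let m : V → V := fun z => if h : ∃ r, C.Chord z r then h.choose else z
  have hm : ∀ z, C.R y0 z → C.Chord z (m z) := by
    intro z hz
    have h := hex z hz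
    simp only [m, dif_pos h]
    exact h.choose_spec
  have hR : ∀ z, C.R y0 z → C.R y0 (m z) := fun z hz => hz.trans (hm z hz).2.1
  have hmm : ∀ z, C.R y0 z → m (m z) = z :=
    fun z hz => ((hm z hz).rev (f4 _ _ hz (hm z hz))).uniq (hm _ (hR z hz))
  have hmA : ∀ z, C.R y0 z → m (C.A z) = C.B (m z) :=
    fun z hz => (hm z hz).step.uniq (hm _ hz.a)
  have hmB : ∀ z, C.R y0 z → m (C.B z) = C.A (m z) := by
    intro z hz
    have h1 := ((hm z hz).rev (f4 _ _ hz (hm z hz))).step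
    exact (h1.rev (f4 _ _ (hR z hz).a h1)).uniq (hm _ hz.b)
  have hG : ∀ z, C.R y0 z → C.sA (C.B (m z)) = C.sB (C.A z) ∧ C.sB (C.A (m z)) = C.sA (C.B z) := by
    intro z hz
    constructor
    · rw [(hm _ (hR z hz).b).2.2.1, hmB _ (hR z hz), hmm z hz]
    · rw [f4 _ _ (hR z hz).a (hm _ (hR z hz).a), hmA _ (hR z hz), hmm z hz]
  by_cases hg : ∃ z, C.R y0 z ∧ C.sA (C.B (m z)) = C.sB (C.A (m z))
  · obtain ⟨z, hz, e⟩ := hg
    have hz' := hy.of hz
    have hp := (hm z hz).bad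
    obtain ⟨g1, g2⟩ := hG z hz
    have e1 := (hm z hz).2.2.1
    have e2 := f4 _ _ hz (hm z hz)
    have hx := (hm z hz).2.2.2
    have k1 : C.A (m z) = C.B (C.A z) := by
      rcases C.hB.s_inj hz'.a.1.b (nS hp.a.1) (e.symm.trans g1) with k | k
      · exact absurd (congrArg C.x (C.hA.A_inj k)).symm hx
      · exact k
    have k2 : C.B (m z) = C.A (C.B z) := by
      rcases C.hA.s_inj hz'.b.1.a (nS hp.b.1) (e.trans g2) with k | k
      · exact absurd (congrArg C.x (C.hB.A_inj k)).symm hx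
      · exact k
    have d1 := d1_ne hz'.1 hz'.t2
    have d2 := d1_ne hp.a.1 hp.a.t2
    have d3 := d1_ne hp.b.1 hp.b.t2
    rw [C.hA.s_A hp.1.a] at d2
    rw [C.hB.s_A hp.1.b] at d3
    have la : ∀ u v, C.A u ≠ u → C.sA u ≠ C.sA v → C.a u ≠ C.a v :=
      fun u v hu n k => n (C.hA.fibS hu ((C.hA.sl v).trans k.symm) (C.hA.sS v)).symm
    have lb : ∀ u v, C.B u ≠ u → C.sB u ≠ C.sB v → C.b u ≠ C.b v :=
      fun u v hu n k => n (C.hB.fibS hu ((C.hB.sl v).trans k.symm) (C.hB.sS v)).symm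
    have a1 := la z (m z) hz'.1.a (by grind)
    have a2 := la z (C.B (m z)) hz'.1.a (by grind)
    have a3 := la (m z) (C.B (m z)) hp.1.a (by grind)
    have b1 := lb z (C.A (m z)) hz'.1.b (by grind)
    have b2 := lb z (m z) hz'.1.b (by grind)
    have b3 := lb (C.A (m z)) (m z) hp.a.1.b (by grind)
    refine ⟨![![z, C.A z, C.sA z], ![C.sB z, C.A (m z), m z],
      ![C.B z, C.sA (C.B (m z)), C.B (m z)]], ![C.a z, C.a (m z), C.a (C.B (m z))],
      ![C.b z, C.b (C.A (m z)), C.b (m z)], ?_, ?_, ?_⟩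
    · intro i j hij
      fin_cases i <;> fin_cases j <;> simp_all
    · intro i j hij
      fin_cases i <;> fin_cases j <;> simp_all
    · have l1 := C.hA.lab
      have l2 := C.hA.sl
      have l3 := C.hB.lab
      have l4 := C.hB.sl
      intro i j
      fin_cases i <;> fin_cases j <;> simp <;> grind
  · exfalso
    push Not at hg
    refine window hy (fun z => C.A (m z)) (fun z => C.B (m z)) (fun z hz => ?_)
      (fun z hz => tm (hm z hz) (f4 _ _ hz (hm z hz)) (hg z hz))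
    have hz' := hy.of hz
    have hp := (hm z hz).bad
    have r := hR z hz
    obtain ⟨-, -, -, n4, n5⟩ := share hz'.1 hp.1 hz'.t2 hp.t2 (hm z hz).2.2.1
    have hx := (hm z hz).2.2.2
    have x1 := xA' hp.1
    refine ⟨r.a, r.b, by grind, ?_, ?_, ?_, n4.symm, n5.symm, hp.ne, ?_⟩
    · rw [hmB _ r, hmm z hz, C.hA.inv]
    · rw [hmA _ r, hmm z hz, C.hB.inv]
    · rw [hmB _ r, hmm z hz]
    · rw [hmA _ r, hmm z hz]
      intro k
      apply hg z hz
      rw [← k, C.hA.s_A hz'.b.1.a, (hG z hz).2]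

lemma chord_h6 (hg : ¬ Grid C.a C.b) {y z w : V} (hy : C.Bad y) (hz : C.R y z) (hw : C.R y w)
    (e : C.sA z = C.sB w) : ∃ u v, C.R y u ∧ C.H6 u v := by
  by_contra hc
  push Not at hc
  have hn : ∀ u v, C.R z u → ¬ C.H6 u v := fun u v hu => hc u v (hz.trans hu)
  have hzw := (R_symm hz).trans hw
  by_cases hx : C.x z = C.x w
  · refine hg (mobius (r0 := C.B w) ⟨hy.of hz, hzw.b, ?_, ?_⟩ hn)
    · rw [C.hB.s_A (hy.of hw).1.b, e]
    · rw [xB' (hy.of hw).1, hx]; simp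
  · exact hg (mobius ⟨hy.of hz, hzw, e, hx⟩ hn)

end Cfg

end Pool.Agent.P.MP_e0c710_co
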