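import Mathlib
import Pool.Agent.P.MP_e0c710_co.Mobius
import Pool.Agent.P.MP_e0c710_co.Hinge

set_option autoImplicit false
set_option linter.unusedSectionVars false

namespace Pool.Agent.P.MP_e0c710_co

open Finset

variable {V L : Type} [Fintype V] [DecidableEq V]

namespace Cfg

variable {C : Cfg V L}

variable (C) in
/-- a chordless bad cycle -/
def CL (y : V) : Prop := C.Bad y ∧ ∀ z w, C.R y z → C.R y w → C.sA z ≠ C.sB w

lemma CL.of {y z : V} (h : C.CL y) (hz : C.R y z) : C.CL z :=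
  ⟨h.1.of hz, fun u v hu hv => h.2 u v (hz.trans hu) (hz.trans hv)⟩

lemma CL.ne {y r : V} (h : C.CL y) (hr : C.CL r) : C.sA y ≠ C.sB r :=
  fun e => h.2 y r Reach.refl (privacy h.1 hr.1 e) e

lemma sA_reach {y r : V} (h : C.Cy y) (hr : C.Cy r) (e : C.sA r = C.sA y) : C.R y r := by
  rcases C.hA.s_inj h.a (nS hr) e with k | k <;> rw [k]
  · exact Reach.refl
  · exact Reach.refl.a

lemma sB_reach {y r : V} (h : C.Cy y) (hr : C.Cy r) (e : C.sB r = C.sB y) : C.R y r :=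
  (sA_reach (C := C.swap) h.swap hr.swap e).swap

lemma ports_ne {y r : V} (h : C.Cy y) (hr : C.Cy r) (hx : C.x r = C.x y) (n : r ≠ y) :
    C.sA r ≠ C.sA y ∧ C.sB r ≠ C.sB y := by
  constructor
  · intro e
    rcases C.hA.s_inj h.a (nS hr) e with k | k
    · exact n k
    · exact C.xA y h.a (k ▸ hx)
  · intro e
    rcases C.hB.s_inj h.b (nS hr) e with k | k
    · exact n k
    · exact C.xB y h.b (k ▸ hx)

/-- the pairing of six consecutive ports -/
def Pr0 (s0 s1 s2 s3 s4 s5 : V) (q : Prop) (u v : V) : Prop :=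
  (u = s0 ∧ v = s2) ∨ (u = s2 ∧ v = s0) ∨ (q ∧ ((u = s1 ∧ v = s3) ∨ (u = s3 ∧ v = s1))) ∨
    (¬ q ∧ ((u = s3 ∧ v = s5) ∨ (u = s5 ∧ v = s3) ∨ (u = s1 ∧ v = s4) ∨ (u = s4 ∧ v = s1)))

lemma pr0_mat {s0 s1 s2 s3 s4 s5 : V} {q : Prop} (h02 : s0 ≠ s2) (h13 : s1 ≠ s3) (h24 : s2 ≠ s4)
    (h35 : s3 ≠ s5) (h04 : ¬ q → s0 ≠ s4) (h15 : ¬ q → s1 ≠ s5)
    (h : ∀ u v, u = s1 ∨ u = s3 ∨ u = s5 → v = s0 ∨ v = s2 ∨ v = s4 → u ≠ v) :
    Mat (Pr0 s0 s1 s2 s3 s4 s5 q) := by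
  have a1 := h s1 s0 (by simp) (by simp)
  have a2 := h s1 s2 (by simp) (by simp)
  have a3 := h s1 s4 (by simp) (by simp)
  have a4 := h s3 s0 (by simp) (by simp)
  have a5 := h s3 s2 (by simp) (by simp)
  have a6 := h s3 s4 (by simp) (by simp)
  have a7 := h s5 s0 (by simp) (by simp)
  have a8 := h s5 s2 (by simp) (by simp)
  have a9 := h s5 s4 (by simp) (by simp)
  clear h
  refine ⟨?_, ?_, ?_⟩ <;> unfold Pr0 <;> grind

variable (C) in
/-- two steps along the cycle -/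
def nx (y : V) : V := C.B (C.A y)

variable (C) in
/-- the pairing at a base point -/
def Pr (y : V) : V → V → Prop :=
  Pr0 (C.sB y) (C.sA y) (C.sB (C.nx y)) (C.sA (C.nx y)) (C.sB (C.nx (C.nx y)))
    (C.sA (C.nx (C.nx y))) (C.nx (C.nx y) = y)

lemma nx_R (y : V) : C.R y (C.nx y) := Reach.refl.a.b

lemma nx_x {y : V} (h : C.Cy y) : C.x (C.nx y) = C.x y := by
  unfold nx
  rw [xB' (cyA h), xA' h, Bool.not_not]

lemma nx_ne {y : V} (h : C.Bad y) : C.nx y ≠ y := by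
  intro e
  apply h.ne
  rw [← C.hB.inv (C.A y)]
  exact congrArg C.B e

lemma pr_mat {y : V} (h : C.CL y) : Mat (C.Pr y) := by
  have r2 := nx_R (C := C) y
  have r4 := r2.trans (nx_R (C.nx y))
  have c2 := h.of r2
  have c4 := h.of r4
  have p1 := ports_ne h.1.1 c2.1.1 (nx_x h.1.1) (nx_ne h.1)
  have p2 := ports_ne c2.1.1 c4.1.1 (nx_x c2.1.1) (nx_ne c2.1)
  have p3 := ports_ne h.1.1 c4.1.1 ((nx_x c2.1.1).trans (nx_x h.1.1))
  refine pr0_mat p1.2.symm p1.1.symm p2.2.symm p2.1.symm (fun k => (p3 k).2.symm)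
    (fun k => (p3 k).1.symm) ?_
  rintro u v (rfl | rfl | rfl) (rfl | rfl | rfl) <;> apply CL.ne <;> assumption

lemma pr_port {y u v : V} (h : C.Pr y u v) : ∃ z, C.R y z ∧ (u = C.sA z ∨ u = C.sB z) := by
  have r0 : C.R y y := Reach.refl
  have r2 := nx_R (C := C) y
  have r4 := r2.trans (nx_R (C.nx y))
  rcases h with ⟨k, -⟩ | ⟨k, -⟩ | ⟨-, ⟨k, -⟩ | ⟨k, -⟩⟩ | ⟨-, ⟨k, -⟩ | ⟨k, -⟩ | ⟨k, -⟩ | ⟨k, -⟩⟩
  · exact ⟨_, r0, Or.inr k⟩
  · exact ⟨_, r2, Or.inr k⟩
  · exact ⟨_, r0, Or.inl k⟩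
  · exact ⟨_, r2, Or.inl k⟩
  · exact ⟨_, r2, Or.inl k⟩
  · exact ⟨_, r4, Or.inl k⟩
  · exact ⟨_, r0, Or.inl k⟩
  · exact ⟨_, r4, Or.inr k⟩

lemma pr_cand {y : V} (h : C.CL y) {φ : V → Bool} (hφ : ∀ u v, C.Pr y u v → φ u ≠ φ v) :
    ∃ z, C.R y z ∧ φ (C.sA z) = false ∧ φ (C.sB z) = false := by
  have r0 : C.R y y := Reach.refl
  have r2 := nx_R (C := C) y
  have r4 := r2.trans (nx_R (C.nx y))
  have c2 := h.of r2
  have e1 : C.sA (C.A y) = C.sA y := C.hA.s_A h.1.1.a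
  have e2 : C.sB (C.A y) = C.sB (C.nx y) := (C.hB.s_A h.1.a.1.b).symm
  have e3 : C.sA (C.A (C.nx y)) = C.sA (C.nx y) := C.hA.s_A c2.1.1.a
  have e4 : C.sB (C.A (C.nx y)) = C.sB (C.nx (C.nx y)) := (C.hB.s_A c2.1.a.1.b).symm
  by_contra hc
  push Not at hc
  have k0 := hc _ r0
  have k1 := hc _ r0.a
  have k2 := hc _ r2
  have k3 := hc _ r2.a
  have k4 := hc _ r4
  rw [e1, e2] at k1
  rw [e3, e4] at k3
  have f1 := hφ _ _ (Or.inl ⟨rfl, rfl⟩)
  by_cases q : C.nx (C.nx y) = y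
  · have f2 := hφ _ _ (Or.inr (Or.inr (Or.inl ⟨q, Or.inl ⟨rfl, rfl⟩⟩)))
    rw [q] at k3
    have key : ∀ s0 s1 s2 s3 : Bool, s0 ≠ s2 → s1 ≠ s3 → (s1 = false → s0 ≠ false) →
      (s1 = false → s2 ≠ false) → (s3 = false → s2 ≠ false) → (s3 = false → s0 ≠ false) →
      False := by decide
    exact key _ _ _ _ f1 f2 k0 k1 k2 k3
  · have f2 := hφ _ _ (Or.inr (Or.inr (Or.inr ⟨q, Or.inl ⟨rfl, rfl⟩⟩)))
    have f3 := hφ _ _ (Or.inr (Or.inr (Or.inr ⟨q, Or.inr (Or.inr (Or.inl ⟨rfl, rfl⟩))⟩)))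
    have key : ∀ s0 s1 s2 s3 s4 s5 : Bool, s0 ≠ s2 → s3 ≠ s5 → s1 ≠ s4 →
      (s1 = false → s0 ≠ false) → (s1 = false → s2 ≠ false) → (s3 = false → s4 ≠ false) →
      (s5 = false → s4 ≠ false) → False := by decide
    exact key _ _ _ _ _ _ f1 f2 f3 k0 k1 k3 k4

lemma port_reach {y z u : V} (hy : C.CL y) (hz : C.CL z) (h1 : u = C.sA y ∨ u = C.sB y)
    (h2 : u = C.sA z ∨ u = C.sB z) : C.R y z := by
  rcases h1 with h1 | h1 <;> rcases h2 with h2 | h2
  · exact sA_reach hy.1.1 hz.1.1 (h2.symm.trans h1)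
  · exact absurd (h1.symm.trans h2) (hy.ne hz)
  · exact absurd (h2.symm.trans h1) (hz.ne hy)
  · exact sB_reach hy.1.1 hz.1.1 (h2.symm.trans h1)

lemma exists_phi : ∃ φ : V → Bool, (∀ u v, HS C.a C.b C.c C.S u v → φ u ≠ φ v) ∧
    ∀ y, C.CL y → ∃ z, C.R y z ∧ φ (C.sA z) = false ∧ φ (C.sB z) = false := by
  classical
  let rep : V → V := fun y => @Classical.epsilon V ⟨y⟩ (fun z => C.R y z)
  have h1 : ∀ y, C.R y (rep y) := fun y => Classical.epsilon_spec ⟨y, Reach.refl⟩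
  have h2 : ∀ y z, C.R y z → rep y = rep z := by
    intro y z h
    have : (fun w => C.R y w) = (fun w => C.R z w) :=
      funext (fun w => propext ⟨fun k => (R_symm h).trans k, fun k => h.trans k⟩)
    simp only [rep, this]
  have hP : Mat (fun u v => ∃ y, C.CL y ∧ rep y = y ∧ C.Pr y u v) := by
    refine ⟨?_, ?_, ?_⟩
    · rintro u v ⟨y, k1, k2, k3⟩
      exact ⟨y, k1, k2, (pr_mat k1).1 _ _ k3⟩
    · rintro u ⟨y, k1, -, k3⟩
      exact (pr_mat k1).2.1 _ k3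
    · rintro u v w ⟨y, k1, k2, k3⟩ ⟨y', l1, l2, l3⟩
      obtain ⟨z, hz, e⟩ := pr_port k3
      obtain ⟨z', hz', e'⟩ := pr_port l3
      have : y = y' := by
        rw [← k2, ← l2]
        exact h2 _ _ ((hz.trans (port_reach (k1.of hz) (l1.of hz') e e')).trans (R_symm hz'))
      subst this
      exact (pr_mat k1).2.2 _ _ _ k3 l3
  obtain ⟨φ, hφ⟩ := two_match ((mat_ab C.adm.ab).union hP (by
    rintro u v w k ⟨y, k1, -, k3⟩
    obtain ⟨z, hz, rfl | rfl⟩ := pr_port k3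
    · exact KA (k1.of hz).1.1 (k1.of hz).1.t2 v k.2.1 k.2.2
    · exact KB (k1.of hz).1.1 (k1.of hz).1.t2 v k.2.1 k.2.2)) (mat_c C.adm.mc)
  refine ⟨φ, ?_, fun y hy => ?_⟩
  · rintro u v ⟨k1, k2, k3 | k3⟩
    · exact hφ u v (Or.inl (Or.inl ⟨k1, k2, k3⟩))
    · exact hφ u v (Or.inr ⟨k1, k2, k3⟩)
  · obtain ⟨z, hz, k⟩ := pr_cand (hy.of (h1 y)) (φ := φ) (fun u v k =>
      hφ u v (Or.inl (Or.inr ⟨rep y, hy.of (h1 y), (h2 _ _ (h1 y)).symm, k⟩)))
    exact ⟨z, (h1 y).trans hz, k⟩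

variable (C) in
/-- adjacency in any colour -/
def G (u v : V) : Prop := u ≠ v ∧ (C.a u = C.a v ∨ C.b u = C.b v ∨ C.c u = C.c v)

lemma G.symm {u v : V} (h : C.G u v) : C.G v u :=
  ⟨h.1.symm, h.2.imp Eq.symm (Or.imp Eq.symm Eq.symm)⟩

lemma two_part : ∃ (T : Finset V) (ψ : V → Bool), C.S ⊆ T ∧
    (∀ u ∈ T, ∀ v ∈ T, C.G u v → ψ u ≠ ψ v) ∧
    ∀ y, C.CL y → ∃ z, C.R y z ∧ (z ∈ T ∨
      ∃ e ∈ T, ∃ e' ∈ T, e ≠ e' ∧ C.c e = C.c z ∧ C.c e' = C.c z) := by
  classical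
  obtain ⟨φ, hφ, hc⟩ := exists_phi (C := C)
  obtain ⟨X, hX, hmax⟩ := exists_max_image (univ.filter (fun X : Finset V =>
    (∀ y ∈ X, C.CL y ∧ φ (C.sA y) = false ∧ φ (C.sB y) = false) ∧
    (∀ y ∈ X, ∀ y' ∈ X, C.R y y' → y = y') ∧ MC C.c (C.S ∪ X))) card
    ⟨∅, by simpa using C.adm.mc⟩
  simp only [mem_filter, mem_univ, true_and] at hX hmax
  obtain ⟨x1, x2, x3⟩ := hX
  have hXS : ∀ y ∈ X, y ∉ C.S := fun y hy => nS (x1 y hy).1.1.1
  obtain ⟨ψ, k1, k2, k3⟩ := hinge C.adm.ab x3 hXS (fun i => if i then C.sA else C.sB) hφ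
    (by
      intro i y _
      cases i
      · exact C.hB.sS y
      · exact C.hA.sS y)
    (by
      intro i y hy
      cases i
      · exact KB (x1 y hy).1.1.1 (x1 y hy).1.1.t2
      · exact KA (x1 y hy).1.1.1 (x1 y hy).1.1.t2)
    (by
      intro i y hy
      cases i
      · exact (x1 y hy).2.2
      · exact (x1 y hy).2.1)
    (by
      intro i j y hy y' hy' e
      have c1 := (x1 y hy).1
      have c2 := (x1 y' hy').1
      cases i <;> cases j
      · exact ⟨rfl, x2 y hy y' hy' (sB_reach c1.1.1 c2.1.1 e.symm)⟩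
      · exact absurd e.symm (c2.ne c1)
      · exact absurd e (c1.ne c2)
      · exact ⟨rfl, x2 y hy y' hy' (sA_reach c1.1.1 c2.1.1 e.symm)⟩) _ X subset_rfl rfl
  have key : ∀ y ∈ X, ∀ v ∈ C.S ∪ X, C.G y v → ψ y ≠ ψ v := by
    intro y hy v hv h
    have cy := (x1 y hy).1.1.1
    by_cases hc : C.c y = C.c v
    · exact (k2 y hy v hv h.1.symm hc.symm).symm
    · have hadj : Adj C.a C.b y v := ⟨h.1, by have := h.2; tauto⟩
      rcases adj_cyc cy hadj with e | e | e | e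
      · rcases mem_union.1 hv with hv | hv
        · exact absurd (e ▸ hv) (nS (cyA cy))
        · exact absurd (x2 y hy v hv (e ▸ Reach.refl.a)) h.1
      · rcases mem_union.1 hv with hv | hv
        · exact absurd (e ▸ hv) (nS (cyB cy))
        · exact absurd (x2 y hy v hv (e ▸ Reach.refl.b)) h.1
      · rw [e]; exact (k3 true y hy).symm
      · rw [e]; exact (k3 false y hy).symm
  refine ⟨C.S ∪ X, ψ, subset_union_left, ?_, ?_⟩
  · intro u hu v hv h
    rcases mem_union.1 hu with hu' | hu'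
    · rcases mem_union.1 hv with hv' | hv'
      · refine k1 u v ⟨hu', hv', ?_⟩
        rcases h.2 with e | e | e
        · exact Or.inl ⟨h.1, Or.inl e⟩
        · exact Or.inl ⟨h.1, Or.inr e⟩
        · exact Or.inr ⟨h.1, e⟩
      · exact (key v hv' u hu h.symm).symm
    · exact key u hu' v hv h
  · intro y hy
    by_cases hex : ∃ z ∈ X, C.R y z
    · obtain ⟨z, hz, r⟩ := hex
      exact ⟨z, r, Or.inl (mem_union_right _ hz)⟩
    · push Not at hex
      obtain ⟨z, r, p1, p2⟩ := hc y hy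
      refine ⟨z, r, Or.inr ?_⟩
      by_contra hn
      push Not at hn
      have hzX : z ∉ X := fun h => hex z h r
      have := hmax (insert z X) ⟨?_, ?_, ?_⟩
      · rw [card_insert_of_notMem hzX] at this
        omega
      · intro w hw
        rcases mem_insert.1 hw with rfl | hw
        · exact ⟨hy.of r, p1, p2⟩
        · exact x1 w hw
      · intro w hw w' hw' k
        rcases mem_insert.1 hw with rfl | hw1 <;> rcases mem_insert.1 hw' with rfl | hw2
        · rfl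
        · exact absurd (r.trans k) (hex _ hw2)
        · exact absurd (r.trans (R_symm k)) (hex _ hw1)
        · exact x2 w hw1 w' hw2 k
      · intro u hu v hv w hw e1 e2
        rw [union_insert, mem_insert] at hu hv hw
        by_contra hcon
        push Not at hcon
        obtain ⟨n1, n2, n3⟩ := hcon
        rcases hu with rfl | hu
        · exact hn v (hv.resolve_left n1.symm) w (hw.resolve_left n2.symm) n3 e1 e2
        rcases hv with rfl | hv
        · exact hn u hu w (hw.resolve_left n3.symm) n2 e1.symm (e2.trans e1.symm)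
        rcases hw with rfl | hw
        · exact hn u hu v hv n1 e2.symm (e1.trans e2.symm)
        · rcases x3 u hu v hv w hw e1 e2 with e | e | e <;> contradiction

lemma nbr {z w u : V} (hz : C.Cy z) (hw : w ∉ C.S) (n : z ≠ w) (h : C.F2' z w) (hu : u ∉ C.S)
    (g : C.G z u) : u = C.A z ∨ u = C.B z ∨ u = w := by
  have := nS hz
  have := g.1
  rcases g.2 with e | e | e
  · have := C.hA.fibR hz.a e.symm hu
    grind
  · have := C.hB.fibR hz.b e.symm hu
    grind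
  · obtain ⟨f1, s, hs, f2⟩ := h
    have := C.hc z w s u f1.symm f2 e.symm
    grind

set_option synthInstance.maxSize 1000 in
lemma c4 : ∀ f1 f2 f3 f4 : Fin 3, ∃ k1 k2 k3 k4 : Fin 3, k1 ≠ f1 ∧ k2 ≠ f2 ∧ k3 ≠ f3 ∧ k4 ≠ f4 ∧
    k1 ≠ k2 ∧ k2 ≠ k3 ∧ k3 ≠ k4 ∧ k4 ≠ k1 := by decide +kernel

lemma three_part (hg : ¬ Grid C.a C.b) {T : Finset V} (hT : C.S ⊆ T)
    (hCL : ∀ y, C.CL y → ∃ z, C.R y z ∧ (z ∈ T ∨
      ∃ e ∈ T, ∃ e' ∈ T, e ≠ e' ∧ C.c e = C.c z ∧ C.c e' = C.c z)) (n : ℕ) :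
    ∀ W : Finset V, Disjoint W T → W.card = n →
      ∃ col : V → Fin 3, ∀ u ∈ W, ∀ v ∈ W, C.G u v → col u ≠ col v := by
  classical
  induction n using Nat.strong_induction_on with
  | _ n ih =>
  intro W hW hn
  have hWT : ∀ v ∈ W, v ∉ T := fun v hv => disjoint_left.1 hW hv
  have hWS : ∀ v ∈ W, v ∉ C.S := fun v hv h => hWT v hv (hT h)
  by_cases h1 : ∃ v ∈ W, ∃ p q, ∀ u ∈ W, C.G v u → u = p ∨ u = q
  · obtain ⟨v, hv, p, q, h⟩ := h1
    obtain ⟨col, hc⟩ := ih _ (hn ▸ card_erase_lt_of_mem hv) (W.erase v)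
      (hW.mono_left (erase_subset _ _)) rfl
    have key : ∀ f1 f2 : Fin 3, ∃ k, k ≠ f1 ∧ k ≠ f2 := by decide
    obtain ⟨k, k1, k2⟩ := key (col p) (col q)
    have hk : ∀ u ∈ W, C.G v u → k ≠ col u := by
      intro u hu g
      rcases h u hu g with rfl | rfl
      · exact k1
      · exact k2
    refine ⟨fun u => if u = v then k else col u, fun u hu w hw g => ?_⟩
    by_cases e1 : u = v
    · subst e1
      simp only [if_true, if_neg g.1.symm]
      exact hk w hw g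
    · by_cases e2 : w = v
      · subst e2
        simp only [if_true, if_neg e1]
        exact (hk u hu g.symm).symm
      · simp only [if_neg e1, if_neg e2]
        exact hc u (mem_erase.2 ⟨e1, hu⟩) w (mem_erase.2 ⟨e2, hw⟩) g
  by_cases h2 : ∃ y r, C.H6 y r ∧ y ∈ W ∧ C.A y ∈ W ∧ C.B r ∈ W ∧ r ∈ W
  · obtain ⟨y, r, ⟨hy, hyr, e, f1, f2⟩, w1, w2, w3, w4⟩ := h2
    have hr := hy.of hyr
    have e1 : C.sA (C.A y) = C.sA y := C.hA.s_A hy.1.a
    have e2 : C.sB (C.B r) = C.sB r := C.hB.s_A hr.1.b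
    obtain ⟨n1, n2, n3, n4, n5⟩ := share hy.1 hr.1 hy.t2 hr.t2 e
    obtain ⟨-, m2, m3, m4, -⟩ := share hy.1 hr.b.1 hy.t2 hr.b.t2 (e.trans e2.symm)
    obtain ⟨-, -, l3, l4, -⟩ := share hy.a.1 hr.1 hy.a.t2 hr.t2 (e1.trans e)
    obtain ⟨-, -, o3, o4, -⟩ :=
      share hy.a.1 hr.b.1 hy.a.t2 hr.b.t2 (e1.trans (e.trans e2.symm))
    have a1 := hy.1.a
    have a2 := hr.1.b
    have a3 := hy.ne
    have a4 := hr.ne
    have a5 := hy.a.ne
    have a6 := hr.b.ne
    have a7 := hy.1.b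
    have a8 := hr.1.a
    have a9 := hy.a.1.b
    have a10 := hr.b.1.a
    have i1 := C.hA.inv y
    have i2 := C.hB.inv r
    have g1 := fun u hu => nbr hy.1 (nS hr.1) n1 f1 (u := u) (hWS u hu)
    have g2 := fun u hu => nbr hy.a.1 (nS hr.b.1) m2.symm f2 (u := u) (hWS u hu)
    have g3 := fun u hu => nbr hr.b.1 (nS hy.a.1) m2 f2.symm (u := u) (hWS u hu)
    have g4 := fun u hu => nbr hr.1 (nS hy.1) n1.symm f1.symm (u := u) (hWS u hu)
    obtain ⟨col, hc⟩ := ih _ (hn ▸ card_lt_card (filter_ssubset.2 ⟨y, w1, by simp⟩))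
      (W.filter (fun u => u ≠ y ∧ u ≠ C.A y ∧ u ≠ C.B r ∧ u ≠ r))
      (hW.mono_left (filter_subset _ _)) rfl
    obtain ⟨k1, k2, k3, k4, p1, p2, p3, p4, q1, q2, q3, q4⟩ :=
      c4 (col (C.B y)) (col (C.B (C.A y))) (col (C.A (C.B r))) (col (C.A r))
    let col' : V → Fin 3 := fun u => if u = y then k1 else if u = C.A y then k2 else
      if u = C.B r then k3 else if u = r then k4 else col u
    have v1 : col' y = k1 := by simp [col']
    have v2 : col' (C.A y) = k2 := by simp [col', a1]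
    have v3 : col' (C.B r) = k3 := by simp [col', n5.symm, m2]
    have v4 : col' r = k4 := by simp [col', n1.symm, n2, a2.symm]
    have v5 : ∀ u, u ≠ y → u ≠ C.A y → u ≠ C.B r → u ≠ r → col' u = col u := by
      intro u b1 b2 b3 b4
      simp [col', b1, b2, b3, b4]
    have v6 := v5 (C.B y) (by grind) (by grind) (by grind) (by grind)
    have v7 := v5 (C.B (C.A y)) (by grind) (by grind) (by grind) (by grind)
    have v8 := v5 (C.A (C.B r)) (by grind) (by grind) (by grind) (by grind)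
    have v9 := v5 (C.A r) (by grind) (by grind) (by grind) (by grind)
    have key : ∀ u, u = y ∨ u = C.A y ∨ u = C.B r ∨ u = r → ∀ w ∈ W, C.G u w →
        col' u ≠ col' w := by
      rintro u (rfl | rfl | rfl | rfl) w hw g
      · rcases g1 w hw g with rfl | rfl | rfl <;> grind
      · rcases g2 w hw g with rfl | rfl | rfl <;> grind
      · rcases g3 w hw g with rfl | rfl | rfl <;> grind
      · rcases g4 w hw g with rfl | rfl | rfl <;> grind
    refine ⟨col', fun u hu w hw g => ?_⟩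
    by_cases b1 : u = y ∨ u = C.A y ∨ u = C.B r ∨ u = r
    · exact key u b1 w hw g
    by_cases b2 : w = y ∨ w = C.A y ∨ w = C.B r ∨ w = r
    · exact (key w b2 u hu g.symm).symm
    push Not at b1 b2
    rw [v5 u b1.1 b1.2.1 b1.2.2.1 b1.2.2.2, v5 w b2.1 b2.2.1 b2.2.2.1 b2.2.2.2]
    exact hc u (mem_filter.2 ⟨hu, b1⟩) w (mem_filter.2 ⟨hw, b2⟩) g
  have hab : ∀ v ∈ W, ∀ u ∈ W, Adj C.a C.b v u → u = C.A v ∨ u = C.B v := by
    rintro v hv u hu ⟨k, e | e⟩
    · exact Or.inl (C.hA.eq u v (hWS v hv) (hWS u hu) k.symm e.symm).symm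
    · exact Or.inr (C.hB.eq u v (hWS v hv) (hWS u hu) k.symm e.symm).symm
  obtain ⟨col, hc⟩ := three_col C.c C.hc (Adj C.a C.b) (fun _ _ => Adj.symm)
    (fun _ h => h.1 rfl) W (by
      intro v hv p hp q hq r hr e1 e2 e3
      have := hab v hv p hp e1
      have := hab v hv q hq e2
      have := hab v hv r hr e3
      grind) (by
      intro Z hZ ⟨v, hv⟩
      by_contra hcon
      push Not at hcon
      have hZ' : ∀ u ∈ Z, C.A u ∈ Z ∧ C.B u ∈ Z ∧ C.A u ≠ u ∧ C.B u ≠ u ∧ C.A u ≠ C.B u := by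
        intro u hu
        obtain ⟨p, hp, q, hq, e1, e2, e3⟩ := hcon u hu
        have := hab u (hZ hu) p (hZ hp) e1
        have := hab u (hZ hu) q (hZ hq) e2
        have := e1.1
        have := e2.1
        grind
      have hR : ∀ z, C.R v z → z ∈ Z := by
        intro z hz
        induction hz with
        | refl => exact hv
        | a _ ih => exact (hZ' _ ih).1
        | b _ ih => exact (hZ' _ ih).2.1
      have hlow : ∀ z, C.R v z → ∀ e ∈ T, ∀ e' ∈ T, e ≠ e' → C.c e = C.c z → C.c e' = C.c z →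
          False := by
        intro z hz e he e' he' k1 k2 k3
        have hzW := hZ (hR z hz)
        refine h1 ⟨z, hzW, C.A z, C.B z, fun u hu g => ?_⟩
        by_cases hc : C.c z = C.c u
        · have := C.hc z e e' u k2 k3 hc.symm
          have := hWT z hzW
          have := hWT u hu
          have := g.1
          grind
        · exact hab z hzW u hu ⟨g.1, by have := g.2; tauto⟩
      have hbad : C.Bad v := by
        refine ⟨fun z hz => ⟨(hZ' z (hR z hz)).2.2.1, (hZ' z (hR z hz)).2.2.2.1⟩,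
          fun z hz => ⟨?_, (hZ' z (hR z hz)).2.2.2.2⟩⟩
        rintro ⟨e, he, e', he', k1, k2, k3⟩
        exact hlow z hz e (hT he) e' (hT he') k1 k2 k3
      by_cases hcl : C.CL v
      · obtain ⟨z, hz, k | ⟨e, he, e', he', k1, k2, k3⟩⟩ := hCL v hcl
        · exact hWT z (hZ (hR z hz)) k
        · exact hlow z hz e he e' he' k1 k2 k3
      · unfold CL at hcl
        push Not at hcl
        obtain ⟨z, w, hz, hw, e⟩ := hcl hbad
        obtain ⟨p, q, hp, h6⟩ := chord_h6 hg hbad hz hw e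
        have hq := hp.trans h6.2.1
        exact h2 ⟨p, q, h6, hZ (hR _ hp), hZ (hR _ hp.a), hZ (hR _ hq.b), hZ (hR _ hq)⟩)
  refine ⟨col, fun u hu v hv g => hc u hu v hv g.1 ?_⟩
  rcases g.2 with e | e | e
  · exact Or.inl ⟨g.1, Or.inl e⟩
  · exact Or.inl ⟨g.1, Or.inr e⟩
  · exact Or.inr e

theorem colour (hg : ¬ Grid C.a C.b) : ∃ col : V → Fin 5, ∀ u v, C.G u v → col u ≠ col v := by
  classical
  obtain ⟨T, ψ, h1, h2, h3⟩ := two_part (C := C)
  obtain ⟨col, hc⟩ := three_part hg h1 h3 _ Tᶜ disjoint_compl_left rfl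
  refine ⟨fun v => if v ∈ T then (if ψ v then 4 else 3) else Fin.castLE (by omega) (col v),
    fun u v g => ?_⟩
  have key : ∀ (p : Bool) (k : Fin 3), (if p then (4 : Fin 5) else 3) ≠ Fin.castLE (by omega) k := by
    decide
  by_cases hu : u ∈ T <;> by_cases hv : v ∈ T
  · simp only [if_pos hu, if_pos hv]
    have := h2 u hu v hv g
    revert this
    cases ψ u <;> cases ψ v <;> simp
  · simp only [if_pos hu, if_neg hv]
    exact key _ _
  · simp only [if_neg hu, if_pos hv]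
    exact (key _ _).symm
  · simp only [if_neg hu, if_neg hv]
    exact fun e => hc u (mem_compl.2 hu) v (mem_compl.2 hv) g (Fin.castLE_injective _ e)

end Cfg

end Pool.Agent.P.MP_e0c710_co
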