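import Mathlib
import Pool.Agent.P.MP_e0c710_co.K33Data

set_option autoImplicit false
set_option maxRecDepth 100000

namespace Pool.Agent.P.MP_e0c710_co.K33

open Finset

theorem kernel_col {V α : Type} [DecidableEq V] [DecidableEq α] [Inhabited α]
    (E : V → V → Prop) (out : V → Finset V)
    (hK : ∀ X : Finset V, ∃ K : Finset V, K ⊆ X ∧ (∀ u ∈ K, ∀ v ∈ K, ¬ E u v) ∧
      ∀ v ∈ X, v ∉ K → ∃ u ∈ K, u ∈ out v) (n : ℕ) :
    ∀ (U : Finset V) (L : V → Finset α), U.card = n →
      (∀ v ∈ U, (out v ∩ U).card < (L v).card) →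
      ∃ col : V → α, (∀ v ∈ U, col v ∈ L v) ∧ ∀ u ∈ U, ∀ v ∈ U, E u v → col u ≠ col v := by
  induction n using Nat.strong_induction_on with
  | _ n ih =>
  intro U L hU hL
  rcases U.eq_empty_or_nonempty with rfl | ⟨v0, hv0⟩
  · exact ⟨fun _ => default, by simp, by simp⟩
  obtain ⟨x, hx⟩ : (L v0).Nonempty := Finset.card_pos.1 (by have := hL v0 hv0; omega)
  obtain ⟨K, hKX, hind, hdom⟩ := hK (U.filter (fun v => x ∈ L v))
  have hKU : K ⊆ U := hKX.trans (filter_subset _ _)
  have hKne : K.Nonempty := by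
    by_cases h : v0 ∈ K
    · exact ⟨v0, h⟩
    · obtain ⟨u, hu, _⟩ := hdom v0 (mem_filter.2 ⟨hv0, hx⟩) h
      exact ⟨u, hu⟩
  have hlt : (U \ K).card < n := by
    rw [← hU, card_sdiff_of_subset hKU]
    have := hKne.card_pos
    have := card_le_card hKU
    omega
  obtain ⟨col, h1, h2⟩ := ih _ hlt (U \ K) (fun v => (L v).erase x) rfl (by
    intro v hv
    have hvU := (mem_sdiff.1 hv).1
    have hvK := (mem_sdiff.1 hv).2
    have := hL v hvU
    by_cases hxv : x ∈ L v
    · obtain ⟨u, hu, huo⟩ := hdom v (mem_filter.2 ⟨hvU, hxv⟩) hvK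
      have hss : out v ∩ (U \ K) ⊂ out v ∩ U := by
        refine (Finset.ssubset_iff_of_subset (inter_subset_inter_left sdiff_subset)).2
          ⟨u, mem_inter.2 ⟨huo, hKU hu⟩, ?_⟩
        simp [hu]
      have := card_lt_card hss
      rw [card_erase_of_mem hxv]
      omega
    · rw [erase_eq_of_notMem hxv]
      have : (out v ∩ (U \ K)).card ≤ (out v ∩ U).card :=
        card_le_card (inter_subset_inter_left sdiff_subset)
      omega)
  refine ⟨fun v => if v ∈ K then x else col v, ?_, ?_⟩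
  · intro v hv
    by_cases h : v ∈ K
    · simp only [if_pos h]; exact (mem_filter.1 (hKX h)).2
    · simp only [if_neg h]; exact mem_of_mem_erase (h1 v (mem_sdiff.2 ⟨hv, h⟩))
  · intro u hu v hv huv
    by_cases h : u ∈ K <;> by_cases h' : v ∈ K
    · exact absurd huv (hind u h v h')
    · simp only [if_pos h, if_neg h']
      exact (ne_of_mem_erase (h1 v (mem_sdiff.2 ⟨hv, h'⟩))).symm
    · simp only [if_neg h, if_pos h']
      exact ne_of_mem_erase (h1 u (mem_sdiff.2 ⟨hu, h⟩))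
    · simp only [if_neg h, if_neg h']
      exact h2 u (mem_sdiff.2 ⟨hu, h⟩) v (mem_sdiff.2 ⟨hv, h'⟩) huv

lemma force_eq (n : ℕ) (f : ℕ → ℕ) : force n f = f n := by cases n <;> rfl

lemma ite'_true (x y : ℕ) : ite' true x y = x := rfl
lemma ite'_false (x y : ℕ) : ite' false x y = y := rfl

lemma row_bit (m u : ℕ) (v : Fin 9) : (row m u).testBit v = m.testBit (9 * u + v) := by
  have h : row m u = (m >>> (9 * u)) &&& (2 ^ 9 - 1) := rfl
  rw [h, Nat.testBit_and, Nat.testBit_shiftRight, Nat.testBit_two_pow_sub_one]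
  simp

lemma row_big (m u v : ℕ) (h : (row m u).testBit v = true) : v < 9 := by
  have h' : row m u = (m >>> (9 * u)) &&& (2 ^ 9 - 1) := rfl
  rw [h', Nat.testBit_and, Nat.testBit_two_pow_sub_one] at h
  simp at h
  exact h.2

lemma pc_eq (r : ℕ) : pc r = (univ.filter (fun v : Fin 9 => r.testBit v = true)).card := by
  rw [Finset.card_filter]
  have h : ∀ v : Fin 9, (if r.testBit v = true then 1 else 0) = r / 2 ^ v.val % 2 := by
    intro v
    rw [← Nat.toNat_testBit]
    cases r.testBit v <;> rfl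
  simp only [h, Fin.sum_univ_succ, Fin.sum_univ_zero]
  simp [pc]
  omega

lemma ent_eq (E k : ℕ) : ent E k = (E.testBit k).toNat := by
  have h : ent E k = (E >>> k) &&& 1 := rfl
  rw [h, Nat.toNat_testBit, Nat.and_one_is_mod, Nat.shiftRight_eq_div_pow]

lemma colc_eq (D : ℕ) (v : Fin 9) :
    colc D v = (univ.filter (fun u : Fin 9 => (row D u).testBit v = true)).card := by
  rw [Finset.card_filter]
  have h : ∀ u : Fin 9, (if (row D u).testBit v = true then 1 else 0)
      = ent (D >>> v.val) (9 * u.val) := by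
    intro u
    rw [ent_eq, row_bit, Nat.testBit_shiftRight, add_comm]
    cases D.testBit (v + 9 * u) <;> rfl
  simp only [h, Fin.sum_univ_succ, Fin.sum_univ_zero]
  unfold colc
  rw [force_eq]
  have e : Nat.shiftRight D v = D >>> v.val := rfl
  rw [e]
  simp only [Nat.add_eq]
  simp
  omega

/-- same row or same column -/
def grid (u v : Fin 9) : Prop := u.val / 3 = v.val / 3 ∨ u.val % 3 = v.val % 3

instance : DecidableRel grid := fun u v => by unfold grid; infer_instance

lemma cells_ok : ∀ x ∈ cells, x.1 < 9 ∧ ∀ X < 512, x.2.testBit X = !(X.testBit x.1) := by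
  decide +kernel

lemma cells_all : ∀ i : Fin 9, ∃ x ∈ cells, x.1 = i := by decide +kernel

lemma kers_ok : ∀ x ∈ kers, x.2.1 < 9 ∧ x.2.2.1 < 9 ∧ x.2.2.2.1 < 9 ∧
    x.1.testBit x.2.1 = true ∧ x.1.testBit x.2.2.1 = true ∧ x.1.testBit x.2.2.2.1 = true ∧
    (∀ u : Fin 9, x.1.testBit u = true → u.val = x.2.1 ∨ u.val = x.2.2.1 ∨ u.val = x.2.2.2.1) ∧
    (∀ u v : Fin 9, x.1.testBit u = true → x.1.testBit v = true → u ≠ v → ¬ grid u v) ∧
    (∀ y ∈ cells, x.1.testBit y.1 = true → x.2.2.2.2 &&& y.2 = 0) := by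
  decide +kernel

lemma offs_ok : ∀ x ∈ offs, x.1 ≠ x.2 ∧ ¬ grid x.1 x.2 := by decide +kernel

lemma offs_all : ∀ u v : Fin 9, u ≠ v → ¬ grid u v → (u, v) ∈ offs ∨ (v, u) ∈ offs := by
  decide +kernel

lemma full_eq : full = 2 ^ 512 - 1 := by decide +kernel

lemma down_sound (S X : ℕ) (hX : X < 512) (h : (down S).testBit X = true) (i : Fin 9)
    (hi : X.testBit i = true) : S.testBit i = true := by
  have key : ∀ l : List (ℕ × ℕ),
      (List.rec full (fun x _ r => ite' (S.testBit x.1) r (Nat.land x.2 r)) l : ℕ).testBit X = true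
      → ∀ x ∈ l, S.testBit x.1 = true ∨ x.2.testBit X = true := by
    intro l
    induction l with
    | nil => simp
    | cons y t ih =>
      intro h x hx
      cases hS : S.testBit y.1
      · simp only [hS, ite'_false, Nat.land_eq, Nat.testBit_and, Bool.and_eq_true] at h
        rcases List.mem_cons.1 hx with rfl | hx
        · exact Or.inr h.1
        · exact ih h.2 x hx
      · simp only [hS, ite'_true] at h
        rcases List.mem_cons.1 hx with rfl | hx
        · exact Or.inl hS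
        · exact ih h x hx
  obtain ⟨x, hx, hxi⟩ := cells_all i
  rcases key cells h x hx with h1 | h1
  · rwa [hxi] at h1
  · have := (cells_ok x hx).2 X hX
    rw [hxi, hi, h1] at this
    exact absurd this (by simp)

lemma covAll_sound (m D X : ℕ) : ∀ l : List (ℕ × ℕ × ℕ × ℕ × ℕ),
    (covAll m D l).testBit X = true → X = 0 ∨ ∃ x ∈ l,
      row3 m x.2.1 x.2.2.1 x.2.2.2.1 &&& x.1 = 0 ∧ x.2.2.2.2.testBit X = true ∧
      (down (x.1 ||| row3 D x.2.1 x.2.2.1 x.2.2.2.1)).testBit X = true := by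
  intro l
  induction l with
  | nil =>
    intro h
    left
    have : (2 ^ 0 : ℕ).testBit X = true := h
    rw [Nat.testBit_two_pow] at this
    simpa [eq_comm] using this
  | cons y t ih =>
    intro h
    have e : covAll m D (y :: t) = ite' (Nat.beq (Nat.land (row3 m y.2.1 y.2.2.1 y.2.2.2.1) y.1) 0)
      (Nat.lor (Nat.land y.2.2.2.2 (force (Nat.lor y.1 (row3 D y.2.1 y.2.2.1 y.2.2.2.1)) down))
        (covAll m D t)) (covAll m D t) := rfl
    rw [e] at h
    cases hb : Nat.beq (Nat.land (row3 m y.2.1 y.2.2.1 y.2.2.2.1) y.1) 0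
    · rw [hb, ite'_false] at h
      rcases ih h with h | ⟨x, hx, h⟩
      · exact Or.inl h
      · exact Or.inr ⟨x, List.mem_cons_of_mem _ hx, h⟩
    · rw [hb, ite'_true, force_eq] at h
      simp only [Nat.lor_eq, Nat.land_eq, Nat.testBit_or, Nat.testBit_and, Bool.or_eq_true,
        Bool.and_eq_true] at h
      rcases h with h | h
      · exact Or.inr ⟨y, List.mem_cons_self, Nat.eq_of_beq_eq_true hb, h.1, h.2⟩
      · rcases ih h with h | ⟨x, hx, h⟩
        · exact Or.inl h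
        · exact Or.inr ⟨x, List.mem_cons_of_mem _ hx, h⟩

lemma degOk_sound (m D : ℕ) : ∀ l : List (ℕ × ℕ), degOk m D l ≠ 0 →
    ∀ x ∈ l, colc D x.1 ≤ 2 + pc (row m x.1) := by
  intro l
  induction l with
  | nil => simp
  | cons y t ih =>
    intro h x hx
    have e : degOk m D (y :: t) = ite' (Nat.ble (colc D y.1) (Nat.add 2 (force (row m y.1) pc)))
      (degOk m D t) 0 := rfl
    rw [e, force_eq] at h
    cases hb : Nat.ble (colc D y.1) (Nat.add 2 (pc (row m y.1)))
    · rw [hb] at h; exact absurd rfl h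
    · rw [hb, ite'_true] at h
      rcases List.mem_cons.1 hx with rfl | hx
      · exact Nat.le_of_ble_eq_true hb
      · exact ih h x hx

lemma opn_sound (m : ℕ) : ∀ l : List (Fin 9 × Fin 9), opn m l ≠ 0 →
    ∃ x ∈ l, row m x.1 &&& row m x.2 ≠ 0 ∧ (row m x.1).testBit x.2 = false := by
  intro l
  induction l with
  | nil => intro h; exact absurd rfl h
  | cons y t ih =>
    intro h
    have e : opn m (y :: t) = ite' (Nat.beq (Nat.land (row m y.1) (row m y.2)) 0) (opn m t)
      (ite' (Nat.beq (Nat.land (row m y.1) (Nat.pow 2 y.2)) 0) 1 (opn m t)) := rfl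
    rw [e] at h
    cases hb : Nat.beq (Nat.land (row m y.1) (row m y.2)) 0
    · rw [hb, ite'_false] at h
      cases hb' : Nat.beq (Nat.land (row m y.1) (Nat.pow 2 y.2)) 0
      · rw [hb', ite'_false] at h
        obtain ⟨x, hx, h⟩ := ih h
        exact ⟨x, List.mem_cons_of_mem _ hx, h⟩
      · refine ⟨y, List.mem_cons_self, Nat.ne_of_beq_eq_false hb, ?_⟩
        have h1 : row m y.1 &&& 2 ^ y.2.val = 0 := Nat.eq_of_beq_eq_true hb'
        have h2 := congrArg (fun z => Nat.testBit z y.2) h1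
        simpa [Nat.testBit_and, Nat.testBit_two_pow] using h2
    · rw [hb, ite'_true] at h
      obtain ⟨x, hx, h⟩ := ih h
      exact ⟨x, List.mem_cons_of_mem _ hx, h⟩

lemma low_sound (S : ℕ) : low S = 9 ∨ (low S < 9 ∧ S.testBit (low S) = true) := by
  have key : ∀ l : List (ℕ × ℕ), (∀ x ∈ l, x.1 < 9) →
      (List.rec 9 (fun x _ r => ite' (S.testBit x.1) x.1 r) l : ℕ) = 9 ∨
      ((List.rec 9 (fun x _ r => ite' (S.testBit x.1) x.1 r) l : ℕ) < 9 ∧
       S.testBit (List.rec 9 (fun x _ r => ite' (S.testBit x.1) x.1 r) l : ℕ) = true) := by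
    intro l
    induction l with
    | nil => simp
    | cons y t ih =>
      intro h
      cases hS : S.testBit y.1
      · simp only [hS, ite'_false]
        exact ih (fun x hx => h x (List.mem_cons_of_mem _ hx))
      · simp only [hS, ite'_true]
        exact Or.inr ⟨h y List.mem_cons_self, trivial⟩
  exact key cells (fun x hx => (cells_ok x hx).1)

lemma ins_bit (m : ℕ) (u v x y : Fin 9) : (row (ins m u v) x).testBit y = true ↔
    (row m x).testBit y = true ∨ (x = u ∧ y = v) ∨ (x = v ∧ y = u) := by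
  have e : ins m u v = (m ||| 2 ^ (9 * u.val + v.val)) ||| 2 ^ (9 * v.val + u.val) := rfl
  rw [row_bit, row_bit, e]
  simp only [Nat.testBit_or, Nat.testBit_two_pow, Bool.or_eq_true, decide_eq_true_eq, or_assoc,
    Fin.ext_iff]
  have := u.isLt; have := v.isLt; have := x.isLt; have := y.isLt
  refine or_congr Iff.rfl (or_congr ?_ ?_) <;> omega

/-- systems of distinct colours -/
def quads : List (ℕ × Fin 5 × Fin 5 × Fin 5 × Fin 5) :=
  [(266305, 0, 1, 2, 3), (139298, 1, 0, 3, 2), (66820, 2, 3, 0, 1), (34952, 3, 2, 1, 0), (532609,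
   0, 2, 3, 4), (278564, 2, 0, 4, 3), (132616, 3, 4, 0, 2), (37136, 4, 3, 2, 0), (147521, 0, 1, 4,
   2), (528418, 1, 0, 2, 4), (35332, 2, 4, 1, 0), (66704, 4, 2, 0, 1), (278658, 1, 2, 4, 3),
   (532548, 2, 1, 3, 4), (70152, 3, 4, 2, 1), (133392, 4, 3, 1, 2), (526593, 0, 3, 1, 4), (263682,
   1, 4, 0, 3), (81960, 3, 0, 4, 1), (41040, 4, 1, 3, 0), (74241, 0, 4, 3, 1), (49410, 1, 3, 4,
   0), (525384, 3, 1, 0, 4), (264240, 4, 0, 1, 3), (264321, 0, 2, 1, 3), (525442, 1, 2, 0, 4),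
   (36936, 3, 1, 2, 0), (69680, 4, 0, 2, 1), (147713, 0, 3, 4, 2), (49220, 2, 1, 4, 0), (73764, 2,
   0, 3, 1), (139778, 1, 4, 3, 2), (133633, 0, 4, 1, 2), (132354, 1, 3, 0, 2), (526596, 2, 3, 1,
   4), (266320, 4, 1, 2, 3), (82056, 3, 2, 4, 1), (528424, 3, 0, 2, 4), (263684, 2, 4, 0, 3),
   (41104, 4, 2, 3, 0), (35336, 3, 4, 1, 0), (66832, 4, 3, 0, 1), (278593, 0, 1, 4, 3), (532514,
   1, 0, 3, 4), (266753, 0, 4, 2, 3), (147528, 3, 1, 4, 2), (528642, 1, 3, 2, 4), (139312, 4, 0,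
   3, 2), (525572, 2, 3, 0, 4), (264708, 2, 4, 1, 3), (49288, 3, 2, 4, 0), (73872, 4, 2, 3, 1),
   (528449, 0, 1, 2, 4), (266274, 1, 0, 2, 3), (35076, 2, 3, 1, 0), (67076, 2, 4, 0, 1), (139329,
   0, 1, 3, 2), (82049, 0, 2, 4, 1), (69889, 0, 3, 2, 1), (147490, 1, 0, 4, 2), (41090, 1, 2, 3,
   0), (37378, 1, 4, 2, 0), (526372, 2, 0, 1, 4), (263236, 2, 1, 0, 3), (82180, 2, 3, 4, 1),
   (41476, 2, 4, 3, 0), (133160, 3, 0, 1, 2), (66696, 3, 2, 0, 1), (526472, 3, 2, 1, 4), (132176,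
   4, 1, 0, 2), (263312, 4, 2, 0, 3), (34960, 4, 2, 1, 0)]

/-- forbidden colours of the four cells -/
def fmask (x x' c1 c2 c3 c6 : ℕ) : ℕ :=
  Nat.lor (Nat.lor (Nat.lor (Nat.lor (Nat.lor (Nat.lor (Nat.lor (Nat.lor (Nat.lor (Nat.lor (Nat.lor (Nat.pow 2 x)
    (Nat.pow 2 c3))
    (Nat.pow 2 c1))
    (Nat.pow 2 (Nat.add 5 x')))
    (Nat.pow 2 (Nat.add 5 c3)))
    (Nat.pow 2 (Nat.add 5 c2)))
    (Nat.pow 2 (Nat.add 10 x')))
    (Nat.pow 2 (Nat.add 10 c6)))
    (Nat.pow 2 (Nat.add 10 c1)))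
    (Nat.pow 2 (Nat.add 15 x)))
    (Nat.pow 2 (Nat.add 15 c6)))
    (Nat.pow 2 (Nat.add 15 c2))

/-- search for a system avoiding the forbidden colours -/
noncomputable def srch (l : List (ℕ × Fin 5 × Fin 5 × Fin 5 × Fin 5)) (F : ℕ) : ℕ :=
  List.rec 0 (fun t _ r => ite' (Nat.beq (Nat.land t.1 F) 0) 1 r) l

lemma srch_sound (F : ℕ) : ∀ l, srch l F ≠ 0 → ∃ t ∈ l, t.1 &&& F = 0 := by
  intro l
  induction l with
  | nil => intro h; exact absurd rfl h
  | cons y t ih =>
    intro h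
    have e : srch (y :: t) F = ite' (Nat.beq (Nat.land y.1 F) 0) 1 (srch t F) := rfl
    rw [e] at h
    cases hb : Nat.beq (Nat.land y.1 F) 0
    · rw [hb, ite'_false] at h
      obtain ⟨x, hx, h⟩ := ih h
      exact ⟨x, List.mem_cons_of_mem _ hx, h⟩
    · exact ⟨y, List.mem_cons_self, Nat.eq_of_beq_eq_true hb⟩

lemma srch_ok : ∀ x x' c1 c2 c3 c6 : Fin 5, c1 ≠ c2 → c3 ≠ c6 →
    force (fmask x x' c1 c2 c3 c6) (srch quads) = 1 := by decide +kernel

lemma quads_ok : quads.all (fun t => t.1.testBit t.2.1 && t.1.testBit (5 + t.2.2.1) &&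
    t.1.testBit (10 + t.2.2.2.1) && t.1.testBit (15 + t.2.2.2.2) &&
    decide (t.2.2.1 ≠ t.2.1 ∧ t.2.2.2.1 ≠ t.2.1 ∧ t.2.2.2.1 ≠ t.2.2.1 ∧ t.2.2.2.2 ≠ t.2.1 ∧
      t.2.2.2.2 ≠ t.2.2.1 ∧ t.2.2.2.2 ≠ t.2.2.2.1)) = true := by decide +kernel

lemma sdr (x x' c1 c2 c3 c6 : Fin 5) (h1 : c1 ≠ c2) (h2 : c3 ≠ c6) :
    ∃ p : Fin 5, (p ≠ x ∧ p ≠ c3 ∧ p ≠ c1) ∧ ∃ q : Fin 5, (q ≠ x' ∧ q ≠ c3 ∧ q ≠ c2 ∧ q ≠ p) ∧
    ∃ r : Fin 5, (r ≠ x' ∧ r ≠ c6 ∧ r ≠ c1 ∧ r ≠ p ∧ r ≠ q) ∧
    ∃ s : Fin 5, s ≠ x ∧ s ≠ c6 ∧ s ≠ c2 ∧ s ≠ p ∧ s ≠ q ∧ s ≠ r := by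
  have h := srch_ok x x' c1 c2 c3 c6 h1 h2
  rw [force_eq] at h
  obtain ⟨⟨W, p, q, r, s⟩, ht, hz⟩ := srch_sound _ quads (by rw [h]; exact one_ne_zero)
  have hq := List.all_eq_true.1 quads_ok _ ht
  simp only [Bool.and_eq_true, decide_eq_true_eq] at hq
  obtain ⟨⟨⟨⟨b1, b2⟩, b3⟩, b4⟩, d1, d2, d3, d4, d5, d6⟩ := hq
  have hb : ∀ k, W.testBit k = true → (fmask x x' c1 c2 c3 c6).testBit k = false := by
    intro k hk
    have := congrArg (fun z => Nat.testBit z k) hz
    simpa [Nat.testBit_and, hk] using this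
  have e1 := hb _ b1
  have e2 := hb _ b2
  have e3 := hb _ b3
  have e4 := hb _ b4
  simp only [fmask, Nat.lor_eq, Nat.pow_eq, Nat.add_eq, Nat.testBit_or, Nat.testBit_two_pow,
    Bool.or_eq_false_iff, decide_eq_false_iff_not, Nat.add_left_cancel_iff, Fin.val_inj,
    and_assoc] at e1 e2 e3 e4
  obtain ⟨p1, p2, p3, -⟩ := e1
  obtain ⟨-, -, -, q1, q2, q3, -⟩ := e2
  obtain ⟨-, -, -, -, -, -, r1, r2, r3, -⟩ := e3
  obtain ⟨-, -, -, -, -, -, -, -, -, s1, s2, s3⟩ := e4
  exact ⟨p, ⟨Ne.symm p1, Ne.symm p2, Ne.symm p3⟩, q, ⟨Ne.symm q1, Ne.symm q2, Ne.symm q3, d1⟩, r,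
    ⟨Ne.symm r1, Ne.symm r2, Ne.symm r3, d2, d3⟩, s, Ne.symm s1, Ne.symm s2, Ne.symm s3, d4, d5, d6⟩

lemma avoid (F : Finset (Fin 5)) (h : F.card ≤ 2) (x y : Fin 5) : ∃ z, z ∉ F ∧ z ≠ x ∧ z ≠ y := by
  by_contra hc
  push Not at hc
  have : (univ : Finset (Fin 5)) ⊆ insert x (insert y F) := by
    intro z _
    by_cases h1 : z ∈ F
    · simp [h1]
    · by_cases h2 : z = x
      · simp [h2]
      · simp [hc z h1 h2]
  have h1 := card_le_card this
  have h2 := card_insert_le x (insert y F)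
  have h3 := card_insert_le y F
  simp at h1
  omega

lemma k4_std (Fb : Fin 9 → Finset (Fin 5)) (h2 : ∀ p, (Fb p).card ≤ 2)
    (h4 : (Fb 4).card ≤ 1) (h5 : (Fb 5).card ≤ 1) (h48 : Fb 8 = Fb 4) (h57 : Fb 7 = Fb 5) :
    ∃ col : Fin 9 → Fin 5, (∀ p, col p ∉ Fb p) ∧
      ∀ p q, p ≠ q → (grid p q ∨ (row k4m p).testBit q = true) → col p ≠ col q := by
  obtain ⟨c0, h0, -, -⟩ := avoid _ (h2 0) 0 0
  obtain ⟨c1, h1, h10, -⟩ := avoid _ (h2 1) c0 c0
  obtain ⟨c2, h2', h20, h21⟩ := avoid _ (h2 2) c0 c1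
  obtain ⟨c3, h3, h30, -⟩ := avoid _ (h2 3) c0 c0
  obtain ⟨c6, h6, h60, h63⟩ := avoid _ (h2 6) c0 c3
  obtain ⟨x, hx⟩ := Finset.card_le_one_iff_subset_singleton.1 h4
  obtain ⟨x', hx'⟩ := Finset.card_le_one_iff_subset_singleton.1 h5
  obtain ⟨p, ⟨p1, p2, p3⟩, q, ⟨q1, q2, q3, q4⟩, r, ⟨r1, r2, r3, r4, r5⟩, s, s1, s2, s3, s4, s5, s6⟩ :=
    sdr x x' c1 c2 c3 c6 h21.symm h63.symm
  refine ⟨![c0, c1, c2, c3, p, q, c6, r, s], ?_, ?_⟩
  · intro v
    fin_cases v
    · exact h0
    · exact h1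
    · exact h2'
    · exact h3
    · exact fun h => p1 (mem_singleton.1 (hx h))
    · exact fun h => q1 (mem_singleton.1 (hx' h))
    · exact h6
    · exact fun h => r1 (mem_singleton.1 (hx' (h57 ▸ h)))
    · exact fun h => s1 (mem_singleton.1 (hx (h48 ▸ h)))
  · have key : ∀ u v : Fin 9, u ≠ v → (grid u v ∨ (row k4m u).testBit v = true) →
        (u, v) ∈ ([(1, 0), (2, 0), (2, 1), (3, 0), (6, 0), (6, 3), (4, 3), (4, 1), (5, 3), (5, 2),
          (5, 4), (7, 6), (7, 1), (7, 4), (7, 5), (8, 6), (8, 2), (8, 4), (8, 5), (8, 7)] :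
            List (Fin 9 × Fin 9)) ∨
        (v, u) ∈ ([(1, 0), (2, 0), (2, 1), (3, 0), (6, 0), (6, 3), (4, 3), (4, 1), (5, 3), (5, 2),
          (5, 4), (7, 6), (7, 1), (7, 4), (7, 5), (8, 6), (8, 2), (8, 4), (8, 5), (8, 7)] :
            List (Fin 9 × Fin 9)) := by decide +kernel
    have key2 : ∀ z ∈ ([(1, 0), (2, 0), (2, 1), (3, 0), (6, 0), (6, 3), (4, 3), (4, 1), (5, 3),
          (5, 2), (5, 4), (7, 6), (7, 1), (7, 4), (7, 5), (8, 6), (8, 2), (8, 4), (8, 5), (8, 7)] :
            List (Fin 9 × Fin 9)), (![c0, c1, c2, c3, p, q, c6, r, s] : Fin 9 → Fin 5) z.1 ≠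
              (![c0, c1, c2, c3, p, q, c6, r, s] : Fin 9 → Fin 5) z.2 := by
      simp only [List.forall_mem_cons]
      exact ⟨h10, h20, h21, h30, h60, h63, p2, p3, q2, q3, q4, r2, r3, r4, r5, s2, s3, s4, s5, s6,
        by simp⟩
    intro u v huv h
    rcases key u v huv h with h | h
    · exact key2 _ h
    · exact (key2 _ h).symm

lemma perms_ok : ∀ π ∈ perms, (∀ u, π (π u) = u) ∧ ∀ u v, grid u v → grid (π u) (π v) := by
  have h : perms.all (fun π => decide ((∀ u, π (π u) = u) ∧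
      ∀ u v, grid u v → grid (π u) (π v))) = true := by decide +kernel
  intro π hπ
  exact of_decide_eq_true (List.all_eq_true.1 h π hπ)

section main

variable {L : Type} [DecidableEq L] (c : Fin 9 → L) (Fb : Fin 9 → Finset (Fin 5))

/-- the desired colouring -/
def Goal : Prop := ∃ col : Fin 9 → Fin 5, (∀ p, col p ∉ Fb p) ∧
  ∀ p q, p ≠ q → (grid p q ∨ c p = c q) → col p ≠ col q

/-- recorded pairs are mates -/
def Sub (m : ℕ) : Prop := ∀ u v : Fin 9, (row m u).testBit v = true → u ≠ v ∧ c u = c v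

/-- mates are recorded or still to be decided -/
def Sup (m : ℕ) (l : List (Fin 9 × Fin 9)) : Prop :=
  ∀ u v : Fin 9, u ≠ v → c u = c v → ¬ grid u v →
    (row m u).testBit v = true ∨ (u, v) ∈ l ∨ (v, u) ∈ l

variable {c Fb}

lemma deg_bound (hcard : ∀ p, (Fb p).card + (univ.filter (fun q => c q = c p)).card ≤ 3)
    {m : ℕ} (hs : Sub c m) (p : Fin 9) : (Fb p).card + pc (row m p) ≤ 2 := by
  have h := hcard p
  have : insert p (univ.filter (fun v : Fin 9 => (row m p).testBit v = true))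
      ⊆ univ.filter (fun q => c q = c p) := by
    intro v hv
    rcases mem_insert.1 hv with rfl | hv
    · simp
    · simp [(hs p v (mem_filter.1 hv).2).2]
  have h2 := card_le_card this
  have hn : p ∉ univ.filter (fun v : Fin 9 => (row m p).testBit v = true) :=
    fun hp => (hs p p (mem_filter.1 hp).2).1 rfl
  rw [card_insert_of_notMem hn, ← pc_eq] at h2
  omega

lemma kp_sound (hcard : ∀ p, (Fb p).card + (univ.filter (fun q => c q = c p)).card ≤ 3)
    {m D : ℕ} (hs : Sub c m) (hp : Sup c m []) (h : kp m D = true) : Goal c Fb := by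
  have hd : degOk m D cells ≠ 0 ∧ covAll m D kers = full := by
    unfold kp at h
    cases hb : Nat.beq (degOk m D cells) 0
    · rw [hb] at h
      exact ⟨Nat.ne_of_beq_eq_false hb, Nat.eq_of_beq_eq_true h⟩
    · rw [hb] at h
      exact absurd h (by simp)
  obtain ⟨col, h1, h2⟩ := kernel_col (fun p q : Fin 9 => p ≠ q ∧ (grid p q ∨ c p = c q))
    (fun v => univ.filter (fun u : Fin 9 => (row D u).testBit v = true)) (α := Fin 5) (by
      intro X
      let x := Nat.ofBits (fun i : Fin 9 => decide (i ∈ X))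
      have hx : x < 512 := Nat.ofBits_lt_two_pow _
      have hxb : ∀ i : Fin 9, x.testBit i = decide (i ∈ X) :=
        fun i => Nat.testBit_ofBits_lt _ _ i.isLt
      have hfull : (covAll m D kers).testBit x = true := by
        rw [hd.2, full_eq, Nat.testBit_two_pow_sub_one]; simpa using hx
      rcases covAll_sound m D x kers hfull with h0 | ⟨k, hk, k1, k2, k3⟩
      · refine ⟨∅, empty_subset _, by simp, ?_⟩
        intro v hv
        have := hxb v
        rw [h0] at this
        simp [hv] at this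
      · obtain ⟨a1, a2, a3, b1, b2, b3, he, hi, hu⟩ := kers_ok k hk
        refine ⟨univ.filter (fun u : Fin 9 => k.1.testBit u = true), ?_, ?_, ?_⟩
        · intro u hu'
          obtain ⟨y, hy, hyu⟩ := cells_all u
          have h3 := congrArg (fun z => Nat.testBit z x)
            (hu y hy (by rw [hyu]; exact (mem_filter.1 hu').2))
          simp only [Nat.testBit_and, k2, Bool.true_and, (cells_ok y hy).2 x hx, hyu, hxb] at h3
          simpa using h3
        · rintro u hu' v hv' ⟨huv, hE⟩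
          have hub := (mem_filter.1 hu').2
          have hvb := (mem_filter.1 hv').2
          have hng := hi u v hub hvb huv
          have hc : c u = c v := hE.resolve_left hng
          have hb : (row m u).testBit v = true := by
            simpa using hp u v huv hc hng
          have h3 := congrArg (fun z => Nat.testBit z v) k1
          simp only [row3, Nat.lor_eq, Nat.testBit_and, Nat.testBit_or, hvb, Bool.and_true,
            Nat.zero_testBit, Bool.or_eq_false_iff] at h3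
          rcases he u hub with e | e | e <;> rw [e] at hb <;> simp [hb] at h3
        · intro v hv hvK
          have h3 := down_sound _ x hx k3 v (by rw [hxb]; simpa using hv)
          have hvb : k.1.testBit v = false := by simpa using hvK
          simp only [row3, Nat.lor_eq, Nat.testBit_or, hvb, Bool.false_or, Bool.or_eq_true] at h3
          rcases h3 with (h3 | h3) | h3
          · exact ⟨⟨_, a1⟩, by simpa using b1, by simpa using h3⟩
          · exact ⟨⟨_, a2⟩, by simpa using b2, by simpa using h3⟩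
          · exact ⟨⟨_, a3⟩, by simpa using b3, by simpa using h3⟩)
    _ univ (fun v => (Fb v)ᶜ) rfl (by
      intro v _
      obtain ⟨x, hx, hxv⟩ := cells_all v
      have h1 := degOk_sound m D cells hd.1 x hx
      rw [hxv, colc_eq] at h1
      have h2 := deg_bound hcard hs v
      simp only [inter_univ, card_compl, Fintype.card_fin]
      omega)
  exact ⟨col, fun p => by simpa using h1 p (mem_univ _),
    fun p q hpq h => h2 p (mem_univ _) q (mem_univ _) ⟨hpq, h⟩⟩

lemma k4_sound (hcard : ∀ p, (Fb p).card + (univ.filter (fun q => c q = c p)).card ≤ 3)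
    (hFb : ∀ p q, c p = c q → Fb p = Fb q)
    {m : ℕ} (hs : Sub c m) (hp : Sup c m []) (h : k4 m = true) : Goal c Fb := by
  unfold k4 at h
  obtain ⟨π, hπ, h⟩ := List.any_eq_true.1 h
  have h := of_decide_eq_true h
  obtain ⟨hinv, hgrid⟩ := perms_ok π hπ
  have hpos : ∀ (u v : Fin 9), (row m u).testBit v = true → (Fb u).card ≤ 1 := by
    intro u v huv
    have h1 := deg_bound hcard hs u
    have h2 : 0 < pc (row m u) := by
      rw [pc_eq]; exact card_pos.2 ⟨v, by simpa using huv⟩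
    omega
  have b48 : (row m (π 4)).testBit (π 8) = true := by rw [h]; decide +kernel
  have b57 : (row m (π 5)).testBit (π 7) = true := by rw [h]; decide +kernel
  obtain ⟨col, h1, h2⟩ := k4_std (fun p => Fb (π p))
    (fun p => by have := deg_bound hcard hs (π p); omega) (hpos _ _ b48) (hpos _ _ b57)
    (hFb _ _ (hs _ _ b48).2.symm) (hFb _ _ (hs _ _ b57).2.symm)
  refine ⟨fun p => col (π p), fun p => by simpa [hinv] using h1 (π p), fun p q hpq hE => ?_⟩
  refine h2 _ _ (fun e => hpq (by rw [← hinv p, e, hinv])) ?_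
  by_cases hg : grid p q
  · exact Or.inl (hgrid _ _ hg)
  · right
    rw [← h, hinv, hinv]
    simpa using hp p q hpq (hE.resolve_left hg) hg

lemma leaf_sound (hcard : ∀ p, (Fb p).card + (univ.filter (fun q => c q = c p)).card ≤ 3)
    (hFb : ∀ p q, c p = c q → Fb p = Fb q)
    {m C : ℕ} (hs : Sub c m) (hp : Sup c m []) (h : leaf m C ≠ 0) : Goal c Fb := by
  unfold leaf at h
  cases hb : Nat.beq (opn m offs) 0
  · exfalso
    obtain ⟨x, hx, h1, h2⟩ := opn_sound m offs (Nat.ne_of_beq_eq_false hb)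
    obtain ⟨w, hw⟩ := Nat.exists_testBit_of_ne_zero h1
    rw [Nat.testBit_and, Bool.and_eq_true] at hw
    have hw9 := row_big _ _ _ hw.1
    have e1 := (hs x.1 ⟨w, hw9⟩ hw.1).2
    have e2 := (hs x.2 ⟨w, hw9⟩ hw.2).2
    have := hp x.1 x.2 (offs_ok x hx).1 (e1.trans e2.symm) (offs_ok x hx).2
    simp [h2] at this
  · rw [hb, ite'_true, force_eq] at h
    cases hk : kp m (Nat.land C 2417851639229258349412351)
    · rw [hk, ite'_false] at h
      cases hk4 : k4 m
      · rw [hk4] at h; exact absurd rfl h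
      · exact k4_sound hcard hFb hs hp hk4
    · exact kp_sound hcard hs hp hk

lemma cls_sound (hcard : ∀ p, (Fb p).card + (univ.filter (fun q => c q = c p)).card ≤ 3)
    {m : ℕ} (hs : Sub c m) (hm : row m 9 = 0) (u v : Fin 9) (huv : c u = c v) :
    cls m u v ≤ 3 := by
  unfold cls
  rw [force_eq, force_eq, pc_eq]
  refine le_trans (card_le_card ?_) (le_trans (Nat.le_add_left _ _) (hcard u))
  intro w hw
  have hw := (mem_filter.1 hw).2
  refine mem_filter.2 ⟨mem_univ _, ?_⟩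
  have hR : ∀ z : Fin 9, (Nat.lor (row m u) (row m v)).testBit z = true → c z = c u := by
    intro z hz
    simp only [Nat.lor_eq, Nat.testBit_or, Bool.or_eq_true] at hz
    rcases hz with hz | hz
    · exact (hs _ _ hz).2.symm
    · exact (hs _ _ hz).2.symm.trans huv.symm
  generalize Nat.lor (row m u) (row m v) = R at hR hw
  simp only [Nat.lor_eq, Nat.testBit_or, Bool.or_eq_true, Nat.pow_eq, Nat.testBit_two_pow,
    decide_eq_true_eq] at hw
  rcases hw with (hw | hw) | hw | hw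
  · exact hR w hw
  · rcases low_sound R with h9 | ⟨h9, hb⟩
    · rw [h9, hm] at hw; simp at hw
    · exact (hs ⟨_, h9⟩ w hw).2.symm.trans (hR ⟨_, h9⟩ hb)
  · rw [← Fin.ext hw]
  · rw [← Fin.ext hw, huv]

lemma ins_row9 (m : ℕ) (u v : Fin 9) (hm : row m 9 = 0) : row (ins m u v) 9 = 0 := by
  apply Nat.eq_of_testBit_eq
  intro i
  rw [Nat.zero_testBit]
  by_contra h
  have h : (row (ins m u v) 9).testBit i = true := by simpa using h
  have hi := row_big _ _ _ h
  have h0 : (row m 9).testBit (⟨i, hi⟩ : Fin 9) = false := by rw [hm]; simp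
  have h' : (row (ins m u v) 9).testBit (⟨i, hi⟩ : Fin 9) = true := h
  have e : ins m u v = (m ||| 2 ^ (9 * u.val + v.val)) ||| 2 ^ (9 * v.val + u.val) := rfl
  rw [row_bit] at h0 h'
  rw [e] at h'
  simp only [Nat.testBit_or, Nat.testBit_two_pow, Bool.or_eq_true, decide_eq_true_eq, h0] at h'
  have := u.isLt; have := v.isLt
  simp at h'
  omega

lemma go_sound (hcard : ∀ p, (Fb p).card + (univ.filter (fun q => c q = c p)).card ≤ 3)
    (hFb : ∀ p q, c p = c q → Fb p = Fb q) : ∀ (l : List (Fin 9 × Fin 9)) (m C : ℕ),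
    (∀ x ∈ l, x.1 ≠ x.2) → row m 9 = 0 → Sub c m → Sup c m l → go l m C ≠ 0 → Goal c Fb := by
  intro l
  induction l with
  | nil => intro m C _ _ hs hp h; exact leaf_sound hcard hFb hs hp h
  | cons y t ih =>
    intro m C hl hm hs hp h
    have e : go (y :: t) m C = force (go t m C) fun C' => ite' (Nat.beq C' 0) 0
      (ite' (Nat.ble (cls m y.1 y.2) 3) (force (ins m y.1 y.2) fun m' => go t m' C') C') := rfl
    rw [e, force_eq, force_eq] at h
    have hl' : ∀ x ∈ t, x.1 ≠ x.2 := fun x hx => hl x (List.mem_cons_of_mem _ hx)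
    cases hb : Nat.beq (go t m C) 0
    · rw [hb, ite'_false] at h
      by_cases hc : c y.1 = c y.2
      · rw [Nat.ble_eq_true_of_le (cls_sound hcard hs hm _ _ hc), ite'_true] at h
        refine ih _ _ hl' (ins_row9 _ _ _ hm) ?_ ?_ h
        · intro u v huv
          have hy := hl y List.mem_cons_self
          rcases (ins_bit _ _ _ _ _).1 huv with h | ⟨rfl, rfl⟩ | ⟨rfl, rfl⟩
          · exact hs u v h
          · exact ⟨hy, hc⟩
          · exact ⟨hy.symm, hc.symm⟩
        · intro u v huv hcu hg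
          rw [ins_bit]
          rcases hp u v huv hcu hg with h | h | h
          · exact Or.inl (Or.inl h)
          · rcases List.mem_cons.1 h with h | h
            · left; right; left; rw [← h]; exact ⟨rfl, rfl⟩
            · exact Or.inr (Or.inl h)
          · rcases List.mem_cons.1 h with h | h
            · left; right; right; rw [← h]; exact ⟨rfl, rfl⟩
            · exact Or.inr (Or.inr h)
      · refine ih m C hl' hm hs ?_ (Nat.ne_of_beq_eq_false hb)
        intro u v huv hcu hg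
        rcases hp u v huv hcu hg with h | h | h
        · exact Or.inl h
        · rcases List.mem_cons.1 h with h | h
          · exact absurd (by rw [← h]; exact hcu) hc
          · exact Or.inr (Or.inl h)
        · rcases List.mem_cons.1 h with h | h
          · exact absurd (by rw [← h]; exact hcu.symm) hc
          · exact Or.inr (Or.inr h)
    · rw [hb] at h; exact absurd rfl h

theorem l33 (hcard : ∀ p, (Fb p).card + (univ.filter (fun q => c q = c p)).card ≤ 3)
    (hFb : ∀ p q, c p = c q → Fb p = Fb q) : Goal c Fb := by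
  refine go_sound hcard hFb offs 0 cert (fun x hx => (offs_ok x hx).1) rfl ?_ ?_
    (by rw [go_ok]; exact one_ne_zero)
  · intro u v h
    rw [row_bit] at h
    simp at h
  · intro u v huv _ hg
    exact Or.inr (offs_all u v huv hg)

end main

end Pool.Agent.P.MP_e0c710_co.K33
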