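import Mathlib
import Pool.Agent.P.MP_e0c710_co.Final
import Pool.Agent.P.MP_e0c710_co.K33

set_option autoImplicit false
set_option linter.unusedSectionVars false

namespace Pool.Agent.P.MP_e0c710_co

open Finset

lemma grid_full {V L : Type} {f : V → L} (hf : Le3 f) (g : Fin 3 → V)
    (hg : Function.Injective g) {l : L} (h : ∀ j, f (g j) = l) {u : V} (hu : f u = l) :
    ∃ j, g j = u := by
  rcases hf (g 0) (g 1) (g 2) u ((h 1).trans (h 0).symm) ((h 2).trans (h 0).symm)
    (hu.trans (h 0).symm) with e | e | e | e | e | e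
  · exact absurd (hg e) (by decide)
  · exact absurd (hg e) (by decide)
  · exact ⟨_, e⟩
  · exact absurd (hg e) (by decide)
  · exact ⟨_, e⟩
  · exact ⟨_, e⟩

lemma Tri.sub {V L : Type} {f : V → L} (hf : Tri f) (P : V → Prop)
    (hP : ∀ u v, f u = f v → P u → P v) : Tri (fun v : {v // ¬ P v} => f v.1) := by
  constructor
  · intro x y z w h1 h2 h3
    simpa only [Subtype.ext_iff] using hf.1 x.1 y.1 z.1 w.1 h1 h2 h3
  · intro x
    obtain ⟨y, z, e1, e2, n1, n2, n3⟩ := hf.2 x.1
    exact ⟨⟨y, fun h => x.2 (hP _ _ e1 h)⟩, ⟨z, fun h => x.2 (hP _ _ e2 h)⟩, e1, e2,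
      fun h => n1 (congrArg Subtype.val h), fun h => n2 (congrArg Subtype.val h),
      fun h => n3 (congrArg Subtype.val h)⟩

theorem pure_tri {L : Type} (n : ℕ) : ∀ (V : Type) [Fintype V] [DecidableEq V] (a b c : V → L),
    Fintype.card V = n → Tri a → Tri b → Le3 c → ∃ col : V → Fin 5,
      ∀ u v, u ≠ v → (a u = a v ∨ b u = b v ∨ c u = c v) → col u ≠ col v := by
  classical
  induction n using Nat.strong_induction_on with
  | _ n ih =>
  intro V _ _ a b c hn ha hb hc
  by_cases hg : Grid a b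
  · obtain ⟨g, la, lb, ia, ib, hg⟩ := hg
    let i : Fin 9 → Fin 3 := fun p => ⟨p.val / 3, by omega⟩
    let j : Fin 9 → Fin 3 := fun p => ⟨p.val % 3, by omega⟩
    let gg : Fin 9 → V := fun p => g (i p) (j p)
    have hga : ∀ p q, a (gg p) = a (gg q) → p.val / 3 = q.val / 3 := by
      intro p q h
      simp only [gg, (hg _ _).1] at h
      exact congrArg Fin.val (ia h)
    have hgb : ∀ p q, b (gg p) = b (gg q) → p.val % 3 = q.val % 3 := by
      intro p q h
      simp only [gg, (hg _ _).2] at h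
      exact congrArg Fin.val (ib h)
    have hinj : Function.Injective gg := by
      intro p q h
      have h1 := hga p q (congrArg a h)
      have h2 := hgb p q (congrArg b h)
      exact Fin.ext (by omega)
    have hall : ∀ r s, ∃ p, gg p = g r s := by
      intro r s
      refine ⟨⟨3 * r.val + s.val, by omega⟩, ?_⟩
      have e1 : i ⟨3 * r.val + s.val, by omega⟩ = r := Fin.ext (by simp only [i]; omega)
      have e2 : j ⟨3 * r.val + s.val, by omega⟩ = s := Fin.ext (by simp only [j]; omega)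
      simp only [gg, e1, e2]
    have hPa : ∀ u v, a u = a v → (∃ p, gg p = u) → ∃ p, gg p = v := by
      rintro u v h ⟨p, rfl⟩
      obtain ⟨s, hs⟩ := grid_full ha.1 (g (i p))
        (fun s s' e => ib (by rw [← (hg (i p) s).2, e, (hg _ _).2])) (fun s => (hg _ s).1)
        (h.symm.trans (hg _ _).1)
      exact hs ▸ hall _ _
    have hPb : ∀ u v, b u = b v → (∃ p, gg p = u) → ∃ p, gg p = v := by
      rintro u v h ⟨p, rfl⟩
      obtain ⟨s, hs⟩ := grid_full hb.1 (fun s => g s (j p))
        (fun s s' e => ia (by rw [← (hg s (j p)).1, show g s (j p) = g s' (j p) from e,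
          (hg _ _).1])) (fun s => (hg s _).2) (h.symm.trans (hg _ _).2)
      exact hs ▸ hall _ _
    obtain ⟨col, hcol⟩ := ih _
      (hn ▸ Fintype.card_subtype_lt (p := fun v => ¬ ∃ p, gg p = v) (x := gg 0) (by simp))
      {v // ¬ ∃ p, gg p = v} (fun v => a v.1) (fun v => b v.1) (fun v => c v.1) rfl
      (ha.sub _ hPa) (hb.sub _ hPb) (by
        intro x y z w h1 h2 h3
        simpa only [Subtype.ext_iff] using hc x.1 y.1 z.1 w.1 h1 h2 h3)
    obtain ⟨cg, h1, h2⟩ := K33.l33 (c := fun p => c (gg p))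
      (Fb := fun p => (univ.filter
        (fun u : {v // ¬ ∃ p, gg p = v} => c u.1 = c (gg p))).image col) (by
        intro p
        refine le_trans ?_ ((le3_iff c).1 hc (gg p))
        refine le_trans (Nat.add_le_add_right card_image_le _) ?_
        rw [← card_image_of_injective _ Subtype.val_injective,
          ← card_image_of_injective (univ.filter (fun q => c (gg q) = c (gg p))) hinj,
          ← card_union_of_disjoint]
        · refine card_le_card (fun v hv => ?_)
          simp only [mem_union, mem_image, mem_filter, mem_univ, true_and] at hv ⊢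
          rcases hv with ⟨u, hu, rfl⟩ | ⟨q, hq, rfl⟩
          · exact hu
          · exact hq
        · refine disjoint_left.2 (fun v h1 h2 => ?_)
          obtain ⟨u, -, rfl⟩ := mem_image.1 h1
          obtain ⟨q, -, e⟩ := mem_image.1 h2
          exact u.2 ⟨q, e⟩) (by
        intro p q h
        simp only [h])
    let F : V → Fin 5 := fun v => if h : ∃ p, gg p = v then cg h.choose else col ⟨v, h⟩
    have F1 : ∀ p, F (gg p) = cg p := by
      intro p
      have h : ∃ q, gg q = gg p := ⟨p, rfl⟩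
      simp only [F, dif_pos h]
      rw [hinj h.choose_spec]
    have F2 : ∀ v (h : ¬ ∃ p, gg p = v), F v = col ⟨v, h⟩ := fun v h => by
      simp only [F, dif_neg h]
    have key : ∀ p v, (¬ ∃ p, gg p = v) → (a (gg p) = a v ∨ b (gg p) = b v ∨ c (gg p) = c v) →
        F (gg p) ≠ F v := by
      intro p v hv h
      rcases h with h | h | h
      · exact absurd (hPa _ _ h ⟨p, rfl⟩) hv
      · exact absurd (hPb _ _ h ⟨p, rfl⟩) hv
      · rw [F1, F2 v hv]
        intro e
        exact h1 p (mem_image.2 ⟨⟨v, hv⟩, by simpa using h.symm, e.symm⟩)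
    refine ⟨F, fun u v huv h => ?_⟩
    by_cases hu : ∃ p, gg p = u <;> by_cases hv : ∃ p, gg p = v
    · obtain ⟨p, rfl⟩ := hu
      obtain ⟨q, rfl⟩ := hv
      rw [F1, F1]
      refine h2 p q (fun e => huv (by rw [e])) ?_
      rcases h with h | h | h
      · exact Or.inl (Or.inl (hga p q h))
      · exact Or.inl (Or.inr (hgb p q h))
      · exact Or.inr h
    · obtain ⟨p, rfl⟩ := hu
      exact key p v hv h
    · obtain ⟨q, rfl⟩ := hv
      exact (key q u hu (h.imp Eq.symm (Or.imp Eq.symm Eq.symm))).symm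
    · rw [F2 u hu, F2 v hv]
      exact hcol _ _ (fun e => huv (congrArg Subtype.val e)) h
  · obtain ⟨C, rfl, rfl, rfl⟩ := exists_cfg ha hb hc
    obtain ⟨col, h⟩ := C.colour hg
    exact ⟨col, fun u v huv k => h u v ⟨huv, k⟩⟩

lemma pad {V L : Type} [Fintype V] [DecidableEq V] (f : V → L) (hf : Le3 f) :
    ∃ f' : V × Fin 3 → L × ℕ, Tri f' ∧ ∀ u v, f u = f v → f' (u, 0) = f' (v, 0) := by
  classical
  obtain ⟨idx, h1, h2, h3⟩ := exists_idx f
  let s : L → ℕ := fun l => (univ.filter (fun y => f y = l)).card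
  have s3 : ∀ v, s (f v) ≤ 3 := (le3_iff f).1 hf
  have h1' : ∀ v, idx v < s (f v) := h1
  let num : V × Fin 3 → ℕ := fun p => idx p.1 + s (f p.1) * p.2.val
  have hinj : ∀ p q : V × Fin 3, f p.1 = f q.1 → num p = num q → p = q := by
    rintro ⟨u, i⟩ ⟨v, j⟩ e h
    simp only [num] at e h
    have a1 := h1' u
    have a2 := h1' v
    have a3 := s3 v
    rw [e] at a1 h
    have a4 := i.isLt
    have a5 := j.isLt
    have : idx u = idx v ∧ i.val = j.val := by
      generalize s (f v) = k at *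
      interval_cases k <;> omega
    exact Prod.ext (h2 u v e this.1) (Fin.ext this.2)
  have hsurj : ∀ v n, n < 3 * s (f v) → ∃ q : V × Fin 3, f q.1 = f v ∧ num q = n := by
    intro v n hn
    have a1 := h1' v
    obtain ⟨u, e, hu⟩ := h3 v (n % s (f v)) (Nat.mod_lt _ (by omega))
    refine ⟨(u, ⟨n / s (f v), Nat.div_lt_of_lt_mul (by omega)⟩), e, ?_⟩
    simp only [num, e, hu]
    exact Nat.mod_add_div _ _
  have hlt : ∀ p, num p < 3 * s (f p.1) := by
    rintro ⟨u, i⟩
    have a1 := h1' u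
    have a2 : s (f u) * i.val ≤ s (f u) * 2 := Nat.mul_le_mul_left _ (by omega)
    simp only [num]
    omega
  refine ⟨fun p => (f p.1, num p / 3), ⟨?_, ?_⟩, ?_⟩
  · intro x y z w e1 e2 e3
    simp only [Prod.mk.injEq] at e1 e2 e3
    have : num x = num y ∨ num x = num z ∨ num x = num w ∨ num y = num z ∨ num y = num w ∨
        num z = num w := by omega
    rcases this with h | h | h | h | h | h
    · exact Or.inl (hinj _ _ e1.1.symm h)
    · exact Or.inr (Or.inl (hinj _ _ e2.1.symm h))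
    · exact Or.inr (Or.inr (Or.inl (hinj _ _ e3.1.symm h)))
    · exact Or.inr (Or.inr (Or.inr (Or.inl (hinj _ _ (e1.1.trans e2.1.symm) h))))
    · exact Or.inr (Or.inr (Or.inr (Or.inr (Or.inl (hinj _ _ (e1.1.trans e3.1.symm) h)))))
    · exact Or.inr (Or.inr (Or.inr (Or.inr (Or.inr (hinj _ _ (e2.1.trans e3.1.symm) h)))))
  · intro x
    have := hlt x
    obtain ⟨y, e1, k1⟩ := hsurj x.1 (3 * (num x / 3) + (num x + 1) % 3) (by omega)
    obtain ⟨z, e2, k2⟩ := hsurj x.1 (3 * (num x / 3) + (num x + 2) % 3) (by omega)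
    refine ⟨y, z, Prod.ext e1 (by simp only; omega), Prod.ext e2 (by simp only; omega), ?_, ?_, ?_⟩
    · intro e; rw [e] at k1; omega
    · intro e; rw [e] at k2; omega
    · intro e; rw [e] at k1; omega
  · intro u v e
    have a1 := h1' u
    have a2 := h1' v
    have a3 := s3 u
    have a4 := s3 v
    refine Prod.ext e ?_
    simp only [num, Fin.val_zero, mul_zero, add_zero]
    omega

theorem pure_le3 {V L : Type} [Fintype V] [DecidableEq V] (a b c : V → L) (ha : Le3 a)
    (hb : Le3 b) (hc : Le3 c) : ∃ col : V → Fin 5,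
      ∀ u v, u ≠ v → (a u = a v ∨ b u = b v ∨ c u = c v) → col u ≠ col v := by
  obtain ⟨a', a1, a2⟩ := pad a ha
  obtain ⟨b', b1, b2⟩ := pad b hb
  obtain ⟨c', c1, c2⟩ := pad c hc
  obtain ⟨col, h⟩ := pure_tri _ (V × Fin 3) a' b' c' rfl a1 b1 c1.1
  exact ⟨fun v => col (v, 0), fun u v huv k => h _ _ (fun e => huv (congrArg Prod.fst e))
    (k.imp (a2 u v) (Or.imp (b2 u v) (c2 u v)))⟩

lemma exists_label {V : Type} (H : V → V → Prop) (hs : ∀ u v, H u v → H v u)
    (hp : ∀ a b c d, H a b → H b c → H c d → a = c ∨ b = d ∨ a = d)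
    (hk : ∀ v a b c, H v a → H v b → H v c → a = b ∨ a = c ∨ b = c) :
    ∃ f : V → Set V, Le3 f ∧ ∀ u v, H u v → f u = f v := by
  let f : V → Set V := fun v => {u | u = v ∨ H v u ∨ ∃ w, H v w ∧ H w u}
  have hsub : ∀ u v, H u v → f u ⊆ f v := by
    rintro u v h w (rfl | k | ⟨x, k1, k2⟩)
    · exact Or.inr (Or.inl (hs _ _ h))
    · exact Or.inr (Or.inr ⟨u, hs _ _ h, k⟩)
    · rcases hp v u x w (hs _ _ h) k1 k2 with e | e | e
      · exact Or.inr (Or.inl (e ▸ k2))
      · exact Or.inr (Or.inl (e ▸ hs _ _ h))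
      · exact Or.inl e.symm
  refine ⟨f, ?_, fun u v h => Set.Subset.antisymm (hsub u v h) (hsub v u (hs _ _ h))⟩
  intro x y z w e1 e2 e3
  have m : ∀ u, f u = f x → u = x ∨ H x u ∨ ∃ t, H x t ∧ H t u := by
    intro u e
    have : u ∈ f u := Or.inl rfl
    rwa [e] at this
  have key : ∃ p q, ∀ u, (u = x ∨ H x u ∨ ∃ t, H x t ∧ H t u) → u = x ∨ u = p ∨ u = q := by
    by_cases h1 : ∃ p q, H x p ∧ H x q ∧ p ≠ q
    · obtain ⟨p, q, k1, k2, n⟩ := h1
      refine ⟨p, q, ?_⟩
      rintro u (k | k | ⟨t, k3, k4⟩)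
      · exact Or.inl k
      · have := hk x p q u k1 k2 k
        grind
      · have := hk x p q t k1 k2 k3
        have := hp p x t u (hs _ _ k1) k3 k4
        have := hp q x t u (hs _ _ k2) k3 k4
        grind
    · push Not at h1
      by_cases h2 : ∃ p q, H x p ∧ H p q ∧ q ≠ x
      · obtain ⟨p, q, k1, k2, n⟩ := h2
        refine ⟨p, q, ?_⟩
        rintro u (k | k | ⟨t, k3, k4⟩)
        · exact Or.inl k
        · exact Or.inr (Or.inl (h1 u p k k1))
        · rw [h1 t p k3 k1] at k4
          have := hk p x q u (hs _ _ k1) k2 k4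
          grind
      · push Not at h2
        by_cases h3 : ∃ p, H x p
        · obtain ⟨p, k1⟩ := h3
          refine ⟨p, p, ?_⟩
          rintro u (k | k | ⟨t, k3, k4⟩)
          · exact Or.inl k
          · exact Or.inr (Or.inl (h1 u p k k1))
          · exact Or.inl (h2 t u k3 k4)
        · push Not at h3
          refine ⟨x, x, ?_⟩
          rintro u (k | k | ⟨t, k3, -⟩)
          · exact Or.inl k
          · exact absurd k (h3 u)
          · exact absurd k3 (h3 t)
  obtain ⟨p, q, h⟩ := key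
  have := h y (m y e1)
  have := h z (m z e2)
  have := h w (m w e3)
  grind

theorem pure_graph (V : Type) [Fintype V] (G : SimpleGraph V) (col : Sym2 V → Fin 3)
    (hp : ∀ a b c d, G.Adj a b → G.Adj b c → G.Adj c d → col s(a, b) = col s(b, c) →
      col s(b, c) = col s(c, d) → a = c ∨ b = d ∨ a = d)
    (hk : ∀ v a b c, G.Adj v a → G.Adj v b → G.Adj v c → col s(v, a) = col s(v, b) →
      col s(v, b) = col s(v, c) → a = b ∨ a = c ∨ b = c) : G.Colorable 5 := by
  classical
  have key : ∀ i : Fin 3, ∃ f : V → Set V, Le3 f ∧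
      ∀ u v, G.Adj u v ∧ col s(u, v) = i → f u = f v := by
    intro i
    refine exists_label (fun u v => G.Adj u v ∧ col s(u, v) = i) ?_ ?_ ?_
    · rintro u v ⟨h1, h2⟩
      exact ⟨h1.symm, by rwa [Sym2.eq_swap]⟩
    · rintro a b c d ⟨h1, e1⟩ ⟨h2, e2⟩ ⟨h3, e3⟩
      exact hp a b c d h1 h2 h3 (e1.trans e2.symm) (e2.trans e3.symm)
    · rintro a b c d ⟨h1, e1⟩ ⟨h2, e2⟩ ⟨h3, e3⟩
      exact hk a b c d h1 h2 h3 (e1.trans e2.symm) (e2.trans e3.symm)
  choose f h1 h2 using key
  obtain ⟨k, hk⟩ := pure_le3 (f 0) (f 1) (f 2) (h1 0) (h1 1) (h1 2)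
  refine ⟨SimpleGraph.Coloring.mk k (fun {u v} h => hk u v h.ne ?_)⟩
  have := h2 (col s(u, v)) u v ⟨h, rfl⟩
  generalize col s(u, v) = i at this
  fin_cases i
  · exact Or.inl this
  · exact Or.inr (Or.inl this)
  · exact Or.inr (Or.inr this)

end Pool.Agent.P.MP_e0c710_co
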